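import Pool.Agent.Work.MP_055a27_an.Bd.B02

/-!
# The power test functions `(iβ / (w - x₀ + iβ)) ^ k`
-/

open MeasureTheory Set Filter Topology Complex
open scoped ENNReal NNReal

namespace Pool.Agent.Work.MP_055a27_an

/-- The power test function. -/
noncomputable def tF (x0 β : ℝ) (k : ℕ) (w : ℂ) : ℂ := (I * β / (w - x0 + β * I)) ^ k

lemma den_ne {x0 β : ℝ} (hβ : 0 < β) {w : ℂ} (hw : 0 ≤ w.im) : w - x0 + β * I ≠ 0 := by
  intro h
  have : (w - x0 + β * I).im = 0 := by rw [h]; simp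
  simp at this
  linarith

lemma le_norm_den {x0 β : ℝ} (hβ : 0 < β) {w : ℂ} (hw : 0 ≤ w.im) : β ≤ ‖w - x0 + β * I‖ := by
  have h := Complex.abs_im_le_norm (w - x0 + β * I)
  simp at h
  have h2 := le_abs_self (w.im + β)
  linarith

lemma norm_tF {x0 β : ℝ} (hβ : 0 < β) {k : ℕ} (w : ℂ) :
    ‖tF x0 β k w‖ = (β / ‖w - x0 + β * I‖) ^ k := by
  unfold tF
  rw [norm_pow, norm_div, norm_mul, norm_I, one_mul, Complex.norm_real, Real.norm_eq_abs,
    abs_of_pos hβ]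

lemma norm_tF_le_one {x0 β : ℝ} (hβ : 0 < β) {k : ℕ} {w : ℂ} (hw : 0 ≤ w.im) :
    ‖tF x0 β k w‖ ≤ 1 := by
  rw [norm_tF hβ]
  apply pow_le_one₀
  · positivity
  · rw [div_le_one (lt_of_lt_of_le hβ (le_norm_den hβ hw))]
    exact le_norm_den hβ hw

lemma hasDerivAt_tF {x0 β : ℝ} (hβ : 0 < β) (k : ℕ) {w : ℂ} (hw : 0 ≤ w.im) :
    HasDerivAt (tF x0 β k)
      (-(k : ℂ) / (w - x0 + β * I) * tF x0 β k w) w := by
  have hne := den_ne (x0 := x0) hβ hw
  have h1 : HasDerivAt (fun w : ℂ => w - x0 + β * I) 1 w := by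
    simpa using ((hasDerivAt_id w).sub_const (x0 : ℂ)).add_const ((β : ℂ) * I)
  have h2 : HasDerivAt (fun w : ℂ => I * β / (w - x0 + β * I))
      ((0 * (w - x0 + β * I) - I * β * 1) / (w - x0 + β * I) ^ 2) w :=
    (hasDerivAt_const w (I * (β : ℂ))).div h1 hne
  have h3 := h2.pow k
  unfold tF
  convert! h3 using 1
  rcases Nat.eq_zero_or_pos k with hk | hk
  · subst hk
    simp
  · obtain ⟨m, rfl⟩ : ∃ m, k = m + 1 := ⟨k - 1, by omega⟩
    have hI : (I : ℂ) ≠ 0 := I_ne_zero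
    have hβ' : (β : ℂ) ≠ 0 := by exact_mod_cast hβ.ne'
    rw [Nat.add_sub_cancel, pow_succ]
    field_simp
    ring

lemma norm_den_eq {x0 β z y : ℝ} :
    ‖((z : ℂ) + y * I) - x0 + β * I‖ ^ 2 = (z - x0) ^ 2 + (y + β) ^ 2 := by
  rw [← Complex.normSq_eq_norm_sq, Complex.normSq_apply]
  simp
  ring

lemma poisson_tF {x0 β : ℝ} (hβ : 0 < β) (k : ℕ) {z y : ℝ} (hy : 0 < y) :
    poisson (fun t : ℝ => (tF x0 β k t).re) z y = (tF x0 β k (z + y * I)).re :=
  poisson_re (fun _ hζ => (hasDerivAt_tF hβ k hζ).differentiableAt)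
    (fun _ hζ => norm_tF_le_one hβ hζ) hy

lemma admissible_tF {x0 β : ℝ} (hβ : 0 < β) (k : ℕ) :
    Admissible (fun t : ℝ => (tF x0 β k t).re) :=
  admissible_re (fun _ hζ => (hasDerivAt_tF hβ k hζ).differentiableAt)
    (fun _ hζ => norm_tF_le_one hβ hζ)

set_option linter.unusedVariables false in
/-- In the cone with vertex `x` the denominator is at least `D`. -/
lemma cone_den_lower {b x x0 β z y : ℝ} (hb : 0 < b) (hβ : 0 < β) (hy : 0 < y)
    (h : |x - z| ≤ b * y) :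
    (|x - x0| + b * β) / Real.sqrt (1 + b ^ 2) ≤ ‖((z : ℂ) + y * I) - x0 + β * I‖ := by
  have hs : 0 < Real.sqrt (1 + b ^ 2) := by positivity
  rw [div_le_iff₀ hs]
  apply le_of_sq_le_sq _ (by positivity)
  rw [mul_pow, norm_den_eq, Real.sq_sqrt (by positivity)]
  have h1 : |x - x0| ≤ |z - x0| + b * y := by
    calc |x - x0| = |(x - z) + (z - x0)| := by ring_nf
      _ ≤ |x - z| + |z - x0| := abs_add_le _ _
      _ ≤ _ := by linarith
  have h2 : |x - x0| + b * β ≤ |z - x0| + b * (y + β) := by linarith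
  have h3 : (|x - x0| + b * β) ^ 2 ≤ (|z - x0| + b * (y + β)) ^ 2 := by
    apply pow_le_pow_left₀ (by positivity) h2
  have h4 : (z - x0) ^ 2 = |z - x0| ^ 2 := (sq_abs _).symm
  rw [h4]
  nlinarith [sq_nonneg (b * |z - x0| - (y + β))]

/-- Upper bound for the maximal function of the test function. -/
lemma ntMax_tF_le {b x x0 β : ℝ} (hb : 0 < b) (hβ : 0 < β) (k : ℕ) :
    ntMax b (fun t : ℝ => (tF x0 β k t).re) x ≤
      ENNReal.ofReal ((β / ((|x - x0| + b * β) / Real.sqrt (1 + b ^ 2))) ^ k) := by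
  apply ntMax_le
  intro z y hy h
  rw [poisson_tF hβ k hy]
  refine (Complex.abs_re_le_norm _).trans ?_
  rw [norm_tF hβ]
  have h1 := cone_den_lower (x0 := x0) hb hβ hy h
  have h2 : 0 < (|x - x0| + b * β) / Real.sqrt (1 + b ^ 2) := by positivity
  gcongr

lemma ntMax_tF_le_one {b x x0 β : ℝ} (hβ : 0 < β) (k : ℕ) :
    ntMax b (fun t : ℝ => (tF x0 β k t).re) x ≤ 1 := by
  rw [← ENNReal.ofReal_one]
  apply ntMax_le
  intro z y hy h
  rw [poisson_tF hβ k hy]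
  refine (Complex.abs_re_le_norm _).trans ?_
  apply norm_tF_le_one hβ
  simp
  exact hy.le

lemma gradSq_tF {x0 β : ℝ} (hβ : 0 < β) (k : ℕ) {z y : ℝ} (hy : 0 < y) :
    gradSq (fun t : ℝ => (tF x0 β k t).re) z y =
      (k : ℝ) ^ 2 * β ^ (2 * k) / ((z - x0) ^ 2 + (y + β) ^ 2) ^ (k + 1) := by
  have him : (0 : ℝ) ≤ ((z : ℂ) + y * I).im := by simp; exact hy.le
  rw [gradSq_of_re hy (hasDerivAt_tF hβ k him) (fun z y hy => poisson_tF hβ k hy)]
  rw [norm_mul, norm_div, norm_neg, norm_tF hβ, mul_pow, div_pow, norm_den_eq]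
  have h1 : ((β / ‖((z : ℂ) + y * I) - x0 + β * I‖) ^ k) ^ 2
      = β ^ (2 * k) / ((z - x0) ^ 2 + (y + β) ^ 2) ^ k := by
    rw [← pow_mul, mul_comm k 2, div_pow]
    congr 1
    rw [pow_mul, norm_den_eq]
  rw [h1, Complex.norm_natCast, pow_succ]
  have hpos : 0 < (z - x0) ^ 2 + (y + β) ^ 2 := by positivity
  field_simp
  ring

end Pool.Agent.Work.MP_055a27_an
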