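import Pool.Agent.Work.MP_055a27_an.Bd.B02

/-!
# The measure `U dx`
-/

open MeasureTheory Set Filter Topology
open scoped ENNReal NNReal

namespace Pool.Agent.Work.MP_055a27_an

/-- The measure `U dx`. -/
noncomputable def wm (U : ℝ → ℝ) : Measure ℝ :=
  volume.withDensity (fun x => ENNReal.ofReal (U x))

lemma wm_apply {U : ℝ → ℝ} {S : Set ℝ} (hS : MeasurableSet S) :
    wm U S = ∫⁻ x in S, ENNReal.ofReal (U x) := withDensity_apply _ hS

lemma weight_aemeas {U : ℝ → ℝ} (hU : IsWeight U) : AEMeasurable U volume :=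
  hU.2.aestronglyMeasurable.aemeasurable

lemma weight_ofReal_aemeas {U : ℝ → ℝ} (hU : IsWeight U) :
    AEMeasurable (fun x => ENNReal.ofReal (U x)) volume :=
  (weight_aemeas hU).ennreal_ofReal

lemma wm_Icc_lt_top {U : ℝ → ℝ} (hU : IsWeight U) (a c : ℝ) : wm U (Icc a c) < ∞ := by
  rw [wm_apply measurableSet_Icc]
  have h := hU.2.integrableOn_isCompact (isCompact_Icc (a := a) (b := c))
  have h2 := h.lintegral_lt_top
  exact h2

lemma setIntegral_eq_wm {U : ℝ → ℝ} (hU : IsWeight U) {S : Set ℝ} (hS : MeasurableSet S) :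
    ∫ x in S, U x = (wm U S).toReal := by
  rw [wm_apply hS]
  exact integral_eq_lintegral_of_nonneg_ae (Eventually.of_forall fun x => hU.1 x)
    hU.2.aestronglyMeasurable.restrict

lemma lintegral_mul_weight {U : ℝ → ℝ} (hU : IsWeight U) {g : ℝ → ℝ≥0∞} {S : Set ℝ}
    (hS : MeasurableSet S) :
    ∫⁻ x in S, g x * ENNReal.ofReal (U x) = ∫⁻ x in S, g x ∂(wm U) := by
  unfold wm
  rw [setLIntegral_withDensity_eq_setLIntegral_mul_non_measurable₀ volume _ g hS]
  · apply lintegral_congr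
    intro x
    simp [mul_comm]
  · exact Eventually.of_forall fun x => ENNReal.ofReal_lt_top
  · exact (weight_ofReal_aemeas hU).restrict

lemma lintegral_mul_weight_univ {U : ℝ → ℝ} (hU : IsWeight U) {g : ℝ → ℝ≥0∞} :
    ∫⁻ x, g x * ENNReal.ofReal (U x) = ∫⁻ x, g x ∂(wm U) := by
  have := lintegral_mul_weight hU (g := g) MeasurableSet.univ
  simpa using this

lemma star_iff {lam b p : ℝ} {U : ℝ → ℝ} (hU : IsWeight U) :
    Star lam b p U ↔ ∃ C : ℝ≥0, ∀ f : ℝ → ℝ, Admissible f →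
      ∫⁻ x : ℝ, (areaFn lam f x) ^ p ∂(wm U)
        ≤ (C : ℝ≥0∞) * ∫⁻ x : ℝ, (ntMax b f x) ^ p ∂(wm U) := by
  unfold Star
  simp only [lintegral_mul_weight_univ hU]

lemma wm_ac {U : ℝ → ℝ} : wm U ≪ volume := withDensity_absolutelyContinuous _ _

lemma doubling_iff {U : ℝ → ℝ} (hU : IsWeight U) :
    Doubling U ↔ ∃ D : ℝ≥0, ∀ x r : ℝ, 0 < r →
      wm U (Icc (x - 2 * r) (x + 2 * r)) ≤ D * wm U (Icc (x - r) (x + r)) := by
  unfold Doubling
  constructor
  · rintro ⟨D, hD⟩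
    refine ⟨D.toNNReal, fun x r hr => ?_⟩
    have h := hD x r hr
    rw [setIntegral_eq_wm hU measurableSet_Icc, setIntegral_eq_wm hU measurableSet_Icc] at h
    have h1 := (wm_Icc_lt_top hU (x - 2 * r) (x + 2 * r)).ne
    have h2 := (wm_Icc_lt_top hU (x - r) (x + r)).ne
    rw [← ENNReal.ofReal_toReal h1, ← ENNReal.ofReal_toReal h2]
    have h3 : ((D.toNNReal : ℝ≥0) : ℝ≥0∞) = ENNReal.ofReal D := rfl
    rw [h3, ← ENNReal.ofReal_mul' ENNReal.toReal_nonneg]
    exact ENNReal.ofReal_le_ofReal h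
  · rintro ⟨D, hD⟩
    refine ⟨D, fun x r hr => ?_⟩
    have h := hD x r hr
    rw [setIntegral_eq_wm hU measurableSet_Icc, setIntegral_eq_wm hU measurableSet_Icc]
    have h2 := (wm_Icc_lt_top hU (x - r) (x + r)).ne
    have h3 := ENNReal.toReal_mono (ENNReal.mul_ne_top ENNReal.coe_ne_top h2) h
    rw [ENNReal.toReal_mul, ENNReal.coe_toReal] at h3
    exact h3

end Pool.Agent.Work.MP_055a27_an
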