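import Mathlib

/-!
# Sets of points of relative density, and a local weak type estimate
-/

open MeasureTheory Set Filter Topology Metric
open scoped ENNReal NNReal

namespace Pool.Agent.Work.MP_055a27_an

/-- Points having an interval around them in which `E` has relative density `> τ`. -/
def dset (E : Set ℝ) (τ : ℝ) : Set ℝ :=
  {t | ∃ a c : ℝ, a < t ∧ t < c ∧ τ * (c - a) < volume.real (E ∩ Ioo a c)}

lemma fin_Ioo (E : Set ℝ) (a c : ℝ) : volume (E ∩ Ioo a c) ≠ ∞ :=
  ((measure_mono inter_subset_right).trans_lt measure_Ioo_lt_top).ne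

lemma isOpen_dset (E : Set ℝ) (τ : ℝ) : IsOpen (dset E τ) := by
  rw [isOpen_iff_mem_nhds]
  rintro t ⟨a, c, h1, h2, h3⟩
  filter_upwards [Ioo_mem_nhds h1 h2] with s hs
  exact ⟨a, c, hs.1, hs.2, h3⟩

lemma subset_dset {E : Set ℝ} (hE : IsOpen E) {τ : ℝ} (hτ : τ < 1) : E ⊆ dset E τ := by
  intro t ht
  obtain ⟨ε, hε, hb⟩ := Metric.isOpen_iff.1 hE t ht
  refine ⟨t - ε, t + ε, by linarith, by linarith, ?_⟩
  have h1 : E ∩ Ioo (t - ε) (t + ε) = Ioo (t - ε) (t + ε) := by
    apply inter_eq_right.2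
    rw [← Real.ball_eq_Ioo]
    exact hb
  rw [h1, Real.volume_real_Ioo_of_le (by linarith)]
  have : 0 < t + ε - (t - ε) := by linarith
  nlinarith

lemma dset_anti {E : Set ℝ} {τ τ' : ℝ} (h : τ ≤ τ') : dset E τ' ⊆ dset E τ := by
  rintro t ⟨a, c, h1, h2, h3⟩
  refine ⟨a, c, h1, h2, lt_of_le_of_lt ?_ h3⟩
  apply mul_le_mul_of_nonneg_right h
  linarith

lemma dset_near {E : Set ℝ} (hE : volume E ≠ ∞) {τ r : ℝ} (hτ : 0 < τ)
    (h : volume.real E ≤ τ * r) {t : ℝ} (ht : t ∈ dset E τ) : ∃ e ∈ E, |t - e| < r := by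
  obtain ⟨a, c, h1, h2, h3⟩ := ht
  have hac : 0 < c - a := by linarith
  have h4 : c - a < r := by
    have h5 : volume.real (E ∩ Ioo a c) ≤ volume.real E := measureReal_mono inter_subset_left hE
    have h6 : τ * (c - a) < τ * r := by linarith
    exact lt_of_mul_lt_mul_left h6 hτ.le
  have h7 : (E ∩ Ioo a c).Nonempty := by
    by_contra hne
    rw [not_nonempty_iff_eq_empty] at hne
    rw [hne] at h3
    simp at h3
    have : 0 < τ * (c - a) := by positivity
    linarith
  obtain ⟨e, he, hea, hec⟩ := h7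
  refine ⟨e, he, ?_⟩
  rw [abs_lt]
  constructor <;> linarith

lemma not_dset {E : Set ℝ} {τ t a c : ℝ} (ht : t ∉ dset E τ) (ha : a ≤ t) (hc : t ≤ c) :
    volume.real (E ∩ Ioo a c) ≤ τ * (c - a) := by
  have key : ∀ η : ℝ, 0 < η → volume.real (E ∩ Ioo a c) ≤ τ * (c - a + 2 * η) := by
    intro η hη
    have h1 : ¬ (τ * ((c + η) - (a - η)) < volume.real (E ∩ Ioo (a - η) (c + η))) := by
      intro h
      exact ht ⟨a - η, c + η, by linarith, by linarith, h⟩
    push Not at h1
    have h2 : volume.real (E ∩ Ioo a c) ≤ volume.real (E ∩ Ioo (a - η) (c + η)) := by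
      apply measureReal_mono _ (fin_Ioo _ _ _)
      apply inter_subset_inter_right
      apply Ioo_subset_Ioo <;> linarith
    calc volume.real (E ∩ Ioo a c) ≤ _ := h2
      _ ≤ _ := h1
      _ = τ * (c - a + 2 * η) := by ring
  have hlim : Tendsto (fun η : ℝ => τ * (c - a + 2 * η)) (𝓝[>] 0) (𝓝 (τ * (c - a + 2 * 0))) := by
    apply Tendsto.mono_left _ nhdsWithin_le_nhds
    apply Continuous.tendsto
    fun_prop
  rw [mul_zero, add_zero] at hlim
  apply ge_of_tendsto hlim
  filter_upwards [self_mem_nhdsWithin] with η hη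
  exact key η hη

/-- Local weak type estimate near a point at distance at most `ρ` from the complement. -/
lemma weak_local {E : Set ℝ} (hE : MeasurableSet E) {τ τ' x a0 ρ : ℝ} (hτ : 0 < τ)
    (hττ : 3 * τ ≤ τ') (ha0 : a0 ∉ dset E τ) (hρ : 0 < ρ) (hx : |x - a0| ≤ ρ) :
    volume (dset E τ' ∩ Ioo (x - ρ) (x + ρ)) ≤ ENNReal.ofReal (20 * (τ / τ') * ρ) := by
  have hτ' : 0 < τ' := by linarith
  have hxa := abs_le.1 hx
  set T : Set (ℝ × ℝ) := {q | q.1 < q.2 ∧ τ' * (q.2 - q.1) < volume.real (E ∩ Ioo q.1 q.2) ∧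
    ∃ t ∈ Ioo (x - ρ) (x + ρ), t ∈ Ioo q.1 q.2} with hT
  -- lengths are small
  have hlen : ∀ q ∈ T, q.2 - q.1 < ρ := by
    rintro ⟨a, c⟩ ⟨hac, hd, t, ht, htac⟩
    simp only at hac hd htac ⊢
    by_contra hcon
    push Not at hcon
    have h1 : volume.real (E ∩ Ioo a c) ≤ τ * (max c a0 - min a a0) := by
      have h2 : volume.real (E ∩ Ioo a c) ≤ volume.real (E ∩ Ioo (min a a0) (max c a0)) := by
        apply measureReal_mono _ (fin_Ioo _ _ _)
        apply inter_subset_inter_right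
        exact Ioo_subset_Ioo (min_le_left _ _) (le_max_left _ _)
      exact h2.trans (not_dset ha0 (min_le_right _ _) (le_max_right _ _))
    have h3 : max c a0 - min a a0 ≤ 3 * (c - a) := by
      rcases le_total c a0 with h | h <;> rcases le_total a a0 with h' | h'
      · rw [max_eq_right h, min_eq_left h']
        linarith [ht.1, htac.2, hxa.1]
      · linarith
      · rw [max_eq_left h, min_eq_left h']
        linarith
      · rw [max_eq_left h, min_eq_right h']
        linarith [ht.2, htac.1, hxa.2]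
    have h4 : τ * (max c a0 - min a a0) ≤ τ * (3 * (c - a)) := by gcongr
    have h5 : 3 * τ * (c - a) ≤ τ' * (c - a) := by
      apply mul_le_mul_of_nonneg_right hττ; linarith
    linarith
  have hsubB : ∀ q ∈ T, Ioo q.1 q.2 ⊆ Ioo (x - 2 * ρ) (x + 2 * ρ) := by
    rintro ⟨a, c⟩ hq
    have hl := hlen _ hq
    obtain ⟨hac, hd, t, ht, htac⟩ := hq
    simp only at hac hd htac hl ⊢
    apply Ioo_subset_Ioo
    · linarith [ht.1, htac.2]
    · linarith [ht.2, htac.1]
  obtain ⟨u, huT, hudisj, hucov⟩ := Vitali.exists_disjoint_subfamily_covering_enlargement_closedBall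
    T (fun q : ℝ × ℝ => (q.1 + q.2) / 2) (fun q : ℝ × ℝ => (q.2 - q.1) / 2) ρ
    (fun q hq => by
      have := hlen q hq
      have h1 := hq.1
      show (q.2 - q.1) / 2 ≤ ρ
      linarith) 5 (by norm_num)
  have hucount : u.Countable := by
    apply hudisj.countable_of_nonempty_interior
    intro q hq
    have h1 := (huT hq).1
    refine ⟨(q.1 + q.2) / 2, ?_⟩
    apply ball_subset_interior_closedBall
    apply mem_ball_self
    linarith
  have hcover : dset E τ' ∩ Ioo (x - ρ) (x + ρ) ⊆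
      ⋃ q ∈ u, closedBall ((q.1 + q.2) / 2) (5 * ((q.2 - q.1) / 2)) := by
    rintro t ⟨⟨a, c, h1, h2, h3⟩, ht⟩
    have hq : ((a, c) : ℝ × ℝ) ∈ T := ⟨h1.trans h2, h3, t, ht, ⟨h1, h2⟩⟩
    obtain ⟨q, hqu, hsub⟩ := hucov _ hq
    refine mem_biUnion hqu (hsub ?_)
    simp only [mem_closedBall, Real.dist_eq, abs_le]
    constructor <;> linarith
  have hIooB : ∀ q : ℝ × ℝ, Ioo q.1 q.2 ⊆ closedBall ((q.1 + q.2) / 2) ((q.2 - q.1) / 2) := by
    intro q s hs
    simp only [mem_closedBall, Real.dist_eq, abs_le]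
    constructor <;> linarith [hs.1, hs.2]
  calc volume (dset E τ' ∩ Ioo (x - ρ) (x + ρ))
      ≤ volume (⋃ q ∈ u, closedBall ((q.1 + q.2) / 2) (5 * ((q.2 - q.1) / 2))) :=
        measure_mono hcover
    _ ≤ ∑' q : u, volume (closedBall (((q : ℝ × ℝ).1 + (q : ℝ × ℝ).2) / 2)
          (5 * (((q : ℝ × ℝ).2 - (q : ℝ × ℝ).1) / 2))) := measure_biUnion_le _ hucount _
    _ ≤ ∑' q : u, ENNReal.ofReal (5 / τ') * volume (E ∩ Ioo (q : ℝ × ℝ).1 (q : ℝ × ℝ).2) := by
        apply ENNReal.tsum_le_tsum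
        rintro ⟨q, hq⟩
        have hqT := huT hq
        simp only
        rw [Real.volume_closedBall]
        have h1 : volume (E ∩ Ioo q.1 q.2) = ENNReal.ofReal (volume.real (E ∩ Ioo q.1 q.2)) :=
          (ENNReal.ofReal_toReal (fin_Ioo _ _ _)).symm
        rw [h1, ← ENNReal.ofReal_mul (by positivity)]
        apply ENNReal.ofReal_le_ofReal
        have h2 := hqT.2.1
        rw [div_mul_eq_mul_div, le_div_iff₀ hτ']
        nlinarith
    _ = ENNReal.ofReal (5 / τ') * volume (⋃ q ∈ u, E ∩ Ioo q.1 q.2) := by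
        rw [ENNReal.tsum_mul_left, measure_biUnion hucount]
        · intro q hq q' hq' hne
          have := hudisj hq hq' hne
          exact this.mono (inter_subset_right.trans (hIooB q)) (inter_subset_right.trans (hIooB q'))
        · intro q _
          exact hE.inter measurableSet_Ioo
    _ ≤ ENNReal.ofReal (5 / τ') * volume (E ∩ Ioo (x - 2 * ρ) (x + 2 * ρ)) := by
        gcongr
        apply iUnion₂_subset
        intro q hq
        exact inter_subset_inter_right _ (hsubB q (huT hq))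
    _ ≤ ENNReal.ofReal (5 / τ') * ENNReal.ofReal (τ * (4 * ρ)) := by
        gcongr
        have h1 := not_dset (E := E) (τ := τ) (a := x - 2 * ρ) (c := x + 2 * ρ) ha0
          (by linarith) (by linarith)
        rw [← ENNReal.ofReal_toReal (fin_Ioo E (x - 2 * ρ) (x + 2 * ρ))]
        apply ENNReal.ofReal_le_ofReal
        calc (volume (E ∩ Ioo (x - 2 * ρ) (x + 2 * ρ))).toReal
            ≤ τ * (x + 2 * ρ - (x - 2 * ρ)) := h1
          _ = τ * (4 * ρ) := by ring
    _ = ENNReal.ofReal (20 * (τ / τ') * ρ) := by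
        rw [← ENNReal.ofReal_mul (by positivity)]
        congr 1
        field_simp
        ring

end Pool.Agent.Work.MP_055a27_an
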