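import Pool.Agent.Work.MP_055a27_an.DensitySets

/-!
# Component intervals of an open set and the oscillating pattern
-/

open MeasureTheory Set Filter Topology Metric
open scoped ENNReal NNReal

namespace Pool.Agent.Work.MP_055a27_an

/-- Left endpoint of the component of `t` in `O`. -/
noncomputable def lft (O : Set ℝ) (t : ℝ) : ℝ := sSup (Oᶜ ∩ Iic t)

/-- Right endpoint of the component of `t` in `O`. -/
noncomputable def rgt (O : Set ℝ) (t : ℝ) : ℝ := sInf (Oᶜ ∩ Ici t)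

/-- The complement of `O` is unbounded in both directions. -/
def CoUnb (O : Set ℝ) : Prop := ∀ t : ℝ, (Oᶜ ∩ Iic t).Nonempty ∧ (Oᶜ ∩ Ici t).Nonempty

lemma CoUnb.mono {O O' : Set ℝ} (h : CoUnb O) (hO : O' ⊆ O) : CoUnb O' := fun t =>
  ⟨(h t).1.mono (inter_subset_inter_left _ (compl_subset_compl.2 hO)),
   (h t).2.mono (inter_subset_inter_left _ (compl_subset_compl.2 hO))⟩

lemma coUnb_of_bounded {O : Set ℝ} {M : ℝ} (h : O ⊆ Ioo (-M) M) : CoUnb O := by
  intro t
  constructor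
  · refine ⟨min t (-M), ?_, mem_Iic.2 (min_le_left _ _)⟩
    intro hx
    have := (h hx).1
    exact absurd (min_le_right t (-M)) (not_le.2 this)
  · refine ⟨max t M, ?_, mem_Ici.2 (le_max_left _ _)⟩
    intro hx
    have := (h hx).2
    exact absurd (le_max_right t M) (not_le.2 this)

lemma lft_mem {O : Set ℝ} (hO : IsOpen O) (hc : CoUnb O) (t : ℝ) :
    lft O t ∈ Oᶜ ∩ Iic t :=
  (hO.isClosed_compl.inter isClosed_Iic).csSup_mem (hc t).1 ⟨t, fun _ hs => hs.2⟩

lemma rgt_mem {O : Set ℝ} (hO : IsOpen O) (hc : CoUnb O) (t : ℝ) :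
    rgt O t ∈ Oᶜ ∩ Ici t :=
  (hO.isClosed_compl.inter isClosed_Ici).csInf_mem (hc t).2 ⟨t, fun _ hs => hs.2⟩

lemma le_lft {O : Set ℝ} {s t : ℝ} (hs : s ∉ O) (hst : s ≤ t) : s ≤ lft O t :=
  le_csSup ⟨t, fun _ h => h.2⟩ ⟨hs, hst⟩

lemma rgt_le {O : Set ℝ} {s t : ℝ} (hs : s ∉ O) (hst : t ≤ s) : rgt O t ≤ s :=
  csInf_le ⟨t, fun _ h => h.2⟩ ⟨hs, hst⟩

lemma lft_lt {O : Set ℝ} (hO : IsOpen O) (hc : CoUnb O) {t : ℝ} (ht : t ∈ O) : lft O t < t := by
  have h := lft_mem hO hc t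
  refine lt_of_le_of_ne h.2 ?_
  intro he
  rw [he] at h
  exact h.1 ht

lemma lt_rgt {O : Set ℝ} (hO : IsOpen O) (hc : CoUnb O) {t : ℝ} (ht : t ∈ O) : t < rgt O t := by
  have h := rgt_mem hO hc t
  refine lt_of_le_of_ne h.2 ?_
  intro he
  rw [← he] at h
  exact h.1 ht

lemma Ioo_lft_rgt_subset {O : Set ℝ} {t : ℝ} : Ioo (lft O t) (rgt O t) ⊆ O := by
  intro s hs
  by_contra hcon
  rcases le_total s t with h | h
  · exact absurd (le_lft hcon h) (not_le.2 hs.1)
  · exact absurd (rgt_le hcon h) (not_le.2 hs.2)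

lemma lft_eq {O : Set ℝ} (hO : IsOpen O) (hc : CoUnb O) {s t : ℝ}
    (hs : s ∈ Ioo (lft O t) (rgt O t)) : lft O s = lft O t := by
  apply le_antisymm
  · by_contra hcon
    push Not at hcon
    have h1 := lft_mem hO hc s
    have h2 : lft O s ∈ Ioo (lft O t) (rgt O t) := ⟨hcon, lt_of_le_of_lt h1.2 hs.2⟩
    exact h1.1 (Ioo_lft_rgt_subset h2)
  · exact le_lft (lft_mem hO hc t).1 hs.1.le

lemma rgt_eq {O : Set ℝ} (hO : IsOpen O) (hc : CoUnb O) {s t : ℝ}
    (hs : s ∈ Ioo (lft O t) (rgt O t)) : rgt O s = rgt O t := by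
  apply le_antisymm
  · exact rgt_le (rgt_mem hO hc t).1 hs.2.le
  · by_contra hcon
    push Not at hcon
    have h1 := rgt_mem hO hc s
    have h2 : rgt O s ∈ Ioo (lft O t) (rgt O t) := ⟨lt_of_lt_of_le hs.1 h1.2, hcon⟩
    exact h1.1 (Ioo_lft_rgt_subset h2)

lemma monotone_lft {O : Set ℝ} (hc : CoUnb O) : Monotone (lft O) := by
  intro s t hst
  apply csSup_le_csSup ⟨t, fun _ h => h.2⟩ (hc s).1
  exact inter_subset_inter_right _ (Iic_subset_Iic.2 hst)

lemma monotone_rgt {O : Set ℝ} (hc : CoUnb O) : Monotone (rgt O) := by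
  intro s t hst
  apply csInf_le_csInf ⟨s, fun _ h => h.2⟩ (hc t).2
  exact inter_subset_inter_right _ (Ici_subset_Ici.2 hst)

/-- Distance to the complement. -/
noncomputable def rho (O : Set ℝ) (t : ℝ) : ℝ := min (t - lft O t) (rgt O t - t)

lemma rho_pos {O : Set ℝ} (hO : IsOpen O) (hc : CoUnb O) {t : ℝ} (ht : t ∈ O) : 0 < rho O t := by
  apply lt_min
  · linarith [lft_lt hO hc ht]
  · linarith [lt_rgt hO hc ht]

lemma measurable_rho {O : Set ℝ} (hc : CoUnb O) : Measurable (rho O) := by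
  unfold rho
  exact (measurable_id.sub (monotone_lft hc).measurable).min
    ((monotone_rgt hc).measurable.sub measurable_id)

/-- Some point of the complement is at distance exactly `rho`. -/
lemma exists_rho {O : Set ℝ} (hO : IsOpen O) (hc : CoUnb O) (t : ℝ) :
    ∃ a ∉ O, |t - a| = rho O t := by
  have hl := lft_mem hO hc t
  have hr := rgt_mem hO hc t
  have hl2 : lft O t ≤ t := hl.2
  have hr2 : t ≤ rgt O t := hr.2
  unfold rho
  rcases le_total (t - lft O t) (rgt O t - t) with h | h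
  · refine ⟨lft O t, hl.1, ?_⟩
    rw [min_eq_left h, abs_of_nonneg (by linarith)]
  · refine ⟨rgt O t, hr.1, ?_⟩
    rw [min_eq_right h, abs_sub_comm, abs_of_nonneg (by linarith)]

lemma rho_le {O : Set ℝ} {t s : ℝ} (hs : s ∉ O) : rho O t ≤ |t - s| := by
  unfold rho
  rcases le_total s t with h | h
  · refine (min_le_left _ _).trans ?_
    rw [abs_of_nonneg (by linarith)]
    linarith [le_lft hs h]
  · refine (min_le_right _ _).trans ?_
    rw [abs_sub_comm, abs_of_nonneg (by linarith)]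
    linarith [rgt_le hs h]

lemma ball_rho_subset {O : Set ℝ} {t : ℝ} : Ioo (t - rho O t) (t + rho O t) ⊆ O := by
  intro s hs
  by_contra hcon
  have h := rho_le (O := O) (t := t) hcon
  have : |t - s| < rho O t := by
    rw [abs_lt]; constructor <;> linarith [hs.1, hs.2]
  linarith

lemma rho_mono {O O' : Set ℝ} (hO : IsOpen O) (hc : CoUnb O) (h : O' ⊆ O) (t : ℝ) :
    rho O' t ≤ rho O t := by
  obtain ⟨a, ha, he⟩ := exists_rho hO hc t
  rw [← he]
  exact rho_le (fun h' => ha (h h'))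

/-- The oscillating pattern attached to an open set. -/
noncomputable def pat (A : ℝ) (O : Set ℝ) (t : ℝ) : ℝ :=
  Real.cos (A * Real.log ((t - lft O t) / (rgt O t - t)))

lemma measurable_pat {A : ℝ} {O : Set ℝ} (hc : CoUnb O) : Measurable (pat A O) := by
  unfold pat
  have h1 := (monotone_lft hc).measurable
  have h2 := (monotone_rgt hc).measurable
  apply Real.measurable_cos.comp
  apply Measurable.const_mul
  apply Real.measurable_log.comp
  exact (measurable_id.sub h1).div (h2.sub measurable_id)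

lemma abs_pat_le (A : ℝ) (O : Set ℝ) (t : ℝ) : |pat A O t| ≤ 1 := Real.abs_cos_le_one _

/-- The multi-level function built from nested sets `O 0 ⊇ O 1 ⊇ ...`. -/
noncomputable def mlf (A : ℝ) (O : ℕ → Set ℝ) (n : ℕ) (t : ℝ) : ℝ :=
  ∑ l ∈ Finset.range n, (O l \ O (l + 1)).indicator (pat A (O l)) t

lemma mlf_eq {A : ℝ} {O : ℕ → Set ℝ} (hO : Antitone O) {n l : ℕ} (hl : l < n) {t : ℝ}
    (ht : t ∈ O l \ O (l + 1)) : mlf A O n t = pat A (O l) t := by
  unfold mlf
  rw [Finset.sum_eq_single_of_mem l (Finset.mem_range.2 hl)]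
  · rw [indicator_of_mem ht]
  · intro m _ hm
    apply indicator_of_notMem
    rintro ⟨h1, h2⟩
    rcases lt_or_gt_of_ne hm with h | h
    · exact h2 (hO (show m + 1 ≤ l from h) ht.1)
    · exact ht.2 (hO (show l + 1 ≤ m from h) h1)

lemma abs_mlf_le {A : ℝ} {O : ℕ → Set ℝ} (hO : Antitone O) (n : ℕ) (t : ℝ) :
    |mlf A O n t| ≤ 1 := by
  by_cases h : ∃ l < n, t ∈ O l \ O (l + 1)
  · obtain ⟨l, hl, ht⟩ := h
    rw [mlf_eq hO hl ht]
    exact abs_pat_le _ _ _
  · push Not at h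
    have : mlf A O n t = 0 := by
      unfold mlf
      apply Finset.sum_eq_zero
      intro l hl
      exact indicator_of_notMem (h l (Finset.mem_range.1 hl)) _
    rw [this]
    simp

lemma measurable_mlf {A : ℝ} {O : ℕ → Set ℝ} (hopen : ∀ l, IsOpen (O l))
    (hc : ∀ l, CoUnb (O l)) (n : ℕ) : Measurable (mlf A O n) := by
  unfold mlf
  apply Finset.measurable_sum
  intro l _
  apply (measurable_pat (hc l)).indicator
  exact (hopen l).measurableSet.diff (hopen (l + 1)).measurableSet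

end Pool.Agent.Work.MP_055a27_an
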