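import Pool.Agent.Work.MP_055a27_an.Absorb
import Pool.Agent.Work.MP_055a27_an.Bd.B02
import Pool.Agent.Work.MP_055a27_an.WMeas

/-!
# Weak `A_∞` weights satisfy the inequality when `lam < b`
-/

open MeasureTheory Set Filter Topology Complex Metric
open scoped ENNReal NNReal

namespace Pool.Agent.Work.MP_055a27_an

/-- The weak `A_∞` condition: the `A_∞` inequality for the subsets of an interval, with the
integral over the concentric interval of twice the length on the right side. -/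
def WeakAInfty (U : ℝ → ℝ) : Prop :=
  ∃ C ε : ℝ, 0 < C ∧ 0 < ε ∧ ∀ x r : ℝ, 0 < r → ∀ E : Set ℝ, MeasurableSet E →
    E ⊆ Icc (x - r) (x + r) →
    ∫ t in E, U t ≤ C * (volume.real E / (2 * r)) ^ ε * ∫ t in Icc (x - 2 * r) (x + 2 * r), U t

lemma weakAM_of_weakAInfty {U : ℝ → ℝ} (hU : IsWeight U) (h : WeakAInfty U) :
    ∃ C ε : ℝ, 0 < C ∧ 0 < ε ∧ WeakAM (wm U) C ε := by
  obtain ⟨C, ε, hC, hε, hw⟩ := h
  refine ⟨C, ε, hC, hε, ?_⟩
  intro x r hr E hE hEs
  have h1 := hw x r hr E hE hEs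
  rw [setIntegral_eq_wm hU hE, setIntegral_eq_wm hU measurableSet_Icc] at h1
  have hfin1 : wm U E ≠ ∞ :=
    ((measure_mono hEs).trans_lt (wm_Icc_lt_top hU _ _)).ne
  have hfin2 := (wm_Icc_lt_top hU (x - 2 * r) (x + 2 * r)).ne
  rw [← ENNReal.ofReal_toReal hfin1, ← ENNReal.ofReal_toReal hfin2, ← ENNReal.ofReal_mul' (by
    exact ENNReal.toReal_nonneg)]
  exact ENNReal.ofReal_le_ofReal h1

lemma iSup_rpow' {a : ℕ → ℝ≥0∞} {p : ℝ} (hp : 0 < p) : (⨆ m, a m) ^ p = ⨆ m, (a m) ^ p :=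
  (ENNReal.orderIsoRpow p hp).map_iSup a

lemma iSup_gK {F : ℂ → ℂ} {q : ℝ × ℝ} (hq : 0 < q.2) :
    ⨆ m, gK F m q = ENNReal.ofReal (gsq F q) := by
  apply le_antisymm
  · exact iSup_le fun m => gK_le F m q
  · have hmem : q ∈ ⋃ m, Kset m := by rw [iUnion_Kset]; exact hq
    obtain ⟨m, hm⟩ := mem_iUnion.1 hmem
    refine le_trans ?_ (le_iSup _ m)
    unfold gK
    rw [indicator_of_mem hm]

lemma gK_mono {F : ℂ → ℂ} : Monotone (gK F) := by
  intro m n hmn q
  unfold gK
  by_cases h : q ∈ Kset m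
  · rw [indicator_of_mem h, indicator_of_mem (Kset_mono hmn h)]
  · rw [indicator_of_notMem h]; exact bot_le

lemma iSup_AK {F : ℂ → ℂ} {lam x : ℝ} :
    ⨆ m, AK F lam m x = ∫⁻ q in cone lam x, ENNReal.ofReal (gsq F q) := by
  unfold AK
  rw [← lintegral_iSup (fun m => measurable_gK F m) gK_mono]
  apply setLIntegral_congr_fun (measurableSet_cone lam x)
  intro q hq
  exact iSup_gK hq.2

lemma AK_mono {F : ℂ → ℂ} {lam x : ℝ} : Monotone (fun m => AK F lam m x) := by
  intro m n hmn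
  exact lintegral_mono (fun q => gK_mono hmn q)

lemma areaFn_eq {f : ℝ → ℝ} (hf : Admissible f) {lam x : ℝ} :
    areaFn lam f x = (∫⁻ q in cone lam x, ENNReal.ofReal (gsq (schw f) q)) ^ (1 / 2 : ℝ) := by
  unfold areaFn
  congr 1
  apply setLIntegral_congr_fun (measurableSet_cone lam x)
  intro q hq
  simp only
  rw [gradSq_eq hf hq.2]
  unfold gsq
  rw [(hasDerivAt_schw hf (mem_uhp (z := q.1) hq.2)).deriv]

lemma ntMax_eq {f : ℝ → ℝ} (hf : Admissible f) {b x : ℝ} : ntMax b f x = NT (schw f) b x := by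
  unfold ntMax NT
  apply iSup_congr; intro z
  apply iSup_congr; intro y
  apply iSup_congr; intro hy
  rw [poisson_eq_re hf hy.1]

lemma schw_diff {f : ℝ → ℝ} (hf : Admissible f) : DifferentiableOn ℂ (schw f) uhp := by
  intro w hw
  exact (hasDerivAt_schw hf hw).differentiableAt.differentiableWithinAt

theorem weak_star {U : ℝ → ℝ} (hU : IsWeight U) (hw : WeakAInfty U) {lam b p : ℝ}
    (hlam : 0 < lam) (hlb : lam < b) (hp : 0 < p) : Star lam b p U := by
  rw [star_iff hU]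
  obtain ⟨C, ε, hC, hε, hwm⟩ := weakAM_of_weakAInfty hU hw
  have : SFinite (wm U) := by unfold wm; infer_instance
  obtain ⟨A, hA⟩ := absorb hlam hlb hp (wm_Icc_lt_top hU) hC hε hwm
  refine ⟨A, fun f hf => ?_⟩
  have e1 : ∀ x, (areaFn lam f x) ^ p = ⨆ m, ((AK (schw f) lam m x) ^ (1 / 2 : ℝ)) ^ p := by
    intro x
    rw [areaFn_eq hf, ← iSup_AK, iSup_rpow' (by norm_num), iSup_rpow' hp]
  have e2 : ∀ x, ntMax b f x = NT (schw f) b x := fun x => ntMax_eq hf
  simp only [e1, e2]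
  rw [lintegral_iSup]
  · exact iSup_le fun m => hA _ (schw_diff hf) m
  · intro m
    exact ((continuous_AK (schw_diff hf) lam m).measurable.pow_const _).pow_const _
  · intro m n hmn x
    simp only
    have := AK_mono (F := schw f) (lam := lam) (x := x) hmn
    simp only at this
    gcongr

end Pool.Agent.Work.MP_055a27_an
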