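import Pool.Agent.Work.MP_055a27_an.Defs

/-!
# The Schwarz integral of an admissible function
-/

open MeasureTheory Set Filter Topology Complex
open scoped ENNReal NNReal

namespace Pool.Agent.Work.MP_055a27_an

/-- The Schwarz integral of `f`, with real part the Poisson integral. -/
noncomputable def schw (f : ℝ → ℝ) (w : ℂ) : ℂ :=
  (I / Real.pi) * ∫ t : ℝ, ((f t / (1 + t ^ 2) : ℝ) : ℂ) * ((1 + t * w) / (w - t))

/-- The derivative of the Schwarz integral. -/
noncomputable def dschw (f : ℝ → ℝ) (w : ℂ) : ℂ :=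
  -(I / Real.pi) * ∫ t : ℝ, (f t : ℂ) / (w - t) ^ 2

lemma sub_ofReal_ne_zero {w : ℂ} (hw : 0 < w.im) (t : ℝ) : w - (t : ℂ) ≠ 0 := by
  intro h
  have : (w - (t : ℂ)).im = 0 := by rw [h]; simp
  simp at this
  linarith

lemma im_le_norm_sub {w : ℂ} (t : ℝ) : w.im ≤ ‖w - (t : ℂ)‖ := by
  have h := Complex.abs_im_le_norm (w - (t : ℂ))
  simp at h
  exact le_trans (le_abs_self _) h

/-- The basic comparison `1 + t² ≤ C |w - t|²`. -/
lemma one_add_sq_le {w : ℂ} {y : ℝ} (hy : 0 < y) (hw : y ≤ w.im) (t : ℝ) :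
    1 + t ^ 2 ≤ (2 + (1 + 2 * ‖w‖ ^ 2) / y ^ 2) * ‖w - (t : ℂ)‖ ^ 2 := by
  have h1 : y ≤ ‖w - (t : ℂ)‖ := le_trans hw (im_le_norm_sub t)
  have h2 : |t| ≤ ‖w - (t : ℂ)‖ + ‖w‖ := by
    have : ‖(t : ℂ)‖ ≤ ‖w - (t : ℂ)‖ + ‖w‖ := by
      calc ‖(t : ℂ)‖ = ‖w - (w - (t : ℂ))‖ := by ring_nf
        _ ≤ ‖w‖ + ‖w - (t : ℂ)‖ := norm_sub_le _ _
        _ = _ := add_comm _ _
    simpa using this
  have h3 : t ^ 2 ≤ 2 * ‖w - (t : ℂ)‖ ^ 2 + 2 * ‖w‖ ^ 2 := by
    have h4 : t ^ 2 = |t| ^ 2 := (sq_abs t).symm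
    rw [h4]
    have : |t| ^ 2 ≤ (‖w - (t : ℂ)‖ + ‖w‖) ^ 2 := by
      apply pow_le_pow_left₀ (abs_nonneg _) h2
    nlinarith [sq_nonneg (‖w - (t : ℂ)‖ - ‖w‖)]
  have h5 : (1 + 2 * ‖w‖ ^ 2) ≤ (1 + 2 * ‖w‖ ^ 2) / y ^ 2 * ‖w - (t : ℂ)‖ ^ 2 := by
    rw [div_mul_eq_mul_div, le_div_iff₀ (by positivity)]
    have : y ^ 2 ≤ ‖w - (t : ℂ)‖ ^ 2 := pow_le_pow_left₀ hy.le h1 2
    nlinarith [sq_nonneg ‖w‖]
  nlinarith

lemma adm_measurable {f : ℝ → ℝ} (hf : Admissible f) : AEStronglyMeasurable f volume := by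
  have h := hf.aestronglyMeasurable
  have h2 : AEStronglyMeasurable (fun t : ℝ => (f t / (1 + t ^ 2)) * (1 + t ^ 2)) volume := by
    apply h.mul
    apply Continuous.aestronglyMeasurable
    fun_prop
  refine h2.congr (Eventually.of_forall fun t => ?_)
  have : (1 + t ^ 2 : ℝ) ≠ 0 := by positivity
  show f t / (1 + t ^ 2) * (1 + t ^ 2) = f t
  field_simp

lemma hasDerivAt_schw {f : ℝ → ℝ} (hf : Admissible f) {w : ℂ} (hw : 0 < w.im) :
    HasDerivAt (schw f) (dschw f w) w := by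
  set g : ℝ → ℝ := fun t => f t / (1 + t ^ 2) with hg
  have hgi : Integrable g volume := hf
  set y : ℝ := w.im / 2 with hy
  have hy0 : 0 < y := by positivity
  have him : ∀ v ∈ Metric.ball w y, y ≤ v.im := by
    intro v hv
    have h1 : ‖v - w‖ < y := by simpa [dist_eq_norm] using hv
    have h2 : |(v - w).im| ≤ ‖v - w‖ := Complex.abs_im_le_norm _
    have h3 := abs_lt.1 (lt_of_le_of_lt h2 h1)
    simp at h3
    linarith [h3.1]
  have hnorm : ∀ v ∈ Metric.ball w y, ‖v‖ ≤ ‖w‖ + y := by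
    intro v hv
    have h1 : ‖v - w‖ < y := by simpa [dist_eq_norm] using hv
    calc ‖v‖ = ‖w + (v - w)‖ := by ring_nf
      _ ≤ ‖w‖ + ‖v - w‖ := norm_add_le _ _
      _ ≤ _ := by linarith
  set C : ℝ := 2 + (1 + 2 * (‖w‖ + y) ^ 2) / y ^ 2 with hC
  have hCb : ∀ v ∈ Metric.ball w y, ∀ t : ℝ, 1 + t ^ 2 ≤ C * ‖v - (t : ℂ)‖ ^ 2 := by
    intro v hv t
    refine (one_add_sq_le hy0 (him v hv) t).trans ?_
    apply mul_le_mul_of_nonneg_right _ (by positivity)
    rw [hC]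
    have h1 : ‖v‖ ^ 2 ≤ (‖w‖ + y) ^ 2 := pow_le_pow_left₀ (norm_nonneg _) (hnorm v hv) 2
    gcongr
  have key := hasDerivAt_integral_of_dominated_loc_of_deriv_le
    (μ := (volume : Measure ℝ)) (s := Metric.ball w y)
    (F := fun (v : ℂ) (t : ℝ) => ((g t : ℝ) : ℂ) * ((1 + t * v) / (v - t)))
    (F' := fun (v : ℂ) (t : ℝ) => ((g t : ℝ) : ℂ) * (-(1 + t ^ 2) / (v - t) ^ 2))
    (x₀ := w) (bound := fun t => |g t| * C)
    (Metric.ball_mem_nhds w hy0) ?_ ?_ ?_ ?_ ?_ ?_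
  · have h2 := key.2
    have h3 := h2.const_mul (I / (Real.pi : ℂ))
    have e1 : schw f = fun w => (I / Real.pi) * ∫ t : ℝ, ((g t : ℝ) : ℂ) * ((1 + t * w) / (w - t)) := by
      funext v
      simp only [schw, hg]
    rw [e1]
    convert! h3 using 1
    simp only [dschw]
    rw [neg_mul, ← mul_neg, ← integral_neg]
    congr 1
    apply integral_congr_ae
    refine Eventually.of_forall fun t => ?_
    have h1 : (1 + (t : ℂ) ^ 2) ≠ 0 := by
      have : ((1 + t ^ 2 : ℝ) : ℂ) ≠ 0 := by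
        rw [Complex.ofReal_ne_zero]; positivity
      simpa using this
    have h2 := sub_ofReal_ne_zero hw t
    simp only [hg]
    push_cast
    field_simp
  · -- measurability
    refine Eventually.of_forall fun v => ?_
    apply AEStronglyMeasurable.mul
    · exact (Complex.measurable_ofReal.comp_aemeasurable hgi.aestronglyMeasurable.aemeasurable).aestronglyMeasurable
    · apply Measurable.aestronglyMeasurable
      apply Measurable.div
      · fun_prop
      · fun_prop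
  · -- integrability at w
    have hb : ∀ t : ℝ, ‖(1 + t * w) / (w - t)‖ ≤ C * (1 + ‖w‖) := by
      intro t
      have hwb := hCb w (Metric.mem_ball_self hy0) t
      have hne := sub_ofReal_ne_zero hw t
      have hpos : 0 < ‖w - (t : ℂ)‖ := norm_pos_iff.2 hne
      have hC2 : 2 ≤ C := by
        rw [hC]
        have : 0 ≤ (1 + 2 * (‖w‖ + y) ^ 2) / y ^ 2 := by positivity
        linarith
      have h1 : (1 + |t|) ≤ C * ‖w - (t : ℂ)‖ := by
        have h2 : (1 + |t|) ^ 2 ≤ 2 * (1 + t ^ 2) := by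
          nlinarith [sq_nonneg (1 - |t|), sq_abs t]
        have h3 : (1 + |t|) ^ 2 ≤ (C * ‖w - (t : ℂ)‖) ^ 2 := by
          calc (1 + |t|) ^ 2 ≤ 2 * (1 + t ^ 2) := h2
            _ ≤ 2 * (C * ‖w - (t : ℂ)‖ ^ 2) := by linarith
            _ ≤ C * (C * ‖w - (t : ℂ)‖ ^ 2) := by
              apply mul_le_mul_of_nonneg_right hC2
              positivity
            _ = _ := by ring
        exact le_of_sq_le_sq h3 (by positivity)
      rw [norm_div, div_le_iff₀ hpos]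
      have h4 : ‖1 + (t : ℂ) * w‖ ≤ 1 + |t| * ‖w‖ := by
        calc ‖1 + (t : ℂ) * w‖ ≤ ‖(1 : ℂ)‖ + ‖(t : ℂ) * w‖ := norm_add_le _ _
          _ = _ := by rw [norm_mul]; simp
      calc ‖1 + (t : ℂ) * w‖ ≤ 1 + |t| * ‖w‖ := h4
        _ ≤ (1 + |t|) * (1 + ‖w‖) := by nlinarith [abs_nonneg t, norm_nonneg w]
        _ ≤ (C * ‖w - (t : ℂ)‖) * (1 + ‖w‖) := by
          apply mul_le_mul_of_nonneg_right h1
          positivity
        _ = _ := by ring
    have hgc : Integrable (fun t => ((g t : ℝ) : ℂ)) volume := hgi.ofReal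
    refine hgc.mul_bdd (c := C * (1 + ‖w‖)) ?_ (Eventually.of_forall hb)
    apply Measurable.aestronglyMeasurable
    apply Measurable.div
    · fun_prop
    · fun_prop
  · apply AEStronglyMeasurable.mul
    · exact (Complex.measurable_ofReal.comp_aemeasurable hgi.aestronglyMeasurable.aemeasurable).aestronglyMeasurable
    · apply Measurable.aestronglyMeasurable
      apply Measurable.div
      · fun_prop
      · fun_prop
  · refine Eventually.of_forall fun t v hv => ?_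
    rw [norm_mul, norm_div, norm_neg, norm_pow]
    have h1 := hCb v hv t
    have hv0 : 0 < v.im := lt_of_lt_of_le hy0 (him v hv)
    have hpos : 0 < ‖v - (t : ℂ)‖ := norm_pos_iff.2 (sub_ofReal_ne_zero hv0 t)
    have h2 : ‖(1 + (t : ℂ) ^ 2)‖ = 1 + t ^ 2 := by
      have : (1 + (t : ℂ) ^ 2) = ((1 + t ^ 2 : ℝ) : ℂ) := by push_cast; ring
      rw [this, Complex.norm_real, Real.norm_eq_abs, abs_of_pos (by positivity)]
    rw [h2]
    have h3 : ‖((g t : ℝ) : ℂ)‖ = |g t| := by simp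
    rw [h3]
    apply mul_le_mul_of_nonneg_left _ (abs_nonneg _)
    rw [div_le_iff₀ (by positivity)]
    exact h1
  · exact hgi.abs.mul_const C
  · refine Eventually.of_forall fun t v hv => ?_
    have hv0 : 0 < v.im := lt_of_lt_of_le hy0 (him v hv)
    have hne := sub_ofReal_ne_zero hv0 t
    have h1 : HasDerivAt (fun v : ℂ => (1 + (t : ℂ) * v)) (t : ℂ) v := by
      simpa using ((hasDerivAt_id v).const_mul (t : ℂ)).const_add 1
    have h2 : HasDerivAt (fun v : ℂ => v - (t : ℂ)) 1 v := (hasDerivAt_id v).sub_const _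
    have h3 := (h1.div h2 hne).const_mul ((g t : ℝ) : ℂ)
    convert! h3 using 1
    congr 1
    ring

lemma poisson_eq_integral (f : ℝ → ℝ) (z y : ℝ) :
    poisson f z y = (1 / Real.pi) * ∫ t : ℝ, y * f t / ((z - t) ^ 2 + y ^ 2) := by
  unfold poisson
  congr 1
  have := integral_sub_left_eq_self (fun t : ℝ => y * f t / ((z - t) ^ 2 + y ^ 2)) volume z
  rw [← this]
  apply integral_congr_ae
  refine Eventually.of_forall fun t => ?_
  simp

lemma integrable_schw_integrand {f : ℝ → ℝ} (hf : Admissible f) {w : ℂ} (hw : 0 < w.im) :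
    Integrable (fun t : ℝ => ((f t / (1 + t ^ 2) : ℝ) : ℂ) * ((1 + t * w) / (w - t))) volume := by
  set g : ℝ → ℝ := fun t => f t / (1 + t ^ 2) with hg
  have hgi : Integrable g volume := hf
  have hgc : Integrable (fun t => ((g t : ℝ) : ℂ)) volume := hgi.ofReal
  set C : ℝ := 2 + (1 + 2 * ‖w‖ ^ 2) / w.im ^ 2 with hC
  have hb : ∀ t : ℝ, ‖(1 + t * w) / (w - t)‖ ≤ C * (1 + ‖w‖) := by
    intro t
    have hwb := one_add_sq_le hw le_rfl t
    have hne := sub_ofReal_ne_zero hw t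
    have hpos : 0 < ‖w - (t : ℂ)‖ := norm_pos_iff.2 hne
    have hC2 : 2 ≤ C := by
      rw [hC]
      have : 0 ≤ (1 + 2 * ‖w‖ ^ 2) / w.im ^ 2 := by positivity
      linarith
    have h1 : (1 + |t|) ≤ C * ‖w - (t : ℂ)‖ := by
      have h2 : (1 + |t|) ^ 2 ≤ 2 * (1 + t ^ 2) := by
        nlinarith [sq_nonneg (1 - |t|), sq_abs t]
      have h3 : (1 + |t|) ^ 2 ≤ (C * ‖w - (t : ℂ)‖) ^ 2 := by
        calc (1 + |t|) ^ 2 ≤ 2 * (1 + t ^ 2) := h2
          _ ≤ 2 * (C * ‖w - (t : ℂ)‖ ^ 2) := by linarith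
          _ ≤ C * (C * ‖w - (t : ℂ)‖ ^ 2) := by
            apply mul_le_mul_of_nonneg_right hC2
            positivity
          _ = _ := by ring
      exact le_of_sq_le_sq h3 (by positivity)
    rw [norm_div, div_le_iff₀ hpos]
    have h4 : ‖1 + (t : ℂ) * w‖ ≤ 1 + |t| * ‖w‖ := by
      calc ‖1 + (t : ℂ) * w‖ ≤ ‖(1 : ℂ)‖ + ‖(t : ℂ) * w‖ := norm_add_le _ _
        _ = _ := by rw [norm_mul]; simp
    calc ‖1 + (t : ℂ) * w‖ ≤ 1 + |t| * ‖w‖ := h4
      _ ≤ (1 + |t|) * (1 + ‖w‖) := by nlinarith [abs_nonneg t, norm_nonneg w]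
      _ ≤ (C * ‖w - (t : ℂ)‖) * (1 + ‖w‖) := by
        apply mul_le_mul_of_nonneg_right h1
        positivity
      _ = _ := by ring
  refine hgc.mul_bdd (c := C * (1 + ‖w‖)) ?_ (Eventually.of_forall hb)
  apply Measurable.aestronglyMeasurable
  apply Measurable.div
  · fun_prop
  · fun_prop

/-- The real part of the Schwarz integral is the Poisson integral. -/
lemma schw_re {f : ℝ → ℝ} (hf : Admissible f) {z y : ℝ} (hy : 0 < y) :
    (schw f (z + y * I)).re = poisson f z y := by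
  rw [poisson_eq_integral]
  have hw : 0 < ((z : ℂ) + y * I).im := by simp [hy]
  have hint := integrable_schw_integrand hf hw
  unfold schw
  have e1 : (I / (Real.pi : ℂ)) = (((1 / Real.pi : ℝ)) : ℂ) * I := by
    push_cast; ring
  rw [e1, mul_assoc, Complex.re_ofReal_mul]
  congr 1
  rw [← integral_const_mul, ← Complex.reCLM_apply, ← ContinuousLinearMap.integral_comp_comm _
    (hint.const_mul I)]
  apply integral_congr_ae
  refine Eventually.of_forall fun t => ?_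
  simp only [Complex.reCLM_apply]
  have hne := sub_ofReal_ne_zero hw t
  have h1 : (1 + (t : ℂ) * (z + y * I)) / (z + y * I - t)
      = t + ((1 + t ^ 2 : ℝ) : ℂ) / (z + y * I - t) := by
    field_simp
    push_cast
    ring
  rw [h1]
  have h2 : (z + y * I - (t : ℂ)) = ⟨z - t, y⟩ := by
    apply Complex.ext <;> simp
  have h3 : (((1 + t ^ 2 : ℝ) : ℂ) / (z + y * I - t)) =
      ⟨(1 + t ^ 2) * (z - t) / ((z - t) ^ 2 + y ^ 2), -((1 + t ^ 2) * y) / ((z - t) ^ 2 + y ^ 2)⟩ := by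
    rw [h2]
    have hpos : (z - t) ^ 2 + y ^ 2 ≠ 0 := by positivity
    apply Complex.ext
    · rw [Complex.div_re, Complex.ofReal_re, Complex.ofReal_im]
      simp only [Complex.normSq_apply]
      field_simp
      ring
    · rw [Complex.div_im, Complex.ofReal_re, Complex.ofReal_im]
      simp only [Complex.normSq_apply]
      field_simp
      ring
  rw [h3]
  have hpos : (z - t) ^ 2 + y ^ 2 ≠ 0 := by positivity
  have hpos2 : (1 + t ^ 2) ≠ 0 := by positivity
  have h4 : I * (((f t / (1 + t ^ 2) : ℝ) : ℂ) * ((t : ℂ) +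
      ⟨(1 + t ^ 2) * (z - t) / ((z - t) ^ 2 + y ^ 2), -((1 + t ^ 2) * y) / ((z - t) ^ 2 + y ^ 2)⟩))
      = ((f t / (1 + t ^ 2) : ℝ) : ℂ) * (I * ((t : ℂ) +
      ⟨(1 + t ^ 2) * (z - t) / ((z - t) ^ 2 + y ^ 2), -((1 + t ^ 2) * y) / ((z - t) ^ 2 + y ^ 2)⟩)) := by
    ring
  rw [h4, Complex.re_ofReal_mul, Complex.I_mul_re]
  simp only [Complex.add_im, Complex.ofReal_im]
  field_simp
  ring

lemma poisson_eq_re {f : ℝ → ℝ} (hf : Admissible f) {z y : ℝ} (hy : 0 < y) :
    poisson f z y = (schw f (z + y * I)).re := (schw_re hf hy).symm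

lemma gradSq_of_re {f : ℝ → ℝ} {F : ℂ → ℂ} {z y : ℝ} (hy : 0 < y) {F' : ℂ}
    (hF : HasDerivAt F F' (z + y * I))
    (hp : ∀ z y : ℝ, 0 < y → poisson f z y = (F (z + y * I)).re) :
    gradSq f z y = ‖F'‖ ^ 2 := by
  have h1 : HasDerivAt (fun s : ℝ => poisson f s y) F'.re z := by
    have h2 : HasDerivAt (fun s : ℝ => F ((s : ℂ) + y * I)) F' z := by
      have h3 : HasDerivAt (fun s : ℂ => s + y * I) 1 (z : ℂ) := (hasDerivAt_id _).add_const _
      have h4 := hF.comp (z : ℂ) h3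
      rw [mul_one] at h4
      exact h4.comp_ofReal
    have h5 := Complex.reCLM.hasFDerivAt.comp_hasDerivAt z h2
    refine HasDerivAt.congr_of_eventuallyEq (f := fun s : ℝ => (F ((s : ℂ) + y * I)).re) ?_ ?_
    · exact h5
    · exact Eventually.of_forall fun s => hp s y hy
  have h2 : HasDerivAt (fun s : ℝ => poisson f z s) (-F'.im) y := by
    have h2 : HasDerivAt (fun s : ℝ => F ((z : ℂ) + s * I)) (F' * I) y := by
      have h3 : HasDerivAt (fun s : ℂ => (z : ℂ) + s * I) I (y : ℂ) := by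
        simpa using ((hasDerivAt_id (y : ℂ)).mul_const I).const_add (z : ℂ)
      have h4 := hF.comp (y : ℂ) h3
      exact h4.comp_ofReal
    have h5 := Complex.reCLM.hasFDerivAt.comp_hasDerivAt y h2
    have h6 : (F' * I).re = -F'.im := by simp
    refine HasDerivAt.congr_of_eventuallyEq (f := fun s : ℝ => (F ((z : ℂ) + s * I)).re) ?_ ?_
    · rw [← h6]
      exact h5
    · filter_upwards [eventually_gt_nhds hy] with s hs
      exact hp z s hs
  unfold gradSq
  rw [h1.deriv, h2.deriv, ← Complex.normSq_eq_norm_sq, Complex.normSq_apply]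
  ring

end Pool.Agent.Work.MP_055a27_an
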