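import Mathlib

/-!
# Definitions for the weighted area function problem
-/

open MeasureTheory Set
open scoped ENNReal NNReal

namespace Pool.Agent.Work.MP_055a27_an

/-- `f` is admissible when `∫ |f t| / (1 + t ^ 2) dt` is finite (this includes
measurability of `f`). -/
def Admissible (f : ℝ → ℝ) : Prop :=
  Integrable (fun t : ℝ => f t / (1 + t ^ 2)) volume

/-- The Poisson integral `f(z, y) = (1/π) ∫ y f(z - x) / (x ^ 2 + y ^ 2) dx`. -/
noncomputable def poisson (f : ℝ → ℝ) (z y : ℝ) : ℝ :=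
  (1 / Real.pi) * ∫ x : ℝ, y * f (z - x) / (x ^ 2 + y ^ 2)

/-- The squared length of the gradient of the Poisson integral. -/
noncomputable def gradSq (f : ℝ → ℝ) (z y : ℝ) : ℝ :=
  (deriv (fun s : ℝ => poisson f s y) z) ^ 2 + (deriv (fun s : ℝ => poisson f z s) y) ^ 2

/-- The cone `|x - z| ≤ lam y`, `y > 0` with vertex `x`, as a set of pairs `(z, y)`. -/
def cone (lam x : ℝ) : Set (ℝ × ℝ) :=
  {q | |x - q.1| ≤ lam * q.2 ∧ 0 < q.2}

/-- The area function `S_lam(f)(x)`, a value in `[0, ∞]`. -/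
noncomputable def areaFn (lam : ℝ) (f : ℝ → ℝ) (x : ℝ) : ℝ≥0∞ :=
  (∫⁻ q in cone lam x, ENNReal.ofReal (gradSq f q.1 q.2)) ^ (1 / 2 : ℝ)

/-- The non-tangential maximal function `N_b(f)(x)`, a value in `[0, ∞]`. -/
noncomputable def ntMax (b : ℝ) (f : ℝ → ℝ) (x : ℝ) : ℝ≥0∞ :=
  ⨆ (z : ℝ) (y : ℝ) (_ : 0 < y ∧ |z| ≤ b * y), ENNReal.ofReal |poisson f (x - z) y|

/-- A weight: a non-negative locally integrable function on the line. -/
def IsWeight (U : ℝ → ℝ) : Prop :=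
  (∀ x, 0 ≤ U x) ∧ LocallyIntegrable U volume

/-- The inequality `(⋆)` with parameters `lam, b, p` for the weight `U`. -/
def Star (lam b p : ℝ) (U : ℝ → ℝ) : Prop :=
  ∃ C : ℝ≥0, ∀ f : ℝ → ℝ, Admissible f →
    ∫⁻ x : ℝ, (areaFn lam f x) ^ p * ENNReal.ofReal (U x)
      ≤ (C : ℝ≥0∞) * ∫⁻ x : ℝ, (ntMax b f x) ^ p * ENNReal.ofReal (U x)

/-- The Muckenhoupt class `A_∞` in the form of the problem. -/
def AInfty (U : ℝ → ℝ) : Prop :=
  ∃ C ε : ℝ, 0 < C ∧ 0 < ε ∧ ∀ a c : ℝ, a < c → ∀ E : Set ℝ, MeasurableSet E → E ⊆ Icc a c →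
    ∫ x in E, U x ≤ C * (volume.real E / (c - a)) ^ ε * ∫ x in Icc a c, U x

/-- The weight is tempered: `∫ U(x) (1 + |x|) ^ (-K) dx` is finite for some `K`. -/
def Tempered (U : ℝ → ℝ) : Prop :=
  ∃ K : ℝ, Integrable (fun x : ℝ => U x * (1 + |x|) ^ (-K)) volume

/-- The weight is doubling. -/
def Doubling (U : ℝ → ℝ) : Prop :=
  ∃ D : ℝ, ∀ x r : ℝ, 0 < r →
    ∫ t in Icc (x - 2 * r) (x + 2 * r), U t ≤ D * ∫ t in Icc (x - r) (x + r), U t

end Pool.Agent.Work.MP_055a27_an
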