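import Pool.Agent.Work.MP_055a27_an.Saw
import Pool.Agent.Work.MP_055a27_an.Defs

/-!
# The sawtooth estimate in integrated form
-/

open MeasureTheory Set Filter Topology Complex Metric
open scoped ENNReal NNReal

namespace Pool.Agent.Work.MP_055a27_an

/-- The squared norm of the derivative at the point `(z, y)`. -/
noncomputable def gsq (F : ℂ → ℂ) (q : ℝ × ℝ) : ℝ := ‖deriv F ((q.1 : ℂ) + (q.2 : ℂ) * I)‖ ^ 2

lemma measurable_gsq (F : ℂ → ℂ) : Measurable (gsq F) := by
  unfold gsq
  have h1 : Measurable (fun q : ℝ × ℝ => (q.1 : ℂ) + (q.2 : ℂ) * I) := by fun_prop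
  exact ((measurable_deriv F).comp h1).norm.pow_const 2

lemma gsq_nonneg (F : ℂ → ℂ) (q : ℝ × ℝ) : 0 ≤ gsq F q := by unfold gsq; positivity

/-- The inequality for the region at height above `ε'`. -/
lemma saw_eps {F : ℂ → ℂ} (hF : DifferentiableOn ℂ F uhp) {lam b C T : ℝ} (hlam : 0 < lam)
    (hlb : lam < b) (hC : 0 < C) (hT : 0 < T) (c : Cutoff C T) {E : Set ℝ} (hE : E.Nonempty)
    {x r σ : ℝ} (hr : 0 < r) (hEs : E ⊆ Icc (x - r) (x + r)) (hσ0 : 0 ≤ σ)
    (hσ : ∀ z y : ℝ, 0 < y → infDist z E < b * y → |(F (z + y * I)).re| ≤ σ) {ε : ℝ}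
    (hε : 0 < ε) :
    ∫⁻ q in {q : ℝ × ℝ | ε / (1 - lam / ((lam + b) / 2)) < q.2 ∧ q.2 < T ∧
      infDist q.1 E ≤ lam * q.2}, ENNReal.ofReal (q.2 * gsq F q) ≤
    ENNReal.ofReal (((1 / ((lam + b) / 2) + 1) * (4 * ((1 + b) / (b - (lam + b) / 2))) + C / 2 + C) *
      σ ^ 2 * (2 * (r + 2 * ((lam + b) / 2) * T))) := by
  set lam' : ℝ := (lam + b) / 2 with hlam'
  have hl1 : lam < lam' := by rw [hlam']; linarith
  have hl2 : lam' < b := by rw [hlam']; linarith
  have hl0 : 0 < lam' := by linarith
  set φ : ℝ → ℝ := fun z => infDist z E / lam' + ε with hφdef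
  have hφε : ∀ z, ε ≤ φ z := by
    intro z
    have : 0 ≤ infDist z E / lam' := by
      have := infDist_nonneg (x := z) (s := E)
      positivity
    simp only [hφdef]
    linarith
  set L : ℝ≥0 := (1 / lam').toNNReal with hL
  have hLr : (L : ℝ) = 1 / lam' := Real.coe_toNNReal _ (by positivity)
  have hlip : LipschitzWith L φ := by
    apply LipschitzWith.of_dist_le_mul
    intro z z'
    have h1 := (lipschitz_infDist_pt E).dist_le_mul z z'
    rw [NNReal.coe_one, one_mul] at h1
    rw [hLr]
    simp only [hφdef, Real.dist_eq] at h1 ⊢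
    have e : infDist z E / lam' + ε - (infDist z' E / lam' + ε) =
        (1 / lam') * (infDist z E - infDist z' E) := by ring
    rw [e, abs_mul, abs_of_pos (by positivity : (0:ℝ) < 1 / lam')]
    gcongr
  set R : ℝ := r + 2 * lam' * T with hR
  have hfar : ∀ z, R ≤ |z - x| → 2 * T < φ z := by
    intro z hz
    have h1 : 2 * lam' * T ≤ infDist z E := by
      apply (le_infDist hE).2
      intro t ht
      have h2 := hEs ht
      have h3 : |t - x| ≤ r := abs_le.2 ⟨by linarith [h2.1], by linarith [h2.2]⟩
      have h4 : |z - x| ≤ |z - t| + |t - x| := by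
        calc |z - x| = |(z - t) + (t - x)| := by ring_nf
          _ ≤ _ := abs_add_le _ _
      rw [Real.dist_eq]
      linarith
    have h2 : 2 * T ≤ infDist z E / lam' := by
      rw [le_div_iff₀ hl0]; linarith
    simp only [hφdef]
    linarith
  have hRpos : 0 < R := by rw [hR]; positivity
  have hA : 2 * T < φ (x - R) := hfar _ (by
    have : x - R - x = -R := by ring
    rw [this, abs_neg, abs_of_pos hRpos])
  have hB : 2 * T < φ (x + R) := hfar _ (by
    have : x + R - x = R := by ring
    rw [this, abs_of_pos hRpos])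
  -- points above the graph
  have habove : ∀ z t : ℝ, 0 ≤ t → infDist z E ≤ lam' * (φ z + t) := by
    intro z t ht
    have : lam' * φ z = infDist z E + lam' * ε := by
      simp only [hφdef]; field_simp
    nlinarith [mul_nonneg hl0.le ht, mul_pos hl0 hε]
  have hu : ∀ z t, 0 ≤ t → |(F (curve φ t z)).re| ≤ σ := by
    intro z t ht
    have hpos : 0 < φ z + t := by linarith [hφε z]
    unfold curve
    apply hσ z (φ z + t) hpos
    calc infDist z E ≤ lam' * (φ z + t) := habove z t ht
      _ < b * (φ z + t) := by gcongr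
  have hg : ∀ z, φ z * ‖deriv F (curve φ 0 z)‖ ≤ (4 * ((1 + b) / (b - lam'))) * σ := by
    intro z
    have hpos : 0 < φ z := lt_of_lt_of_le hε (hφε z)
    have h1 := cone_grad_bound hF hl0 hl2 hσ (z := z) (y := φ z) hpos (by
      have := habove z 0 le_rfl
      rwa [add_zero] at this)
    have e : curve φ 0 z = (z : ℂ) + (φ z : ℂ) * I := by unfold curve; simp
    rw [e]
    calc φ z * ‖deriv F ((z : ℂ) + (φ z : ℂ) * I)‖
        ≤ φ z * (4 * σ * ((1 + b) / (b - lam')) / φ z) := by gcongr
      _ = _ := by field_simp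
  have hgreen := green_bound hF hlip hε hφε hC hT c (A := x - R) (B := x + R) (by linarith) hA hB
    hσ0 hu hg
  rw [hLr] at hgreen
  have e1 : x + R - (x - R) = 2 * R := by ring
  rw [e1] at hgreen
  refine le_trans ?_ (ENNReal.ofReal_le_ofReal hgreen)
  -- convert to lintegral
  have hcont : Continuous φ := hlip.continuous
  have hF1 : DifferentiableOn ℂ (deriv F) uhp := hF.deriv isOpen_uhp
  have h1 : ContinuousOn (fun q : ℝ × ℝ => hf F c φ q.1 q.2) {q | 0 ≤ q.2} := by
    unfold hf
    have e0 : ContinuousOn (fun q : ℝ × ℝ => c.q (φ q.1 + q.2)) {q | 0 ≤ q.2} :=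
      ((cutoff_cont_q c).comp ((hcont.comp continuous_fst).add continuous_snd)).continuousOn
    exact e0.mul ((continuousOn_curve hcont hε hφε hF1).norm.pow 2)
  have hint := integrable_rect h1 (x - R) (x + R) (2 * T)
  have hnn : ∀ z t, 0 ≤ t → 0 ≤ hf F c φ z t := by
    intro z t ht
    unfold hf
    have := c.nonneg (φ z + t) (by linarith [hφε z])
    positivity
  have hconv : ENNReal.ofReal (∫ z in (x - R)..(x + R), ∫ t in (0:ℝ)..(2 * T), hf F c φ z t) =
      ∫⁻ z in Ioc (x - R) (x + R), ∫⁻ t in Ioc (0:ℝ) (2 * T), ENNReal.ofReal (hf F c φ z t) := by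
    have e2 : ∫ z in (x - R)..(x + R), ∫ t in (0:ℝ)..(2 * T), hf F c φ z t =
        ∫ q, hf F c φ q.1 q.2 ∂((volume.restrict (Ioc (x - R) (x + R))).prod
          (volume.restrict (Ioc 0 (2 * T)))) := by
      rw [integral_prod _ hint, intervalIntegral.integral_of_le (by linarith)]
      apply MeasureTheory.integral_congr_ae
      refine Eventually.of_forall fun z => ?_
      simp only
      rw [intervalIntegral.integral_of_le (by positivity)]
    rw [e2, ofReal_integral_eq_lintegral_ofReal hint]
    · rw [lintegral_prod]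
      exact hint.aestronglyMeasurable.aemeasurable.ennreal_ofReal
    · rw [Measure.prod_restrict]
      rw [Filter.EventuallyLE, ae_restrict_iff' (measurableSet_Ioc.prod measurableSet_Ioc)]
      refine Eventually.of_forall fun q hq => ?_
      exact hnn q.1 q.2 hq.2.1.le
  rw [hconv]
  -- main comparison
  set W : Set (ℝ × ℝ) := {q : ℝ × ℝ | ε / (1 - lam / lam') < q.2 ∧ q.2 < T ∧
      infDist q.1 E ≤ lam * q.2} with hW
  have hWm : MeasurableSet W := by
    apply MeasurableSet.inter
    · exact measurableSet_lt measurable_const measurable_snd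
    · apply MeasurableSet.inter
      · exact measurableSet_lt measurable_snd measurable_const
      · exact measurableSet_le ((continuous_infDist_pt E).measurable.comp measurable_fst)
          (measurable_snd.const_mul lam)
  have hfrac : 0 < 1 - lam / lam' := by
    have : lam / lam' < 1 := by rw [div_lt_one hl0]; exact hl1
    linarith
  have hWpt : ∀ z y, (z, y) ∈ W → φ z < y ∧ z ∈ Ioc (x - R) (x + R) := by
    rintro z y ⟨hy1, hy2, hy3⟩
    simp only at hy1 hy2 hy3
    have hy0 : 0 < y := lt_trans (by positivity) hy1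
    constructor
    · rw [div_lt_iff₀ hfrac] at hy1
      have : infDist z E / lam' ≤ lam * y / lam' := by gcongr
      have e : lam * y / lam' = y * (lam / lam') := by ring
      simp only [hφdef]
      rw [e] at this
      nlinarith
    · by_contra hcon
      have h3 : r + lam * T < |z - x| := by
        have hRR : r + lam * T < R := by rw [hR]; nlinarith
        by_contra h4
        push Not at h4
        apply hcon
        have h5 := abs_le.1 (h4.trans hRR.le)
        have h6 := abs_le.1 h4
        exact ⟨by linarith, by linarith⟩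
      have h4 : lam * T < infDist z E := by
        have h5 : |z - x| - r ≤ infDist z E := by
          apply (le_infDist hE).2
          intro t ht
          have h2 := hEs ht
          have h3 : |t - x| ≤ r := abs_le.2 ⟨by linarith [h2.1], by linarith [h2.2]⟩
          have h4 : |z - x| ≤ |z - t| + |t - x| := by
            calc |z - x| = |(z - t) + (t - x)| := by ring_nf
              _ ≤ _ := abs_add_le _ _
          rw [Real.dist_eq]
          linarith
        linarith
      have : lam * y < lam * T := by gcongr
      linarith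
  rw [← lintegral_indicator hWm, Measure.volume_eq_prod, lintegral_prod _ (by
    apply AEMeasurable.indicator _ hWm
    exact (measurable_snd.mul (measurable_gsq F)).ennreal_ofReal.aemeasurable)]
  rw [← lintegral_indicator measurableSet_Ioc]
  apply lintegral_mono
  intro z
  simp only
  by_cases hz : z ∈ Ioc (x - R) (x + R)
  · rw [indicator_of_mem hz]
    -- change of variables in y
    have hcv : ∫⁻ t in Ioc (0:ℝ) (2 * T), ENNReal.ofReal (hf F c φ z t) =
        ∫⁻ y, (Ioc (φ z) (φ z + 2 * T)).indicator
          (fun y => ENNReal.ofReal (c.q y * gsq F (z, y))) y := by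
      rw [← lintegral_indicator measurableSet_Ioc,
        ← lintegral_add_left_eq_self (μ := volume)
          (fun y => (Ioc (φ z) (φ z + 2 * T)).indicator
            (fun y => ENNReal.ofReal (c.q y * gsq F (z, y))) y) (φ z)]
      apply lintegral_congr
      intro t
      by_cases ht : t ∈ Ioc (0:ℝ) (2 * T)
      · have ht' : φ z + t ∈ Ioc (φ z) (φ z + 2 * T) := ⟨by linarith [ht.1], by linarith [ht.2]⟩
        rw [indicator_of_mem ht, indicator_of_mem ht']
        rfl
      · have ht' : φ z + t ∉ Ioc (φ z) (φ z + 2 * T) := fun h =>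
          ht ⟨by linarith [h.1], by linarith [h.2]⟩
        rw [indicator_of_notMem ht, indicator_of_notMem ht']
    rw [hcv]
    apply lintegral_mono
    intro y
    simp only
    by_cases hq : (z, y) ∈ W
    · obtain ⟨h2, -⟩ := hWpt z y hq
      have hyT : y < T := hq.2.1
      have hφpos : 0 < φ z := lt_of_lt_of_le hε (hφε z)
      have hmem : y ∈ Ioc (φ z) (φ z + 2 * T) := ⟨h2, by linarith⟩
      rw [indicator_of_mem hq, indicator_of_mem hmem, c.eq_self y hyT.le]
    · rw [indicator_of_notMem hq]
      exact bot_le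
  · rw [indicator_of_notMem hz]
    apply le_of_eq
    rw [lintegral_eq_zero_iff' ]
    · refine Eventually.of_forall fun y => ?_
      have hq : (z, y) ∉ W := fun h => hz (hWpt z y h).2
      simp only [Pi.zero_apply]
      rw [indicator_of_notMem hq]
    · have : Measurable (W.indicator fun q : ℝ × ℝ => ENNReal.ofReal (q.2 * gsq F q)) :=
        ((measurable_snd.mul (measurable_gsq F)).ennreal_ofReal).indicator hWm
      exact (this.comp measurable_prodMk_left).aemeasurable

end Pool.Agent.Work.MP_055a27_an
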