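import Pool.Agent.Work.MP_055a27_an.GoodLam

/-!
# Integrating the good lambda inequality
-/

open MeasureTheory Set Filter Topology Complex Metric
open scoped ENNReal NNReal

namespace Pool.Agent.Work.MP_055a27_an

/-- The non-tangential maximal function of the real part of `F`. -/
noncomputable def NT (F : ℂ → ℂ) (b : ℝ) (x : ℝ) : ℝ≥0∞ :=
  ⨆ (z : ℝ) (y : ℝ) (_ : 0 < y ∧ |z| ≤ b * y),
    ENNReal.ofReal |(F (((x - z : ℝ) : ℂ) + (y : ℂ) * I)).re|

lemma NT_le_iff {F : ℂ → ℂ} {b σ t : ℝ} (hσ : 0 ≤ σ) :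
    NT F b t ≤ ENNReal.ofReal σ ↔ t ∈ vset F b σ := by
  unfold NT
  simp only [iSup_le_iff]
  constructor
  · intro h z y hy hz
    have h2 := h (t - z) y ⟨hy, hz⟩
    rw [sub_sub_cancel] at h2
    exact (ENNReal.ofReal_le_ofReal_iff hσ).1 h2
  · rintro h z y ⟨hy, hz⟩
    apply ENNReal.ofReal_le_ofReal
    apply h _ _ hy
    rw [sub_sub_cancel]; exact hz

lemma measurable_NT {F : ℂ → ℂ} (hF : DifferentiableOn ℂ F uhp) (b : ℝ) :
    Measurable (NT F b) := by
  apply LowerSemicontinuous.measurable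
  unfold NT
  apply lowerSemicontinuous_iSup
  intro z
  apply lowerSemicontinuous_iSup
  intro y
  apply lowerSemicontinuous_iSup
  intro hy
  apply Continuous.lowerSemicontinuous
  apply ENNReal.continuous_ofReal.comp
  apply continuous_abs.comp
  apply Complex.continuous_re.comp
  apply hF.continuousOn.comp_continuous (f := fun t : ℝ => ((t - z : ℝ) : ℂ) + (y : ℂ) * I)
  · fun_prop
  · intro t
    exact mem_uhp hy.1

lemma exists_gamma {C ε K c1 δ : ℝ} (hC : 0 < C) (hε : 0 < ε) (hK : 0 < K) (hc1 : 0 < c1)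
    (hδ : 0 < δ) : ∃ γ : ℝ, 0 < γ ∧ γ ≤ c1 ∧ C * (K * γ ^ 2) ^ ε ≤ δ := by
  set θ : ℝ := (δ / C) ^ (1 / ε) with hθ
  have hθ0 : 0 < θ := by positivity
  refine ⟨min c1 (√(θ / K)), ?_, min_le_left _ _, ?_⟩
  · apply lt_min hc1
    positivity
  · have h1 : (min c1 (√(θ / K))) ^ 2 ≤ θ / K := by
      calc (min c1 (√(θ / K))) ^ 2 ≤ (√(θ / K)) ^ 2 := by
            gcongr
            exact min_le_right _ _
        _ = θ / K := Real.sq_sqrt (by positivity)
    have h2 : K * (min c1 (√(θ / K))) ^ 2 ≤ θ := by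
      calc K * (min c1 (√(θ / K))) ^ 2 ≤ K * (θ / K) := by gcongr
        _ = θ := by field_simp
    calc C * (K * (min c1 (√(θ / K))) ^ 2) ^ ε ≤ C * θ ^ ε := by gcongr
      _ = δ := by
        rw [hθ, ← Real.rpow_mul (by positivity), one_div, inv_mul_cancel₀ hε.ne', Real.rpow_one]
        field_simp

lemma sqrt_lt_iff {s : ℝ} (hs : 0 ≤ s) {A : ℝ≥0∞} (hA : A ≠ ∞) :
    s < (A ^ (1 / 2 : ℝ)).toReal ↔ ENNReal.ofReal (s ^ 2) < A := by
  have h1 : A ^ (1 / 2 : ℝ) ≠ ∞ := ENNReal.rpow_ne_top_of_nonneg (by norm_num) hA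
  rw [← ENNReal.ofReal_lt_iff_lt_toReal hs h1]
  have h2 : ENNReal.ofReal s = (ENNReal.ofReal (s ^ 2)) ^ (1 / 2 : ℝ) := by
    rw [ENNReal.ofReal_rpow_of_nonneg (by positivity) (by norm_num), ← Real.sqrt_eq_rpow,
      Real.sqrt_sq hs]
  rw [h2]
  exact ENNReal.rpow_lt_rpow_iff (by norm_num)

theorem absorb {lam b p : ℝ} (hlam : 0 < lam) (hlb : lam < b) (hp : 0 < p) {μ : Measure ℝ}
    [SFinite μ] (hfin : ∀ a c : ℝ, μ (Icc a c) < ∞) {C ε : ℝ} (hC : 0 < C) (hε : 0 < ε)
    (hμ : WeakAM μ C ε) : ∃ A : ℝ≥0, ∀ F : ℂ → ℂ, DifferentiableOn ℂ F uhp → ∀ m : ℕ,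
      ∫⁻ t, ((AK F lam m t) ^ (1 / 2 : ℝ)) ^ p ∂μ ≤ A * ∫⁻ t, (NT F b t) ^ p ∂μ := by
  obtain ⟨K, c1, hK, hc1, hgood⟩ := good_lambda hlam hlb hC hε hμ
  set δ : ℝ := 2 ^ (-p) / 24 with hδ
  have hδ0 : 0 < δ := by positivity
  obtain ⟨γ, hγ, hγc, hγδ⟩ := exists_gamma hC hε hK hc1 hδ0
  refine ⟨(2 * 2 ^ p * γ ^ (-p)).toNNReal, ?_⟩
  intro F hF m
  have hA0 : (((2 * 2 ^ p * γ ^ (-p)).toNNReal : ℝ≥0) : ℝ≥0∞) ≠ 0 := by
    have : 0 < 2 * 2 ^ p * γ ^ (-p) := by positivity
    simpa using this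
  by_cases htop : ∫⁻ t, (NT F b t) ^ p ∂μ = ∞
  · rw [htop, ENNReal.mul_top hA0]
    exact le_top
  have hNm := measurable_NT hF b
  have hNfin : ∀ᵐ t ∂μ, NT F b t < ∞ := by
    have h1 := ae_lt_top (hNm.pow_const p) htop
    filter_upwards [h1] with t ht
    by_contra hcon
    rw [not_lt, top_le_iff] at hcon
    rw [hcon, ENNReal.top_rpow_of_pos hp] at ht
    exact absurd ht (lt_irrefl _)
  obtain ⟨B, hB⟩ := AK_lt_top hF lam m
  have hAfin : ∀ x, AK F lam m x ≠ ∞ := fun x => ne_top_of_le_ne_top ENNReal.ofReal_ne_top (hB x)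
  have hcont := continuous_AK hF lam m
  set S : ℝ → ℝ := fun t => ((AK F lam m t) ^ (1 / 2 : ℝ)).toReal with hS
  set N' : ℝ → ℝ := fun t => (NT F b t).toReal with hN'
  have hSm : Measurable S := (hcont.measurable.pow_const _).ennreal_toReal
  have hN'm : Measurable N' := hNm.ennreal_toReal
  have hS0 : ∀ t, 0 ≤ S t := fun t => ENNReal.toReal_nonneg
  have hN'0 : ∀ t, 0 ≤ N' t := fun t => ENNReal.toReal_nonneg
  -- the distribution inequality
  have hdist : ∀ s : ℝ, 0 < s → μ {t | s < S t / 2} ≤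
      ENNReal.ofReal (12 * δ) * μ {t | s < S t} + μ {t | s < N' t / γ} := by
    intro s hs
    have h1 := hgood F hF m s γ hs hγ hγc
    have e1 : {t | ENNReal.ofReal (s ^ 2) < AK F lam m t} = {t | s < S t} := by
      ext t
      exact (sqrt_lt_iff hs.le (hAfin t)).symm
    have e2 : ∀ t, s < S t / 2 ↔ ENNReal.ofReal (4 * s ^ 2) < AK F lam m t := by
      intro t
      have : (4 : ℝ) * s ^ 2 = (2 * s) ^ 2 := by ring
      rw [this, ← sqrt_lt_iff (by positivity) (hAfin t)]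
      constructor
      · intro h
        have : (2 : ℝ) * s < S t := by linarith
        exact this
      · intro h
        have : (2 : ℝ) * s < S t := h
        linarith
    rw [e1] at h1
    have hsub : {t | s < S t / 2} ⊆ ({t | ENNReal.ofReal (4 * s ^ 2) < AK F lam m t} ∩
        vset F b (γ * s)) ∪ {t | ENNReal.ofReal (γ * s) < NT F b t} := by
      intro t ht
      by_cases hv : t ∈ vset F b (γ * s)
      · left; exact ⟨(e2 t).1 ht, hv⟩
      · right
        show ENNReal.ofReal (γ * s) < NT F b t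
        by_contra hcon
        rw [not_lt, NT_le_iff (by positivity)] at hcon
        exact hv hcon
    have hle2 : μ {t | ENNReal.ofReal (γ * s) < NT F b t} ≤ μ {t | s < N' t / γ} := by
      apply measure_mono_ae
      filter_upwards [hNfin] with t ht hmem
      have hmem' : ENNReal.ofReal (γ * s) < NT F b t := hmem
      show s < N' t / γ
      rw [lt_div_iff₀ hγ, mul_comm]
      exact (ENNReal.ofReal_lt_iff_lt_toReal (by positivity) ht.ne).1 hmem'
    calc μ {t | s < S t / 2} ≤ _ := measure_mono hsub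
      _ ≤ _ := measure_union_le _ _
      _ ≤ 12 * ENNReal.ofReal (C * (K * γ ^ 2) ^ ε) * μ {t | s < S t} + μ {t | s < N' t / γ} := by
          gcongr
      _ ≤ ENNReal.ofReal (12 * δ) * μ {t | s < S t} + μ {t | s < N' t / γ} := by
          have h12 : (12 : ℝ≥0∞) * ENNReal.ofReal (C * (K * γ ^ 2) ^ ε) ≤
              ENNReal.ofReal (12 * δ) := by
            rw [ENNReal.ofReal_mul (p := 12) (q := δ) (by norm_num),
              show ENNReal.ofReal 12 = 12 by norm_num]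
            gcongr
          gcongr
  -- integrate
  have hl1 := lintegral_rpow_eq_lintegral_meas_lt_mul μ (f := fun t => S t / 2)
    (Eventually.of_forall fun t => by have := hS0 t; positivity) (hSm.div_const 2).aemeasurable hp
  have hl2 := lintegral_rpow_eq_lintegral_meas_lt_mul μ (f := S)
    (Eventually.of_forall fun t => hS0 t) hSm.aemeasurable hp
  have hl3 := lintegral_rpow_eq_lintegral_meas_lt_mul μ (f := fun t => N' t / γ)
    (Eventually.of_forall fun t => by have := hN'0 t; positivity) (hN'm.div_const γ).aemeasurable hp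
  have hm2 : Measurable (fun s : ℝ => μ {t | s < S t} * ENNReal.ofReal (s ^ (p - 1))) := by
    apply Measurable.mul
    · apply Antitone.measurable
      intro s s' h
      exact measure_mono (fun a ha => lt_of_le_of_lt h ha)
    · fun_prop
  have hmain : ∫⁻ t, ENNReal.ofReal ((S t / 2) ^ p) ∂μ ≤
      ENNReal.ofReal (12 * δ) * (∫⁻ t, ENNReal.ofReal (S t ^ p) ∂μ) +
        ∫⁻ t, ENNReal.ofReal ((N' t / γ) ^ p) ∂μ := by
    rw [hl1, hl2, hl3]
    calc ENNReal.ofReal p * ∫⁻ s in Ioi 0, μ {t | s < S t / 2} * ENNReal.ofReal (s ^ (p - 1))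
        ≤ ENNReal.ofReal p * ∫⁻ s in Ioi 0, (ENNReal.ofReal (12 * δ) * (μ {t | s < S t} *
            ENNReal.ofReal (s ^ (p - 1))) + μ {t | s < N' t / γ} *
            ENNReal.ofReal (s ^ (p - 1))) := by
          gcongr ENNReal.ofReal p * ?_
          apply setLIntegral_mono' measurableSet_Ioi
          intro s hs
          calc μ {t | s < S t / 2} * ENNReal.ofReal (s ^ (p - 1))
              ≤ (ENNReal.ofReal (12 * δ) * μ {t | s < S t} + μ {t | s < N' t / γ}) *
                ENNReal.ofReal (s ^ (p - 1)) := by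
                gcongr
                exact hdist s hs
            _ = _ := by ring
      _ = _ := by
          rw [lintegral_add_left (hm2.const_mul _), lintegral_const_mul _ hm2]
          ring
  -- finiteness of the left side
  have hX : ∫⁻ t, ENNReal.ofReal (S t ^ p) ∂μ ≠ ∞ := by
    have hbd : ∀ t, ENNReal.ofReal (S t ^ p) ≤ (Icc (-((1 + lam) * (m + 1))) ((1 + lam) *
        (m + 1))).indicator (fun _ => ((ENNReal.ofReal B) ^ (1 / 2 : ℝ)) ^ p) t := by
      intro t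
      have e : ENNReal.ofReal (S t ^ p) = ((AK F lam m t) ^ (1 / 2 : ℝ)) ^ p := by
        rw [← ENNReal.ofReal_rpow_of_nonneg (hS0 t) hp.le, hS,
          ENNReal.ofReal_toReal (ENNReal.rpow_ne_top_of_nonneg (by norm_num) (hAfin t))]
      rw [e]
      by_cases ht : t ∈ Icc (-((1 + lam) * ((m : ℝ) + 1))) ((1 + lam) * ((m : ℝ) + 1))
      · rw [indicator_of_mem ht]
        gcongr
        exact hB t
      · rw [indicator_of_notMem ht]
        have h1 : (1 + lam) * ((m : ℝ) + 1) < |t| := by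
          by_contra hcon
          rw [not_lt, abs_le] at hcon
          exact ht hcon
        rw [AK_support hlam h1, ENNReal.zero_rpow_of_pos (by norm_num),
          ENNReal.zero_rpow_of_pos hp]
    have hle := lintegral_mono (μ := μ) hbd
    rw [lintegral_indicator_const measurableSet_Icc] at hle
    apply ne_top_of_le_ne_top _ hle
    apply ENNReal.mul_ne_top _ (hfin _ _).ne
    exact ENNReal.rpow_ne_top_of_nonneg hp.le
      (ENNReal.rpow_ne_top_of_nonneg (by norm_num) ENNReal.ofReal_ne_top)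
  -- rewrite
  have e1 : ∫⁻ t, ENNReal.ofReal ((S t / 2) ^ p) ∂μ =
      ENNReal.ofReal (2 ^ (-p)) * ∫⁻ t, ENNReal.ofReal (S t ^ p) ∂μ := by
    rw [← lintegral_const_mul _ (by fun_prop)]
    apply lintegral_congr
    intro t
    rw [← ENNReal.ofReal_mul (by positivity), Real.div_rpow (hS0 t) (by norm_num),
      Real.rpow_neg (by norm_num)]
    congr 1
    ring
  have e2 : ∫⁻ t, ENNReal.ofReal ((N' t / γ) ^ p) ∂μ ≤
      ENNReal.ofReal (γ ^ (-p)) * ∫⁻ t, (NT F b t) ^ p ∂μ := by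
    rw [← lintegral_const_mul _ (hNm.pow_const p)]
    apply lintegral_mono
    intro t
    simp only
    rw [Real.div_rpow (hN'0 t) hγ.le, div_eq_inv_mul, ← Real.rpow_neg hγ.le,
      ENNReal.ofReal_mul (by positivity)]
    gcongr
    rw [← ENNReal.ofReal_rpow_of_nonneg (hN'0 t) hp.le]
    gcongr
    exact ENNReal.ofReal_toReal_le
  have e3 : ∫⁻ t, ((AK F lam m t) ^ (1 / 2 : ℝ)) ^ p ∂μ = ∫⁻ t, ENNReal.ofReal (S t ^ p) ∂μ := by
    apply lintegral_congr
    intro t
    rw [← ENNReal.ofReal_rpow_of_nonneg (hS0 t) hp.le, hS,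
      ENNReal.ofReal_toReal (ENNReal.rpow_ne_top_of_nonneg (by norm_num) (hAfin t))]
  rw [e3]
  set X : ℝ≥0∞ := ∫⁻ t, ENNReal.ofReal (S t ^ p) ∂μ with hXdef
  set Y : ℝ≥0∞ := ∫⁻ t, (NT F b t) ^ p ∂μ with hYdef
  rw [e1] at hmain
  have h5 : ENNReal.ofReal (2 ^ (-p)) * X ≤ ENNReal.ofReal (12 * δ) * X +
      ENNReal.ofReal (γ ^ (-p)) * Y := hmain.trans (by gcongr)
  -- to reals
  have hXr : X = ENNReal.ofReal X.toReal := (ENNReal.ofReal_toReal hX).symm
  have hYr : Y = ENNReal.ofReal Y.toReal := (ENNReal.ofReal_toReal htop).symm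
  rw [hXr, hYr] at h5 ⊢
  have h6 : (((2 * 2 ^ p * γ ^ (-p)).toNNReal : ℝ≥0) : ℝ≥0∞) =
      ENNReal.ofReal (2 * 2 ^ p * γ ^ (-p)) := rfl
  rw [h6, ← ENNReal.ofReal_mul (by positivity)]
  rw [← ENNReal.ofReal_mul (by positivity), ← ENNReal.ofReal_mul (by positivity),
    ← ENNReal.ofReal_mul (by positivity), ← ENNReal.ofReal_add (by positivity) (by positivity)] at h5
  have h7 := (ENNReal.ofReal_le_ofReal_iff (by positivity)).1 h5
  apply ENNReal.ofReal_le_ofReal
  have h8 : (2 : ℝ) ^ (-p) * (2 : ℝ) ^ p = 1 := by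
    rw [← Real.rpow_add (by norm_num)]; simp
  have h9 : (2 : ℝ) ^ (-p) / 2 * X.toReal ≤ γ ^ (-p) * Y.toReal := by
    rw [hδ] at h7; linarith
  have hp2 : (0 : ℝ) < 2 ^ p := by positivity
  calc X.toReal = 2 * 2 ^ p * ((2 : ℝ) ^ (-p) / 2 * X.toReal) := by
        have : 2 * (2 : ℝ) ^ p * ((2 : ℝ) ^ (-p) / 2 * X.toReal) =
          ((2 : ℝ) ^ (-p) * (2 : ℝ) ^ p) * X.toReal := by ring
        rw [this, h8, one_mul]
    _ ≤ 2 * 2 ^ p * (γ ^ (-p) * Y.toReal) := by gcongr
    _ = _ := by ring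

end Pool.Agent.Work.MP_055a27_an
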