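import Pool.Agent.Work.MP_055a27_an.Cones

/-!
# The local part of the good lambda inequality
-/

open MeasureTheory Set Filter Topology Complex Metric
open scoped ENNReal NNReal

namespace Pool.Agent.Work.MP_055a27_an

/-- The set of vertices whose cone of aperture `b` carries the bound `σ`. -/
def vset (F : ℂ → ℂ) (b σ : ℝ) : Set ℝ :=
  {t | ∀ z y : ℝ, 0 < y → |t - z| ≤ b * y → |(F ((z : ℂ) + (y : ℂ) * I)).re| ≤ σ}

lemma isClosed_vset {F : ℂ → ℂ} (hF : DifferentiableOn ℂ F uhp) (b σ : ℝ) :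
    IsClosed (vset F b σ) := by
  have h : vset F b σ = ⋂ (s : ℝ) (y : ℝ) (_ : 0 < y ∧ |s| ≤ b * y),
      {t : ℝ | |(F (((t - s : ℝ) : ℂ) + (y : ℂ) * I)).re| ≤ σ} := by
    ext t
    simp only [mem_iInter]
    constructor
    · intro ht s y hy
      apply ht (t - s) y hy.1
      rw [sub_sub_cancel]; exact hy.2
    · intro ht z y hy hz
      have h2 : |(F (((t - (t - z) : ℝ) : ℂ) + (y : ℂ) * I)).re| ≤ σ := ht (t - z) y ⟨hy, hz⟩
      rwa [sub_sub_cancel] at h2
  rw [h]
  apply isClosed_iInter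
  intro s
  apply isClosed_iInter
  intro y
  apply isClosed_iInter
  intro hy
  have hc : Continuous (fun t : ℝ => |(F (((t - s : ℝ) : ℂ) + (y : ℂ) * I)).re|) := by
    apply continuous_abs.comp
    apply Complex.continuous_re.comp
    apply hF.continuousOn.comp_continuous (f := fun t : ℝ => ((t - s : ℝ) : ℂ) + (y : ℂ) * I)
    · fun_prop
    · intro t
      exact mem_uhp hy.1
  exact isClosed_le hc continuous_const

/-- The gradient at the points of a cone whose vertex is in `vset`. -/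
lemma vset_grad {F : ℂ → ℂ} (hF : DifferentiableOn ℂ F uhp) {lam b σ : ℝ} (hlam : 0 < lam)
    (hlb : lam < b) {t : ℝ} (ht : t ∈ vset F b σ) {q : ℝ × ℝ} (hq : q ∈ cone lam t) :
    gsq F q ≤ (4 * σ * ((1 + b) / (b - lam))) ^ 2 / q.2 ^ 2 := by
  unfold gsq
  have h := cone_grad_bound hF hlam hlb (E := {t}) (σ := σ) (z := q.1) (y := q.2) ?_ hq.2 ?_
  · rw [← div_pow]
    gcongr
  · intro z y hy hz
    rw [infDist_singleton, Real.dist_eq, abs_sub_comm] at hz
    exact ht z y hy hz.le
  · rw [infDist_singleton, Real.dist_eq, abs_sub_comm]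
    exact hq.1

lemma lint_inv_sq {r A : ℝ} (hr : 0 < r) (hA : 0 ≤ A) :
    ∫⁻ y in Ioi (0 : ℝ), (Ici r).indicator (fun y => ENNReal.ofReal (A / y ^ 2)) y
      ≤ ENNReal.ofReal (A / r) := by
  calc ∫⁻ y in Ioi (0 : ℝ), (Ici r).indicator (fun y => ENNReal.ofReal (A / y ^ 2)) y
      ≤ ∫⁻ y, (Ici r).indicator (fun y => ENNReal.ofReal (A / y ^ 2)) y :=
        setLIntegral_le_lintegral _ _
    _ = ∫⁻ y in Ioi r, ENNReal.ofReal (A / y ^ 2) := by
        rw [lintegral_indicator measurableSet_Ici]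
        exact setLIntegral_congr Ioi_ae_eq_Ici.symm
    _ = ENNReal.ofReal (∫ y in Ioi r, A / y ^ 2) := by
        rw [ofReal_integral_eq_lintegral_ofReal]
        · have h := (integrableOn_Ioi_rpow_of_lt (a := -2) (by norm_num) hr).const_mul A
          apply h.congr
          filter_upwards [self_mem_ae_restrict measurableSet_Ioi] with y hy
          have hy0 : 0 < y := hr.trans hy
          rw [Real.rpow_neg hy0.le, div_eq_mul_inv]
          norm_num
        · filter_upwards with y
          positivity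
    _ = ENNReal.ofReal (A / r) := by
        congr 1
        have h : ∫ y in Ioi r, A / y ^ 2 = ∫ y in Ioi r, A * y ^ (-2 : ℝ) := by
          apply setIntegral_congr_fun measurableSet_Ioi
          intro y hy
          have hy0 : 0 < y := hr.trans hy
          simp only
          rw [Real.rpow_neg hy0.le, div_eq_mul_inv]
          norm_num
        rw [h, integral_const_mul, integral_Ioi_rpow_of_lt (by norm_num) hr]
        norm_num
        rw [Real.rpow_neg hr.le, Real.rpow_one]
        ring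

lemma far_bound {F : ℂ → ℂ} (hF : DifferentiableOn ℂ F uhp) {lam b σ r : ℝ} (hlam : 0 < lam)
    (hlb : lam < b) (hr : 0 < r) {t x' : ℝ} (ht : t ∈ vset F b σ) :
    ∫⁻ q in (cone lam t \ cone lam x') ∩ {q | r ≤ q.2}, ENNReal.ofReal (gsq F q) ≤
      ENNReal.ofReal (|t - x'| * ((4 * σ * ((1 + b) / (b - lam))) ^ 2 / r)) := by
  set A : ℝ := (4 * σ * ((1 + b) / (b - lam))) ^ 2 with hA
  set G : ℝ → ℝ≥0∞ := (Ici r).indicator (fun y => ENNReal.ofReal (A / y ^ 2)) with hG
  have hGm : Measurable G := by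
    apply Measurable.indicator _ measurableSet_Ici
    fun_prop
  have m2 : MeasurableSet {q : ℝ × ℝ | r ≤ q.2} := measurableSet_le measurable_const (by fun_prop)
  have hm : MeasurableSet (cone lam t \ cone lam x') :=
    (measurableSet_cone lam t).diff (measurableSet_cone lam x')
  calc ∫⁻ q in (cone lam t \ cone lam x') ∩ {q | r ≤ q.2}, ENNReal.ofReal (gsq F q)
      ≤ ∫⁻ q in (cone lam t \ cone lam x') ∩ {q | r ≤ q.2}, G q.2 := by
        apply setLIntegral_mono' (hm.inter m2)
        rintro q ⟨⟨hq1, -⟩, hq2⟩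
        rw [hG, indicator_of_mem (show q.2 ∈ Ici r from hq2)]
        exact ENNReal.ofReal_le_ofReal (vset_grad hF hlam hlb ht hq1)
    _ ≤ ∫⁻ q in cone lam t \ cone lam x', G q.2 := lintegral_mono_set inter_subset_left
    _ ≤ ENNReal.ofReal |t - x'| * ∫⁻ y in Ioi 0, G y := diff_cone hGm
    _ ≤ ENNReal.ofReal |t - x'| * ENNReal.ofReal (A / r) := by
        gcongr
        exact lint_inv_sq hr (by positivity)
    _ = ENNReal.ofReal (|t - x'| * (A / r)) := (ENNReal.ofReal_mul (abs_nonneg _)).symm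

lemma continuous_AK {F : ℂ → ℂ} (hF : DifferentiableOn ℂ F uhp) (lam : ℝ) (m : ℕ) :
    Continuous (AK F lam m) := by
  obtain ⟨M, hM0, hM⟩ := AK_lip hF lam m
  obtain ⟨B, hB⟩ := AK_lt_top hF lam m
  have hfin : ∀ x, AK F lam m x ≠ ∞ := fun x => ne_top_of_le_ne_top ENNReal.ofReal_ne_top (hB x)
  have hcont : Continuous (fun x => (AK F lam m x).toReal) := by
    have hlip : LipschitzWith M.toNNReal (fun x => (AK F lam m x).toReal) := by
      apply LipschitzWith.of_le_add_mul
      intro x x'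
      have h := ENNReal.toReal_mono (ENNReal.add_ne_top.2 ⟨hfin x', ENNReal.ofReal_ne_top⟩)
        (hM x x')
      rw [ENNReal.toReal_add (hfin x') ENNReal.ofReal_ne_top,
        ENNReal.toReal_ofReal (by positivity)] at h
      rw [Real.coe_toNNReal _ hM0, Real.dist_eq]
      exact h
    exact hlip.continuous
  have : AK F lam m = fun x => ENNReal.ofReal (AK F lam m x).toReal := by
    funext x
    rw [ENNReal.ofReal_toReal (hfin x)]
  rw [this]
  exact ENNReal.continuous_ofReal.comp hcont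

/-- The local estimate. -/
theorem local_est {lam b : ℝ} (hlam : 0 < lam) (hlb : lam < b) : ∃ K c1 : ℝ, 0 < K ∧ 0 < c1 ∧
    ∀ F : ℂ → ℂ, DifferentiableOn ℂ F uhp → ∀ (m : ℕ) (x x' r s γ : ℝ), 0 < r → 0 < s → 0 < γ →
      γ ≤ c1 → |x - x'| ≤ 10 * r → AK F lam m x' ≤ ENNReal.ofReal (s ^ 2) →
      volume ({t | ENNReal.ofReal (4 * s ^ 2) < AK F lam m t} ∩ vset F b (γ * s) ∩
        Icc (x - r) (x + r)) ≤ ENNReal.ofReal (K * γ ^ 2 * r) := by
  obtain ⟨K, hK, hsaw⟩ := saw hlam hlb
  have hb : 0 < b := hlam.trans hlb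
  have hbl : 0 < b - lam := by linarith
  set C1 : ℝ := 4 * ((1 + b) / (b - lam)) with hC1
  have hC1pos : 0 < C1 := by positivity
  refine ⟨K, 1 / (4 * C1), hK, by positivity, ?_⟩
  intro F hF m x x' r s γ hr hs hγ hγc hxx' hAK
  have hγC : γ * C1 ≤ 1 / 4 := by
    calc γ * C1 ≤ 1 / (4 * C1) * C1 := by gcongr
      _ = 1 / 4 := by field_simp
  set E : Set ℝ := {t | ENNReal.ofReal (4 * s ^ 2) < AK F lam m t} ∩ vset F b (γ * s) ∩
        Icc (x - r) (x + r) with hE
  -- the near part is large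
  have hnear : ∀ t ∈ E, ENNReal.ofReal (2 * s ^ 2) ≤
      ∫⁻ q in cone lam t ∩ {q | q.2 < r}, ENNReal.ofReal (gsq F q) := by
    rintro t ⟨⟨ht1, ht2⟩, ht3⟩
    have ht1' : ENNReal.ofReal (4 * s ^ 2) < AK F lam m t := ht1
    by_contra hcon
    push Not at hcon
    have hdist : |t - x'| ≤ 11 * r := by
      have h1 : |t - x| ≤ r := by rw [abs_le]; constructor <;> linarith [ht3.1, ht3.2]
      calc |t - x'| = |(t - x) + (x - x')| := by ring_nf
        _ ≤ |t - x| + |x - x'| := abs_add_le _ _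
        _ ≤ 11 * r := by linarith
    have hsub : cone lam t ⊆ (cone lam t ∩ {q | q.2 < r}) ∪ (cone lam x' ∪
        ((cone lam t \ cone lam x') ∩ {q | r ≤ q.2})) := by
      intro q hq
      by_cases h1 : q.2 < r
      · left; exact ⟨hq, h1⟩
      · right
        by_cases h2 : q ∈ cone lam x'
        · left; exact h2
        · right; exact ⟨⟨hq, h2⟩, not_lt.1 h1⟩
    have hbound : AK F lam m t ≤ ENNReal.ofReal (2 * s ^ 2) + (ENNReal.ofReal (s ^ 2) +
        ENNReal.ofReal (s ^ 2)) := by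
      calc AK F lam m t = ∫⁻ q in cone lam t, gK F m q := rfl
        _ ≤ ∫⁻ q in (cone lam t ∩ {q | q.2 < r}) ∪ (cone lam x' ∪
            ((cone lam t \ cone lam x') ∩ {q | r ≤ q.2})), gK F m q := lintegral_mono_set hsub
        _ ≤ (∫⁻ q in cone lam t ∩ {q | q.2 < r}, gK F m q) + ∫⁻ q in cone lam x' ∪
            ((cone lam t \ cone lam x') ∩ {q | r ≤ q.2}), gK F m q := lintegral_union_le _ _ _
        _ ≤ (∫⁻ q in cone lam t ∩ {q | q.2 < r}, gK F m q) + ((∫⁻ q in cone lam x', gK F m q) +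
            ∫⁻ q in (cone lam t \ cone lam x') ∩ {q | r ≤ q.2}, gK F m q) := by
            gcongr
            exact lintegral_union_le _ _ _
        _ ≤ ENNReal.ofReal (2 * s ^ 2) + (ENNReal.ofReal (s ^ 2) + ENNReal.ofReal (s ^ 2)) := by
            gcongr
            · refine (lintegral_mono fun q => gK_le F m q).trans hcon.le
            · exact hAK
            · refine (lintegral_mono fun q => gK_le F m q).trans
                ((far_bound hF hlam hlb hr ht2).trans (ENNReal.ofReal_le_ofReal ?_))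
              calc |t - x'| * ((4 * (γ * s) * ((1 + b) / (b - lam))) ^ 2 / r)
                  = |t - x'| * ((γ * C1) ^ 2 * s ^ 2) / r := by rw [hC1]; ring
                _ ≤ 11 * r * ((1 / 4) ^ 2 * s ^ 2) / r := by gcongr
                _ = 11 / 16 * s ^ 2 := by field_simp; ring
                _ ≤ s ^ 2 := by nlinarith [sq_nonneg s]
    rw [← ENNReal.ofReal_add (by positivity) (by positivity),
      ← ENNReal.ofReal_add (by positivity) (by positivity)] at hbound
    have h3 : 2 * s ^ 2 + (s ^ 2 + s ^ 2) = 4 * s ^ 2 := by ring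
    rw [h3] at hbound
    exact absurd ht1' (not_lt.2 hbound)
  -- apply the sawtooth estimate
  have hs2 := hsaw F hF E x r r (γ * s) hr hr (by positivity) inter_subset_right (by
    rintro z y hy ⟨t, ht, hty⟩
    exact ht.1.2 z y hy hty)
  have hEm : MeasurableSet E := by
    refine (MeasurableSet.inter ?_ (isClosed_vset hF b _).measurableSet).inter measurableSet_Icc
    exact measurableSet_lt measurable_const (continuous_AK hF lam m).measurable
  have h4 : ENNReal.ofReal (2 * s ^ 2) * volume E ≤ ENNReal.ofReal (K * (γ * s) ^ 2 * (r + r)) := by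
    calc ENNReal.ofReal (2 * s ^ 2) * volume E = ∫⁻ t in E, ENNReal.ofReal (2 * s ^ 2) := by
          rw [setLIntegral_const]
      _ ≤ ∫⁻ t in E, ∫⁻ q in cone lam t ∩ {q | q.2 < r}, ENNReal.ofReal (gsq F q) :=
          setLIntegral_mono' hEm hnear
      _ ≤ _ := hs2
  have h5 : K * (γ * s) ^ 2 * (r + r) = 2 * s ^ 2 * (K * γ ^ 2 * r) := by ring
  rw [h5, ENNReal.ofReal_mul (by positivity : (0:ℝ) ≤ 2 * s ^ 2)] at h4
  have h6 : ENNReal.ofReal (2 * s ^ 2) ≠ 0 := by
    rw [Ne, ENNReal.ofReal_eq_zero, not_le]; positivity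
  exact (ENNReal.mul_le_mul_iff_right h6 ENNReal.ofReal_ne_top).1 h4

end Pool.Agent.Work.MP_055a27_an
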