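import Pool.Agent.Work.MP_055a27_an.Bd.B01

/-!
# Comparison of truncated area integrals at different vertices
-/

open MeasureTheory Set Filter Topology Complex Metric
open scoped ENNReal NNReal

namespace Pool.Agent.Work.MP_055a27_an

lemma measurableSet_cone (lam x : ℝ) : MeasurableSet (cone lam x) := by
  have m1 : MeasurableSet {q : ℝ × ℝ | |x - q.1| ≤ lam * q.2} :=
    measurableSet_le (by fun_prop) (by fun_prop)
  have m2 : MeasurableSet {q : ℝ × ℝ | 0 < q.2} :=
    measurableSet_lt measurable_const (by fun_prop)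
  exact m1.inter m2

/-- Integral over the difference of two cones of a function of the height. -/
lemma diff_cone {lam x x' : ℝ} {G : ℝ → ℝ≥0∞} (hG : Measurable G) :
    ∫⁻ q in cone lam x \ cone lam x', G q.2 ≤ ENNReal.ofReal |x - x'| * ∫⁻ y in Ioi 0, G y := by
  set δ : ℝ := |x - x'| with hδ
  -- lower edge
  set φ : ℝ → ℝ := if x ≤ x' then (fun y => x - lam * y) else (fun y => x' + lam * y) with hφ
  have hφm : Measurable φ := by
    rw [hφ]; split_ifs <;> fun_prop
  have hsub : ∀ z y : ℝ, (z, y) ∈ cone lam x \ cone lam x' → z ∈ Icc (φ y) (φ y + δ) ∧ 0 < y := by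
    rintro z y ⟨⟨h1, h2⟩, h3⟩
    simp only at h1 h2
    refine ⟨?_, h2⟩
    have h4 : ¬ (|x' - z| ≤ lam * y) := fun h => h3 ⟨h, h2⟩
    push Not at h4
    have h5 := abs_le.1 h1
    by_cases hc : x ≤ x'
    · have e : φ y = x - lam * y := by simp [hφ, hc]
      have hd : δ = x' - x := by rw [hδ, abs_sub_comm, abs_of_nonneg (by linarith)]
      rw [e, hd]
      rcases lt_abs.1 h4 with h | h
      · exact ⟨by linarith, by linarith⟩
      · exfalso; linarith
    · have e : φ y = x' + lam * y := by simp [hφ, hc]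
      push Not at hc
      have hd : δ = x - x' := by rw [hδ, abs_of_pos (by linarith)]
      rw [e, hd]
      rcases lt_abs.1 h4 with h | h
      · exfalso; linarith
      · exact ⟨by linarith, by linarith⟩
  have hm : MeasurableSet (cone lam x \ cone lam x') :=
    (measurableSet_cone lam x).diff (measurableSet_cone lam x')
  have hGq : Measurable (fun q : ℝ × ℝ => G q.2) := hG.comp measurable_snd
  have hGi : Measurable ((cone lam x \ cone lam x').indicator (fun q : ℝ × ℝ => G q.2)) :=
    hGq.indicator hm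
  rw [← lintegral_indicator hm, Measure.volume_eq_prod, lintegral_prod_symm _ hGi.aemeasurable]
  rw [← lintegral_indicator measurableSet_Ioi, ← lintegral_const_mul' _ _ ENNReal.ofReal_ne_top]
  apply lintegral_mono
  intro y
  simp only
  by_cases hy : 0 < y
  · rw [indicator_of_mem (show y ∈ Ioi 0 from hy)]
    calc ∫⁻ z, (cone lam x \ cone lam x').indicator (fun q => G q.2) (z, y)
        ≤ ∫⁻ z, (Icc (φ y) (φ y + δ)).indicator (fun _ => G y) z := by
          apply lintegral_mono
          intro z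
          simp only
          by_cases hz : (z, y) ∈ cone lam x \ cone lam x'
          · rw [indicator_of_mem hz, indicator_of_mem (hsub z y hz).1]
          · rw [indicator_of_notMem hz]; exact bot_le
      _ = ENNReal.ofReal δ * G y := by
          rw [lintegral_indicator_const measurableSet_Icc, Real.volume_Icc, mul_comm]
          congr 2
          ring
  · rw [indicator_of_notMem (show y ∉ Ioi 0 from hy), mul_zero]
    apply le_of_eq
    have : ∀ z, (cone lam x \ cone lam x').indicator (fun q : ℝ × ℝ => G q.2) (z, y) = 0 := by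
      intro z
      apply indicator_of_notMem
      intro h
      exact hy (hsub z y h).2
    simp [this]

/-- The compact truncation region. -/
def Kset (m : ℕ) : Set (ℝ × ℝ) := {q | 1 / ((m : ℝ) + 1) ≤ q.2 ∧ q.2 ≤ m + 1 ∧ |q.1| ≤ m + 1}

lemma measurableSet_Kset (m : ℕ) : MeasurableSet (Kset m) := by
  have m1 : MeasurableSet {q : ℝ × ℝ | 1 / ((m : ℝ) + 1) ≤ q.2} :=
    measurableSet_le measurable_const (by fun_prop)
  have m2 : MeasurableSet {q : ℝ × ℝ | q.2 ≤ (m : ℝ) + 1} :=
    measurableSet_le (by fun_prop) measurable_const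
  have m3 : MeasurableSet {q : ℝ × ℝ | |q.1| ≤ (m : ℝ) + 1} :=
    measurableSet_le (by fun_prop) measurable_const
  exact m1.inter (m2.inter m3)

lemma Kset_mono : Monotone Kset := by
  intro m n hmn q hq
  have h : (m : ℝ) ≤ n := by exact_mod_cast hmn
  refine ⟨le_trans ?_ hq.1, hq.2.1.trans (by linarith), hq.2.2.trans (by linarith)⟩
  gcongr

lemma iUnion_Kset : (⋃ m, Kset m) = {q : ℝ × ℝ | 0 < q.2} := by
  ext q
  simp only [mem_iUnion]
  constructor
  · rintro ⟨m, hm⟩
    have : (0 : ℝ) < 1 / ((m : ℝ) + 1) := by positivity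
    exact lt_of_lt_of_le this hm.1
  · intro hq
    have hq0 : 0 < q.2 := hq
    obtain ⟨a, ha⟩ := exists_nat_one_div_lt hq0
    obtain ⟨b, hb⟩ := exists_nat_ge q.2
    obtain ⟨c, hc⟩ := exists_nat_ge |q.1|
    refine ⟨max a (max b c), ?_, ?_, ?_⟩
    · refine le_trans ?_ ha.le
      have : (a : ℝ) ≤ (max a (max b c) : ℕ) := by exact_mod_cast le_max_left _ _
      gcongr
    · have : (b : ℝ) ≤ (max a (max b c) : ℕ) := by
        exact_mod_cast (le_max_left b c).trans (le_max_right _ _)
      linarith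
    · have : (c : ℝ) ≤ (max a (max b c) : ℕ) := by
        exact_mod_cast (le_max_right b c).trans (le_max_right _ _)
      linarith

/-- The truncated squared gradient. -/
noncomputable def gK (F : ℂ → ℂ) (m : ℕ) (q : ℝ × ℝ) : ℝ≥0∞ :=
  (Kset m).indicator (fun q => ENNReal.ofReal (gsq F q)) q

lemma measurable_gK (F : ℂ → ℂ) (m : ℕ) : Measurable (gK F m) :=
  ((measurable_gsq F).ennreal_ofReal).indicator (measurableSet_Kset m)

lemma gK_le (F : ℂ → ℂ) (m : ℕ) (q : ℝ × ℝ) : gK F m q ≤ ENNReal.ofReal (gsq F q) := by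
  unfold gK
  by_cases h : q ∈ Kset m
  · rw [indicator_of_mem h]
  · rw [indicator_of_notMem h]; exact bot_le

/-- The truncated area integral. -/
noncomputable def AK (F : ℂ → ℂ) (lam : ℝ) (m : ℕ) (x : ℝ) : ℝ≥0∞ := ∫⁻ q in cone lam x, gK F m q

lemma exists_gK_bound {F : ℂ → ℂ} (hF : DifferentiableOn ℂ F uhp) (m : ℕ) :
    ∃ M : ℝ, 0 ≤ M ∧ ∀ q, gK F m q ≤ ENNReal.ofReal M := by
  have hF1 : DifferentiableOn ℂ (deriv F) uhp := hF.deriv isOpen_uhp
  have hcomp : IsCompact (Icc (-((m : ℝ) + 1)) (m + 1) ×ˢ Icc (1 / ((m : ℝ) + 1)) ((m : ℝ) + 1)) :=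
    isCompact_Icc.prod isCompact_Icc
  have hcont : ContinuousOn (gsq F)
      (Icc (-((m : ℝ) + 1)) (m + 1) ×ˢ Icc (1 / ((m : ℝ) + 1)) ((m : ℝ) + 1)) := by
    unfold gsq
    apply ContinuousOn.pow
    apply ContinuousOn.norm
    apply hF1.continuousOn.comp (f := fun q : ℝ × ℝ => (q.1 : ℂ) + (q.2 : ℂ) * I)
    · apply Continuous.continuousOn
      fun_prop
    · intro q hq
      apply mem_uhp
      have : (0 : ℝ) < 1 / ((m : ℝ) + 1) := by positivity
      exact lt_of_lt_of_le this hq.2.1
  obtain ⟨M, hM⟩ := hcomp.exists_bound_of_continuousOn hcont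
  refine ⟨max M 0, le_max_right _ _, fun q => ?_⟩
  unfold gK
  by_cases h : q ∈ Kset m
  · rw [indicator_of_mem h]
    apply ENNReal.ofReal_le_ofReal
    have h1 := abs_le.1 h.2.2
    have h2 := hM q ⟨⟨h1.1, h1.2⟩, ⟨h.1, h.2.1⟩⟩
    rw [Real.norm_eq_abs] at h2
    exact (le_abs_self _).trans (h2.trans (le_max_left _ _))
  · rw [indicator_of_notMem h]; exact bot_le

lemma AK_lip {F : ℂ → ℂ} (hF : DifferentiableOn ℂ F uhp) (lam : ℝ) (m : ℕ) :
    ∃ M : ℝ, 0 ≤ M ∧ ∀ x x' : ℝ, AK F lam m x ≤ AK F lam m x' + ENNReal.ofReal (M * |x - x'|) := by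
  obtain ⟨M, hM0, hM⟩ := exists_gK_bound hF m
  refine ⟨M * (m + 1), by positivity, fun x x' => ?_⟩
  unfold AK
  set G : ℝ → ℝ≥0∞ := (Icc (0 : ℝ) (m + 1)).indicator (fun _ => ENNReal.ofReal M) with hG
  have hGm : Measurable G := measurable_const.indicator measurableSet_Icc
  have hsub : cone lam x ⊆ cone lam x' ∪ (cone lam x \ cone lam x') := by
    intro q hq
    by_cases h : q ∈ cone lam x'
    · left; exact h
    · right; exact ⟨hq, h⟩
  calc ∫⁻ q in cone lam x, gK F m q
      ≤ ∫⁻ q in cone lam x' ∪ (cone lam x \ cone lam x'), gK F m q := lintegral_mono_set hsub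
    _ ≤ (∫⁻ q in cone lam x', gK F m q) + ∫⁻ q in cone lam x \ cone lam x', gK F m q :=
        lintegral_union_le _ _ _
    _ ≤ (∫⁻ q in cone lam x', gK F m q) + ENNReal.ofReal (M * (m + 1) * |x - x'|) := by
        gcongr
        calc ∫⁻ q in cone lam x \ cone lam x', gK F m q
            ≤ ∫⁻ q in cone lam x \ cone lam x', G q.2 := by
              apply lintegral_mono
              intro q
              simp only
              by_cases h : q ∈ Kset m
              · have h0 : (0 : ℝ) ≤ 1 / ((m : ℝ) + 1) := by positivity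
                have h1 : q.2 ∈ Icc (0 : ℝ) (m + 1) := ⟨h0.trans h.1, h.2.1⟩
                rw [hG, indicator_of_mem h1]
                exact hM q
              · unfold gK
                rw [indicator_of_notMem h]; exact bot_le
          _ ≤ ENNReal.ofReal |x - x'| * ∫⁻ y in Ioi 0, G y := diff_cone hGm
          _ ≤ ENNReal.ofReal |x - x'| * ∫⁻ y, G y := by
              gcongr
              exact Measure.restrict_le_self
          _ = ENNReal.ofReal (M * (m + 1) * |x - x'|) := by
              rw [hG, lintegral_indicator_const measurableSet_Icc, Real.volume_Icc,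
                ← ENNReal.ofReal_mul hM0, ← ENNReal.ofReal_mul (abs_nonneg _)]
              congr 1
              ring

lemma AK_lt_top {F : ℂ → ℂ} (hF : DifferentiableOn ℂ F uhp) (lam : ℝ) (m : ℕ) :
    ∃ M : ℝ, ∀ x, AK F lam m x ≤ ENNReal.ofReal M := by
  obtain ⟨M, hM0, hM⟩ := exists_gK_bound hF m
  refine ⟨M * ((2 * (m + 1)) * (m + 1)), fun x => ?_⟩
  unfold AK
  calc ∫⁻ q in cone lam x, gK F m q ≤ ∫⁻ q, gK F m q := setLIntegral_le_lintegral _ _
    _ ≤ ∫⁻ q, (Icc (-((m : ℝ) + 1)) (m + 1) ×ˢ Icc (0 : ℝ) ((m : ℝ) + 1)).indicator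
          (fun _ => ENNReal.ofReal M) q := by
        apply lintegral_mono
        intro q
        simp only
        by_cases h : q ∈ Kset m
        · have h0 : (0 : ℝ) ≤ 1 / ((m : ℝ) + 1) := by positivity
          have h1 := abs_le.1 h.2.2
          rw [indicator_of_mem (show q ∈ Icc (-((m : ℝ) + 1)) (m + 1) ×ˢ Icc (0 : ℝ) ((m : ℝ) + 1)
            from ⟨⟨h1.1, h1.2⟩, ⟨h0.trans h.1, h.2.1⟩⟩)]
          exact hM q
        · unfold gK
          rw [indicator_of_notMem h]; exact bot_le
    _ = ENNReal.ofReal (M * ((2 * (m + 1)) * (m + 1))) := by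
        rw [lintegral_indicator_const (measurableSet_Icc.prod measurableSet_Icc),
          Measure.volume_eq_prod, Measure.prod_prod, Real.volume_Icc, Real.volume_Icc,
          ← ENNReal.ofReal_mul (by linarith [show (0:ℝ) ≤ m from Nat.cast_nonneg m]),
          ← ENNReal.ofReal_mul hM0]
        congr 1
        ring

lemma AK_support {F : ℂ → ℂ} {lam : ℝ} (hlam : 0 < lam) {m : ℕ} {x : ℝ}
    (hx : (1 + lam) * (m + 1) < |x|) : AK F lam m x = 0 := by
  unfold AK
  rw [← lintegral_indicator (measurableSet_cone lam x)]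
  have : ∀ q, (cone lam x).indicator (gK F m) q = 0 := by
    intro q
    by_cases h : q ∈ cone lam x
    · rw [indicator_of_mem h]
      unfold gK
      apply indicator_of_notMem
      intro hq
      have h1 : |x| ≤ |x - q.1| + |q.1| := by
        calc |x| = |(x - q.1) + q.1| := by ring_nf
          _ ≤ _ := abs_add_le _ _
      have h2 := h.1
      have h3 : lam * q.2 ≤ lam * (m + 1) := by gcongr; exact hq.2.1
      have h4 := hq.2.2
      linarith
    · rw [indicator_of_notMem h]
  simp [this]

end Pool.Agent.Work.MP_055a27_an
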