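import Mathlib

/-!
# A smooth cut-off of the function `y`
-/

open Set Filter Topology

namespace Pool.Agent.Work.MP_055a27_an

/-- A twice differentiable function equal to `y` on `[0, T]` and vanishing for `y > 2 T`. -/
structure Cutoff (C T : ℝ) where
  q : ℝ → ℝ
  q1 : ℝ → ℝ
  q2 : ℝ → ℝ
  hq : ∀ y, HasDerivAt q (q1 y) y
  hq1 : ∀ y, HasDerivAt q1 (q2 y) y
  hq2 : Continuous q2
  eq_self : ∀ y, y ≤ T → q y = y
  nonneg : ∀ y, 0 ≤ y → 0 ≤ q y
  le_self : ∀ y, 0 ≤ y → q y ≤ y
  zero : ∀ y, 2 * T < y → q y = 0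
  zero1 : ∀ y, 2 * T < y → q1 y = 0
  zero2 : ∀ y, 2 * T < y → q2 y = 0
  b1 : ∀ y, 0 ≤ y → |q1 y| ≤ C
  b2 : ∀ y, 0 ≤ y → |q2 y| ≤ C / T

lemma exists_cutoff : ∃ C : ℝ, 0 < C ∧ ∀ T : ℝ, 0 < T → Nonempty (Cutoff C T) := by
  set g : ℝ → ℝ := fun s => s * Real.smoothTransition (2 - s) with hg
  have hgs : ContDiff ℝ 2 g := by
    have h1 : ContDiff ℝ 2 (fun s : ℝ => Real.smoothTransition (2 - s)) :=
      (Real.smoothTransition.contDiff (n := 2)).comp (contDiff_const.sub contDiff_id)
    exact contDiff_id.mul h1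
  have hgd : Differentiable ℝ g := hgs.differentiable (by norm_num)
  have hg1s : ContDiff ℝ 1 (deriv g) := by
    have : ContDiff ℝ (1 + 1) g := by norm_num; exact hgs
    exact (contDiff_succ_iff_deriv.1 this).2.2
  have hg1d : Differentiable ℝ (deriv g) := hg1s.differentiable (by norm_num)
  have hg2c : Continuous (deriv (deriv g)) := hg1s.continuous_deriv (by norm_num)
  have hg1c : Continuous (deriv g) := hg1s.continuous
  have hzero : ∀ s : ℝ, 2 < s → g s = 0 := by
    intro s hs
    simp only [hg]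
    rw [Real.smoothTransition.zero_of_nonpos (by linarith), mul_zero]
  have hzero1 : ∀ s : ℝ, 2 < s → deriv g s = 0 := by
    intro s hs
    have : g =ᶠ[𝓝 s] fun _ => 0 := by
      filter_upwards [lt_mem_nhds hs] with t ht
      exact hzero t ht
    rw [this.deriv_eq]
    simp
  have hzero2 : ∀ s : ℝ, 2 < s → deriv (deriv g) s = 0 := by
    intro s hs
    have : deriv g =ᶠ[𝓝 s] fun _ => 0 := by
      filter_upwards [lt_mem_nhds hs] with t ht
      exact hzero1 t ht
    rw [this.deriv_eq]
    simp
  obtain ⟨C1, hC1⟩ := (isCompact_Icc (a := (0 : ℝ)) (b := 3)).exists_bound_of_continuousOn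
    hg1c.continuousOn
  obtain ⟨C2, hC2⟩ := (isCompact_Icc (a := (0 : ℝ)) (b := 3)).exists_bound_of_continuousOn
    hg2c.continuousOn
  refine ⟨max (max C1 C2) 1, lt_of_lt_of_le one_pos (le_max_right _ _), fun T hT => ⟨?_⟩⟩
  have hb1 : ∀ s : ℝ, 0 ≤ s → |deriv g s| ≤ max (max C1 C2) 1 := by
    intro s hs
    by_cases h : s ≤ 3
    · have := hC1 s ⟨hs, h⟩
      rw [Real.norm_eq_abs] at this
      exact this.trans ((le_max_left _ _).trans (le_max_left _ _))
    · push Not at h
      rw [hzero1 s (by linarith), abs_zero]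
      exact le_trans zero_le_one (le_max_right _ _)
  have hb2 : ∀ s : ℝ, 0 ≤ s → |deriv (deriv g) s| ≤ max (max C1 C2) 1 := by
    intro s hs
    by_cases h : s ≤ 3
    · have := hC2 s ⟨hs, h⟩
      rw [Real.norm_eq_abs] at this
      exact this.trans ((le_max_right _ _).trans (le_max_left _ _))
    · push Not at h
      rw [hzero2 s (by linarith), abs_zero]
      exact le_trans zero_le_one (le_max_right _ _)
  have hdiv : ∀ y : ℝ, HasDerivAt (fun y : ℝ => y / T) (1 / T) y := fun y =>
    (hasDerivAt_id y).div_const T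
  refine
    { q := fun y => T * g (y / T)
      q1 := fun y => deriv g (y / T)
      q2 := fun y => deriv (deriv g) (y / T) / T
      hq := ?_, hq1 := ?_, hq2 := ?_, eq_self := ?_, nonneg := ?_, le_self := ?_,
      zero := ?_, zero1 := ?_, zero2 := ?_, b1 := ?_, b2 := ?_ }
  · intro y
    have h1 : HasDerivAt g (deriv g (y / T)) (y / T) := (hgd _).hasDerivAt
    have h2 := (h1.comp y (hdiv y)).const_mul T
    convert! h2 using 1
    field_simp
  · intro y
    have h1 : HasDerivAt (deriv g) (deriv (deriv g) (y / T)) (y / T) := (hg1d _).hasDerivAt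
    have h2 := h1.comp y (hdiv y)
    convert! h2 using 1
    ring
  · exact (hg2c.comp (continuous_id.div_const T)).div_const T
  · intro y hy
    simp only [hg]
    have : y / T ≤ 1 := by rw [div_le_one hT]; exact hy
    rw [Real.smoothTransition.one_of_one_le (by linarith), mul_one]
    field_simp
  · intro y hy
    simp only [hg]
    have := Real.smoothTransition.nonneg (2 - y / T)
    positivity
  · intro y hy
    simp only [hg]
    have h1 := Real.smoothTransition.le_one (2 - y / T)
    have h0 := Real.smoothTransition.nonneg (2 - y / T)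
    calc T * (y / T * Real.smoothTransition (2 - y / T)) ≤ T * (y / T * 1) := by gcongr
      _ = y := by field_simp
  · intro y hy
    rw [hzero _ (by rw [lt_div_iff₀ hT]; exact hy), mul_zero]
  · intro y hy
    exact hzero1 _ (by rw [lt_div_iff₀ hT]; exact hy)
  · intro y hy
    rw [hzero2 _ (by rw [lt_div_iff₀ hT]; exact hy), zero_div]
  · intro y hy
    exact hb1 _ (by positivity)
  · intro y hy
    rw [abs_div, abs_of_pos hT]
    gcongr
    exact hb2 _ (by positivity)

end Pool.Agent.Work.MP_055a27_an
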