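import Pool.Agent.Work.MP_055a27_an.SuperExp
import Pool.Agent.Work.MP_055a27_an.WeakStar

/-!
# The weight `exp (x ^ 2)`
-/

open MeasureTheory Set Filter Topology Complex Metric
open scoped ENNReal NNReal

namespace Pool.Agent.Work.MP_055a27_an

/-- The weight `exp (x ^ 2)`. -/
noncomputable def expW (x : ℝ) : ℝ := Real.exp (x ^ 2)

lemma expW_cont : Continuous expW := by unfold expW; fun_prop

lemma expW_weight : IsWeight expW :=
  ⟨fun _ => (Real.exp_pos _).le, expW_cont.locallyIntegrable⟩

lemma expW_ball {b y : ℝ} (hb : 0 < b) (hy : 0 < y) (z : ℝ) :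
    ENNReal.ofReal ((b * y / 2) * Real.exp ((b * y / 2) ^ 2)) ≤
      ∫⁻ x in Icc (z - b * y) (z + b * y), ENNReal.ofReal (expW x) := by
  have hby : 0 < b * y := by positivity
  have key : ∀ a c : ℝ, c - a = b * y / 2 → Icc a c ⊆ Icc (z - b * y) (z + b * y) →
      (∀ x ∈ Icc a c, (b * y / 2) ^ 2 ≤ x ^ 2) →
      ENNReal.ofReal ((b * y / 2) * Real.exp ((b * y / 2) ^ 2)) ≤
      ∫⁻ x in Icc (z - b * y) (z + b * y), ENNReal.ofReal (expW x) := by
    intro a c hac hsub hx
    calc ENNReal.ofReal ((b * y / 2) * Real.exp ((b * y / 2) ^ 2))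
        = ∫⁻ x in Icc a c, ENNReal.ofReal (Real.exp ((b * y / 2) ^ 2)) := by
          rw [setLIntegral_const, Real.volume_Icc, hac, ← ENNReal.ofReal_mul (by positivity),
            mul_comm]
      _ ≤ ∫⁻ x in Icc a c, ENNReal.ofReal (expW x) := by
          apply setLIntegral_mono' measurableSet_Icc
          intro x hx'
          apply ENNReal.ofReal_le_ofReal
          exact Real.exp_le_exp.2 (hx x hx')
      _ ≤ _ := lintegral_mono_set hsub
  rcases le_total 0 z with hz | hz
  · apply key (z + b * y / 2) (z + b * y) (by ring)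
    · apply Icc_subset_Icc <;> linarith
    · intro x hx
      have := hx.1
      apply pow_le_pow_left₀ (by positivity)
      linarith
  · apply key (z - b * y) (z - b * y / 2) (by ring)
    · apply Icc_subset_Icc <;> linarith
    · intro x hx
      have := hx.2
      rw [← neg_sq x]
      apply pow_le_pow_left₀ (by positivity)
      linarith

/-- Finiteness of the right side of `(⋆)` bounds the harmonic function. -/
lemma poisson_bound {b p : ℝ} (hb : 0 < b) (hp : 0 < p) {f : ℝ → ℝ}
    (hK : ∫⁻ x, (ntMax b f x) ^ p * ENNReal.ofReal (expW x) ≠ ∞) {η : ℝ} (hη : 0 < η) :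
    ∃ C c : ℝ, 0 < C ∧ 0 < c ∧ ∀ z y : ℝ, η ≤ y → |poisson f z y| ≤ C * Real.exp (-(c * y ^ 2)) := by
  set K : ℝ := (∫⁻ x, (ntMax b f x) ^ p * ENNReal.ofReal (expW x)).toReal with hKdef
  have hK0 : 0 ≤ K := ENNReal.toReal_nonneg
  refine ⟨((K + 1) * (2 / (b * η))) ^ (1 / p), b ^ 2 / (4 * p), by positivity, by positivity, ?_⟩
  intro z y hy
  have hy0 : 0 < y := hη.trans_le hy
  have h1 : (ENNReal.ofReal |poisson f z y|) ^ p *
      ENNReal.ofReal ((b * y / 2) * Real.exp ((b * y / 2) ^ 2)) ≤ ENNReal.ofReal K := by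
    calc (ENNReal.ofReal |poisson f z y|) ^ p *
          ENNReal.ofReal ((b * y / 2) * Real.exp ((b * y / 2) ^ 2))
        ≤ (ENNReal.ofReal |poisson f z y|) ^ p *
          ∫⁻ x in Icc (z - b * y) (z + b * y), ENNReal.ofReal (expW x) := by
          gcongr
          exact expW_ball hb hy0 z
      _ = ∫⁻ x in Icc (z - b * y) (z + b * y), (ENNReal.ofReal |poisson f z y|) ^ p *
          ENNReal.ofReal (expW x) := by
          rw [lintegral_const_mul _ (by exact expW_cont.measurable.ennreal_ofReal)]
      _ ≤ ∫⁻ x in Icc (z - b * y) (z + b * y), (ntMax b f x) ^ p * ENNReal.ofReal (expW x) := by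
          apply setLIntegral_mono' measurableSet_Icc
          intro x hx
          gcongr
          unfold ntMax
          have hxz : |x - z| ≤ b * y := by rw [abs_le]; constructor <;> linarith [hx.1, hx.2]
          refine le_trans ?_ (le_iSup₂_of_le (x - z) y (le_iSup_of_le ⟨hy0, hxz⟩ le_rfl))
          rw [sub_sub_cancel]
      _ ≤ ∫⁻ x, (ntMax b f x) ^ p * ENNReal.ofReal (expW x) := setLIntegral_le_lintegral _ _
      _ = ENNReal.ofReal K := (ENNReal.ofReal_toReal hK).symm
  rw [ENNReal.ofReal_rpow_of_nonneg (abs_nonneg _) hp.le, ← ENNReal.ofReal_mul (by positivity)] at h1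
  have h2 := (ENNReal.ofReal_le_ofReal_iff hK0).1 h1
  have h3 : |poisson f z y| ^ p ≤ (K + 1) * (2 / (b * η)) * Real.exp (-(b * y / 2) ^ 2) := by
    have e : Real.exp (-(b * y / 2) ^ 2) * Real.exp ((b * y / 2) ^ 2) = 1 := by
      rw [← Real.exp_add]; simp
    have h4 : |poisson f z y| ^ p * (b * η / 2) ≤ (K + 1) * Real.exp (-(b * y / 2) ^ 2) := by
      calc |poisson f z y| ^ p * (b * η / 2)
          ≤ |poisson f z y| ^ p * (b * y / 2) := by gcongr
        _ = (|poisson f z y| ^ p * ((b * y / 2) * Real.exp ((b * y / 2) ^ 2))) *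
            Real.exp (-(b * y / 2) ^ 2) := by
            calc _ = |poisson f z y| ^ p * (b * y / 2) *
                  (Real.exp (-(b * y / 2) ^ 2) * Real.exp ((b * y / 2) ^ 2)) := by
                  rw [e, mul_one]
              _ = _ := by ring
        _ ≤ K * Real.exp (-(b * y / 2) ^ 2) := by gcongr
        _ ≤ (K + 1) * Real.exp (-(b * y / 2) ^ 2) := by gcongr; linarith
    calc |poisson f z y| ^ p = (|poisson f z y| ^ p * (b * η / 2)) * (2 / (b * η)) := by
          field_simp
      _ ≤ ((K + 1) * Real.exp (-(b * y / 2) ^ 2)) * (2 / (b * η)) := by gcongr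
      _ = _ := by ring
  calc |poisson f z y| = (|poisson f z y| ^ p) ^ (1 / p) := by
        rw [← Real.rpow_mul (abs_nonneg _), mul_one_div_cancel hp.ne', Real.rpow_one]
    _ ≤ ((K + 1) * (2 / (b * η)) * Real.exp (-(b * y / 2) ^ 2)) ^ (1 / p) := by
        gcongr
    _ = ((K + 1) * (2 / (b * η))) ^ (1 / p) * Real.exp (-(b ^ 2 / (4 * p) * y ^ 2)) := by
        rw [Real.mul_rpow (by positivity) (Real.exp_pos _).le, ← Real.exp_mul]
        congr 2
        field_simp
        ring

theorem expW_star {lam b p : ℝ} (hb : 0 < b) (hp : 0 < p) : Star lam b p expW := by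
  refine ⟨1, fun f hf => ?_⟩
  by_cases hK : ∫⁻ x, (ntMax b f x) ^ p * ENNReal.ofReal (expW x) = ∞
  · rw [hK]; simp
  · have hz : ∀ w : ℂ, 0 < w.im → deriv (schw f) w = 0 := by
      apply superexp_zero (schw_diff hf)
      intro η hη
      obtain ⟨C, c, hC, hc, h⟩ := poisson_bound hb hp hK hη
      refine ⟨C, c, hC, hc, fun w hw => ?_⟩
      have h1 := h w.re w.im hw
      rw [poisson_eq_re hf (hη.trans_le hw), Complex.re_add_im] at h1
      exact h1
    have hS : ∀ x, areaFn lam f x = 0 := by
      intro x
      rw [areaFn_eq hf]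
      have : ∫⁻ q in cone lam x, ENNReal.ofReal (gsq (schw f) q) = 0 := by
        rw [← lintegral_zero (μ := volume.restrict (cone lam x))]
        apply setLIntegral_congr_fun (measurableSet_cone lam x)
        intro q hq
        simp only [gsq]
        rw [hz _ (mem_uhp hq.2)]
        simp
      rw [this]
      exact ENNReal.zero_rpow_of_pos (by norm_num)
    simp only [hS, ENNReal.zero_rpow_of_pos hp, zero_mul, lintegral_zero]
    exact bot_le

theorem expW_not_AInfty : ¬ AInfty expW := by
  rintro ⟨C, ε, hC, hε, h⟩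
  have key : ∀ R : ℝ, 1 < R → 1 ≤ 3 * C * (1 / R) ^ ε := by
    intro R hR
    have h1 := h 0 R (by linarith) (Icc (R - 1) R) measurableSet_Icc
      (Icc_subset_Icc (by linarith) le_rfl)
    rw [Real.volume_real_Icc_of_le (by linarith)] at h1
    have e3 : (R - (R - 1)) / (R - 0) = 1 / R := by ring
    rw [e3] at h1
    have hint : ∀ a c : ℝ, IntegrableOn expW (Icc a c) :=
      fun a c => expW_cont.continuousOn.integrableOn_Icc
    set X : ℝ := ∫ x in Icc (R - 1) R, expW x with hX
    -- lower bound for X
    have hXlow : 1 / 2 * Real.exp ((R - 1 / 2) ^ 2) ≤ X := by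
      calc 1 / 2 * Real.exp ((R - 1 / 2) ^ 2)
          = ∫ x in Icc (R - 1 / 2) R, Real.exp ((R - 1 / 2) ^ 2) := by
            rw [setIntegral_const, Real.volume_real_Icc_of_le (by linarith), smul_eq_mul]
            ring
        _ ≤ ∫ x in Icc (R - 1 / 2) R, expW x := by
            apply setIntegral_mono_on _ (hint _ _) measurableSet_Icc
            · intro x hx
              apply Real.exp_le_exp.2
              apply pow_le_pow_left₀ (by linarith) hx.1
            · exact integrableOn_const (by simp)
        _ ≤ X := by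
            apply setIntegral_mono_set (hint _ _)
            · filter_upwards with x using (Real.exp_pos _).le
            · exact (Icc_subset_Icc (by linarith) le_rfl).eventuallyLE
    have hYup : ∫ x in Icc 0 (R - 1), expW x ≤ (R - 1) * Real.exp ((R - 1) ^ 2) := by
      calc ∫ x in Icc 0 (R - 1), expW x ≤ ∫ x in Icc 0 (R - 1), Real.exp ((R - 1) ^ 2) := by
            apply setIntegral_mono_on (hint _ _) _ measurableSet_Icc
            · intro x hx
              apply Real.exp_le_exp.2
              apply pow_le_pow_left₀ hx.1 hx.2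
            · exact integrableOn_const (by simp)
        _ = _ := by
            rw [setIntegral_const, Real.volume_real_Icc_of_le (by linarith), smul_eq_mul]
            ring
    have hsum : ∫ x in Icc 0 R, expW x ≤ (∫ x in Icc 0 (R - 1), expW x) + X := by
      have hu : Icc 0 R ⊆ Icc 0 (R - 1) ∪ Icc (R - 1) R := by
        intro x hx
        rcases le_total x (R - 1) with h | h
        · left; exact ⟨hx.1, h⟩
        · right; exact ⟨h, hx.2⟩
      calc ∫ x in Icc 0 R, expW x ≤ ∫ x in Icc 0 (R - 1) ∪ Icc (R - 1) R, expW x := by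
            apply setIntegral_mono_set ((hint _ _).union (hint _ _))
            · filter_upwards with x using (Real.exp_pos _).le
            · exact hu.eventuallyLE
        _ ≤ _ := by
            have hd : Disjoint (Icc 0 (R - 1)) (Ioc (R - 1) R) := by
              rw [Set.disjoint_left]
              intro x hx hx'
              exact absurd hx.2 (not_le.2 hx'.1)
            have he : Icc 0 (R - 1) ∪ Icc (R - 1) R = Icc 0 (R - 1) ∪ Ioc (R - 1) R := by
              ext x
              simp only [mem_union, mem_Icc, mem_Ioc]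
              constructor
              · rintro (h | h)
                · left; exact h
                · rcases h.1.eq_or_lt with h' | h'
                  · left; exact ⟨by linarith, h'.ge⟩
                  · right; exact ⟨h', h.2⟩
              · rintro (h | h)
                · left; exact h
                · right; exact ⟨h.1.le, h.2⟩
            rw [he, setIntegral_union hd measurableSet_Ioc (hint _ _)
              ((hint _ _).mono_set Ioc_subset_Icc_self), ← integral_Icc_eq_integral_Ioc]
    -- compare
    have hcomp : (R - 1) * Real.exp ((R - 1) ^ 2) ≤ 2 * X := by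
      have h4 : (R - 1 / 2) ^ 2 = (R - 1) ^ 2 + (R - 3 / 4) := by ring
      have h5 : R - 1 ≤ Real.exp (R - 3 / 4) := by
        have := Real.add_one_le_exp (R - 3 / 4)
        linarith
      calc (R - 1) * Real.exp ((R - 1) ^ 2) ≤ Real.exp (R - 3 / 4) * Real.exp ((R - 1) ^ 2) := by
            gcongr
        _ = Real.exp ((R - 1 / 2) ^ 2) := by rw [← Real.exp_add, h4]; congr 1; ring
        _ ≤ 2 * X := by linarith
    have hI : ∫ x in Icc 0 R, expW x ≤ 3 * X := by linarith
    have hXpos : 0 < X := lt_of_lt_of_le (by positivity) hXlow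
    have h6 : X ≤ C * (1 / R) ^ ε * (3 * X) := by
      refine h1.trans ?_
      gcongr
    have h7 : 1 * X ≤ (3 * C * (1 / R) ^ ε) * X := by linarith
    exact le_of_mul_le_mul_right h7 hXpos
  have hlim : Tendsto (fun R : ℝ => 3 * C * (1 / R) ^ ε) atTop (𝓝 (3 * C * 0 ^ ε)) := by
    apply Tendsto.const_mul
    apply Tendsto.rpow_const _ (Or.inr hε.le)
    exact tendsto_const_nhds.div_atTop tendsto_id
  rw [Real.zero_rpow hε.ne', mul_zero] at hlim
  have h2 := ge_of_tendsto hlim (by
    filter_upwards [eventually_gt_atTop (1 : ℝ)] with R hR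
    exact key R hR)
  linarith

end Pool.Agent.Work.MP_055a27_an
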