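import Pool.Agent.Work.MP_055a27_an.LocalEst
import Pool.Agent.Work.MP_055a27_an.Bd.B01

/-!
# The good lambda inequality
-/

open MeasureTheory Set Filter Topology Complex Metric
open scoped ENNReal NNReal

namespace Pool.Agent.Work.MP_055a27_an

/-- The weak `A_∞` condition for a measure. -/
def WeakAM (μ : Measure ℝ) (C ε : ℝ) : Prop :=
  ∀ x r : ℝ, 0 < r → ∀ E : Set ℝ, MeasurableSet E → E ⊆ Icc (x - r) (x + r) →
    μ E ≤ ENNReal.ofReal (C * (volume.real E / (2 * r)) ^ ε) * μ (Icc (x - 2 * r) (x + 2 * r))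

theorem good_lambda {lam b : ℝ} (hlam : 0 < lam) (hlb : lam < b) {μ : Measure ℝ} [SFinite μ]
    {C ε : ℝ} (hC : 0 < C) (hε : 0 < ε) (hμ : WeakAM μ C ε) : ∃ K c1 : ℝ, 0 < K ∧ 0 < c1 ∧
    ∀ F : ℂ → ℂ, DifferentiableOn ℂ F uhp → ∀ (m : ℕ) (s γ : ℝ), 0 < s → 0 < γ → γ ≤ c1 →
      μ ({t | ENNReal.ofReal (4 * s ^ 2) < AK F lam m t} ∩ vset F b (γ * s)) ≤
        12 * ENNReal.ofReal (C * (K * γ ^ 2) ^ ε) * μ {t | ENNReal.ofReal (s ^ 2) < AK F lam m t} := by
  obtain ⟨K, c1, hK, hc1, hloc⟩ := local_est hlam hlb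
  refine ⟨K, c1, hK, hc1, ?_⟩
  intro F hF m s γ hs hγ hγc
  have hcont := continuous_AK hF lam m
  have hopen : IsOpen {t | ENNReal.ofReal (s ^ 2) < AK F lam m t} :=
    isOpen_lt continuous_const hcont
  set Ω : Set ℝ := {t | ENNReal.ofReal (s ^ 2) < AK F lam m t} with hΩ
  have hne : (Ωᶜ).Nonempty := by
    refine ⟨(1 + lam) * (m + 1) + 1, ?_⟩
    rw [hΩ, mem_compl_iff]
    intro hmem
    have hmem' : ENNReal.ofReal (s ^ 2) < AK F lam m ((1 + lam) * (m + 1) + 1) := hmem
    rw [AK_support hlam] at hmem'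
    · exact absurd hmem' (by simp)
    · rw [abs_of_pos (by positivity)]; linarith
  have hGm : MeasurableSet ({t | ENNReal.ofReal (4 * s ^ 2) < AK F lam m t} ∩
      vset F b (γ * s)) :=
    (measurableSet_lt measurable_const hcont.measurable).inter
      (isClosed_vset hF b _).measurableSet
  apply averaging hopen hne hGm _ (ρ := fun x => infDist x Ωᶜ / 10) (fun x => rfl)
  · intro x hx
    set r : ℝ := infDist x Ωᶜ / 10 with hr
    have hclosed : IsClosed Ωᶜ := hopen.isClosed_compl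
    have hr0 : 0 < r := by
      have := (hclosed.notMem_iff_infDist_pos hne).1 (fun h : x ∈ Ωᶜ => h hx)
      rw [hr]; positivity
    obtain ⟨x', hx', hxx'⟩ := hclosed.exists_infDist_eq_dist hne x
    have h1 : |x - x'| ≤ 10 * r := by
      rw [← Real.dist_eq, ← hxx', hr]; linarith
    have h2 : AK F lam m x' ≤ ENNReal.ofReal (s ^ 2) := not_lt.1 hx'
    have h3 := hloc F hF m x x' r s γ hr0 hs hγ hγc h1 h2
    set E : Set ℝ := {t | ENNReal.ofReal (4 * s ^ 2) < AK F lam m t} ∩ vset F b (γ * s) ∩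
      Icc (x - r) (x + r) with hE
    have hEm : MeasurableSet E := hGm.inter measurableSet_Icc
    have h4 := hμ x r hr0 E hEm inter_subset_right
    refine h4.trans ?_
    gcongr
    have h5 : volume.real E ≤ K * γ ^ 2 * r := by
      have := ENNReal.toReal_mono ENNReal.ofReal_ne_top h3
      rwa [ENNReal.toReal_ofReal (by positivity)] at this
    rw [div_le_iff₀ (by positivity)]
    nlinarith [show 0 < K * γ ^ 2 * r by positivity]
  · intro t ht
    have h1 : ENNReal.ofReal (4 * s ^ 2) < AK F lam m t := ht.1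
    show ENNReal.ofReal (s ^ 2) < AK F lam m t
    refine lt_of_le_of_lt (ENNReal.ofReal_le_ofReal ?_) h1
    nlinarith [sq_nonneg s]

end Pool.Agent.Work.MP_055a27_an
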