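import Pool.Agent.Work.MP_055a27_an.Harm
import Pool.Agent.Work.MP_055a27_an.Cutoff

/-!
# Green's identity above a Lipschitz graph
-/

open MeasureTheory Set Filter Topology Complex Metric intervalIntegral
open scoped ENNReal NNReal

namespace Pool.Agent.Work.MP_055a27_an

/-- The curve `z ↦ z + i (φ z + t)`. -/
noncomputable def curve (φ : ℝ → ℝ) (t z : ℝ) : ℂ := (z : ℂ) + ((φ z + t : ℝ) : ℂ) * I

lemma curve_mem {φ : ℝ → ℝ} {ε t z : ℝ} (hε : 0 < ε) (hφ : ∀ z, ε ≤ φ z) (ht : 0 ≤ t) :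
    curve φ t z ∈ uhp := by
  unfold curve
  apply mem_uhp
  linarith [hφ z]

lemma continuousOn_curve {φ : ℝ → ℝ} (hc : Continuous φ) {ε : ℝ} (hε : 0 < ε)
    (hφ : ∀ z, ε ≤ φ z) {G : ℂ → ℂ} (hG : DifferentiableOn ℂ G uhp) :
    ContinuousOn (fun q : ℝ × ℝ => G (curve φ q.2 q.1)) {q | 0 ≤ q.2} := by
  apply hG.continuousOn.comp
  · unfold curve
    apply Continuous.continuousOn
    fun_prop
  · intro q hq
    exact curve_mem hε hφ hq

lemma hasDerivAt_curve {φ : ℝ → ℝ} {φ' t z : ℝ} (h : HasDerivAt φ φ' z) :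
    HasDerivAt (curve φ t) (1 + φ' * I) z := by
  unfold curve
  have h1 : HasDerivAt (fun z : ℝ => (z : ℂ)) 1 z := (hasDerivAt_id z).ofReal_comp
  have h2 : HasDerivAt (fun z : ℝ => ((φ z + t : ℝ) : ℂ)) (φ' : ℂ) z :=
    (h.add_const t).ofReal_comp
  exact h1.add (h2.mul_const I)

lemma hasDerivAt_curve_t {φ : ℝ → ℝ} {z t : ℝ} :
    HasDerivAt (fun t : ℝ => curve φ t z) I t := by
  unfold curve
  have h2 : HasDerivAt (fun t : ℝ => ((φ z + t : ℝ) : ℂ)) (1 : ℂ) t := by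
    have := ((hasDerivAt_id t).const_add (φ z)).ofReal_comp
    simpa using this
  have := (h2.mul_const I).const_add (z : ℂ)
  simpa using this

lemma diffAt_of_on {G : ℂ → ℂ} (hG : DifferentiableOn ℂ G uhp) {w : ℂ} (hw : w ∈ uhp) :
    HasDerivAt G (deriv G w) w :=
  (hG.differentiableAt (isOpen_uhp.mem_nhds hw)).hasDerivAt

lemma re_comp_deriv {γ : ℝ → ℂ} {γ' : ℂ} {x : ℝ} {G : ℂ → ℂ} {G' : ℂ}
    (hG : HasDerivAt G G' (γ x)) (hγ : HasDerivAt γ γ' x) :
    HasDerivAt (fun x => (G (γ x)).re) (G' * γ').re x := by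
  have h := hG.comp x hγ
  exact Complex.reCLM.hasFDerivAt.comp_hasDerivAt x h

lemma im_comp_deriv {γ : ℝ → ℂ} {γ' : ℂ} {x : ℝ} {G : ℂ → ℂ} {G' : ℂ}
    (hG : HasDerivAt G G' (γ x)) (hγ : HasDerivAt γ γ' x) :
    HasDerivAt (fun x => (G (γ x)).im) (G' * γ').im x := by
  have h := hG.comp x hγ
  exact Complex.imCLM.hasFDerivAt.comp_hasDerivAt x h

/-- Absolute continuity along the curve. -/
lemma ac_curve {φ : ℝ → ℝ} {L : ℝ≥0} (hL : LipschitzWith L φ) {ε : ℝ} (hε : 0 < ε)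
    (hφ : ∀ z, ε ≤ φ z) {G : ℂ → ℂ} (hG : DifferentiableOn ℂ G uhp) {t : ℝ} (ht : 0 ≤ t)
    {A B : ℝ} (hAB : A ≤ B) :
    AbsolutelyContinuousOnInterval (fun z => (G (curve φ t z)).re) A B := by
  -- a compact convex rectangle
  obtain ⟨M, hM⟩ := (isCompact_Icc (a := A) (b := B)).exists_bound_of_continuousOn
    hL.continuous.continuousOn
  set K : Set ℂ := Icc A B ×ℂ Icc ε (M + t) with hK
  have hKc : IsCompact K := isCompact_Icc.reProdIm isCompact_Icc
  have hKconv : Convex ℝ K := by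
    have h1 := (convex_Icc A B).linear_preimage Complex.reLm
    have h2 := (convex_Icc ε (M + t)).linear_preimage Complex.imLm
    exact h1.inter h2
  have hKsub : K ⊆ uhp := by
    intro w hw
    exact lt_of_lt_of_le hε hw.2.1
  have hG' : DifferentiableOn ℂ (deriv G) uhp := hG.deriv isOpen_uhp
  obtain ⟨M1, hM1⟩ := hKc.exists_bound_of_continuousOn (hG'.continuousOn.mono hKsub)
  have hlipG : LipschitzOnWith M1.toNNReal G K := by
    apply hKconv.lipschitzOnWith_of_nnnorm_deriv_le (𝕜 := ℂ)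
    · intro w hw
      exact hG.differentiableAt (isOpen_uhp.mem_nhds (hKsub hw))
    · intro w hw
      have := hM1 w hw
      rw [← NNReal.coe_le_coe, coe_nnnorm]
      exact this.trans (Real.le_coe_toNNReal M1)
  have hγ : LipschitzWith (1 + L) (curve φ t) := by
    apply LipschitzWith.of_dist_le_mul
    intro z z'
    unfold curve
    rw [dist_eq_norm, Real.dist_eq]
    have h1 : ((z : ℂ) + ((φ z + t : ℝ) : ℂ) * I) - ((z' : ℂ) + ((φ z' + t : ℝ) : ℂ) * I) =
        ((z - z' : ℝ) : ℂ) + ((φ z - φ z' : ℝ) : ℂ) * I := by push_cast; ring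
    rw [h1]
    have h2 := hL.dist_le_mul z z'
    rw [Real.dist_eq, Real.dist_eq] at h2
    calc ‖((z - z' : ℝ) : ℂ) + ((φ z - φ z' : ℝ) : ℂ) * I‖
        ≤ ‖((z - z' : ℝ) : ℂ)‖ + ‖((φ z - φ z' : ℝ) : ℂ) * I‖ := norm_add_le _ _
      _ = |z - z'| + |φ z - φ z'| := by
          rw [norm_mul, norm_I, mul_one, Complex.norm_real, Complex.norm_real, Real.norm_eq_abs,
            Real.norm_eq_abs]
      _ ≤ |z - z'| + L * |z - z'| := by gcongr
      _ = ((1 + L : ℝ≥0) : ℝ) * |z - z'| := by push_cast; ring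
  have hmaps : MapsTo (curve φ t) (uIcc A B) K := by
    intro z hz
    rw [uIcc_of_le hAB] at hz
    have hb := hM z hz
    rw [Real.norm_eq_abs] at hb
    have h1 := (abs_le.1 hb).2
    have h2 := hφ z
    refine ⟨?_, ?_⟩
    · simpa [curve] using hz
    · simp only [curve, mem_preimage, add_im, ofReal_im, mul_im, ofReal_re, I_im, mul_one, I_re,
        mul_zero, add_zero, zero_add, mem_Icc]
      constructor <;> linarith
  have hcomp : LipschitzOnWith (M1.toNNReal * (1 + L)) (fun z => G (curve φ t z)) (uIcc A B) :=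
    hlipG.comp hγ.lipschitzOnWith hmaps
  have hre : LipschitzOnWith (1 * (M1.toNNReal * (1 + L))) (fun z => (G (curve φ t z)).re)
      (uIcc A B) := by
    have : LipschitzWith 1 Complex.re := by
      apply LipschitzWith.of_dist_le_mul
      intro w w'
      rw [Real.dist_eq, NNReal.coe_one, one_mul, dist_eq_norm, ← Complex.sub_re]
      exact Complex.abs_re_le_norm _
    exact this.comp_lipschitzOnWith hcomp
  exact hre.absolutelyContinuousOnInterval

lemma ac_cutoff {φ : ℝ → ℝ} {L : ℝ≥0} (hL : LipschitzWith L φ) {ε : ℝ} (hε : 0 < ε)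
    (hφ : ∀ z, ε ≤ φ z) {C T : ℝ} (c : Cutoff C T) {t : ℝ} (ht : 0 ≤ t) {A B : ℝ} :
    AbsolutelyContinuousOnInterval (fun z => c.q (φ z + t)) A B := by
  have h1 : LipschitzOnWith C.toNNReal c.q (Ici 0) := by
    apply (convex_Ici (0 : ℝ)).lipschitzOnWith_of_nnnorm_deriv_le (𝕜 := ℝ)
    · intro y _
      exact (c.hq y).differentiableAt
    · intro y hy
      rw [(c.hq y).deriv, ← NNReal.coe_le_coe, coe_nnnorm, Real.norm_eq_abs]
      exact (c.b1 y hy).trans (Real.le_coe_toNNReal C)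
  have h2 : LipschitzWith (L + 0) (fun z => φ z + t) := hL.add (LipschitzWith.const t)
  have h3 : LipschitzOnWith (C.toNNReal * (L + 0)) (fun z => c.q (φ z + t)) (uIcc A B) := by
    apply h1.comp h2.lipschitzOnWith
    intro z _
    show 0 ≤ φ z + t
    linarith [hφ z]
  exact h3.absolutelyContinuousOnInterval

/-- Step 1: for fixed `t` the derivative along the curve integrates to zero. -/
lemma green_step1 {F : ℂ → ℂ} (hF : DifferentiableOn ℂ F uhp) {φ : ℝ → ℝ} {L : ℝ≥0}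
    (hL : LipschitzWith L φ) {ε : ℝ} (hε : 0 < ε) (hφ : ∀ z, ε ≤ φ z) {C T : ℝ} (c : Cutoff C T)
    {A B : ℝ} (hAB : A ≤ B) (hA : 2 * T < φ A) (hB : 2 * T < φ B) {t : ℝ} (ht : 0 ≤ t) :
    ∫ z in A..B, (c.q (φ z + t) * ((deriv F (curve φ t z)).re * (deriv F (curve φ t z)).re +
        (F (curve φ t z)).re * (deriv (deriv F) (curve φ t z)).re) +
      deriv φ z * (c.q1 (φ z + t) * (F (curve φ t z)).re * (deriv F (curve φ t z)).re +
        c.q (φ z + t) * (-(deriv F (curve φ t z)).im * (deriv F (curve φ t z)).re +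
          (F (curve φ t z)).re * (-(deriv (deriv F) (curve φ t z)).im)))) = 0 := by
  have hF1 : DifferentiableOn ℂ (deriv F) uhp := hF.deriv isOpen_uhp
  have hac : AbsolutelyContinuousOnInterval
      (fun z => c.q (φ z + t) * ((F (curve φ t z)).re * (deriv F (curve φ t z)).re)) A B :=
    (ac_cutoff hL hε hφ c ht).mul ((ac_curve hL hε hφ hF ht hAB).mul (ac_curve hL hε hφ hF1 ht hAB))
  have hftc := hac.integral_deriv_eq_sub
  have hA0 : c.q (φ A + t) = 0 := c.zero _ (by linarith)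
  have hB0 : c.q (φ B + t) = 0 := c.zero _ (by linarith)
  rw [hA0, hB0, zero_mul, zero_mul, sub_zero] at hftc
  rw [← hftc]
  apply intervalIntegral.integral_congr_ae
  filter_upwards [hL.ae_differentiableAt_real] with z hz _
  have hd := hz.hasDerivAt
  have hmem := curve_mem (z := z) hε hφ ht
  have d1 := re_comp_deriv (diffAt_of_on hF hmem) (hasDerivAt_curve (t := t) hd)
  have d2 := re_comp_deriv (diffAt_of_on hF1 hmem) (hasDerivAt_curve (t := t) hd)
  have d3 : HasDerivAt (fun z => c.q (φ z + t)) (c.q1 (φ z + t) * deriv φ z) z :=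
    (c.hq (φ z + t)).comp z (hd.add_const t)
  have d4 := d3.mul (d1.mul d2)
  have d5 : HasDerivAt (fun z => c.q (φ z + t) * ((F (curve φ t z)).re *
      (deriv F (curve φ t z)).re)) _ z := d4
  rw [d5.deriv]
  simp only [Pi.mul_apply, Complex.mul_re, Complex.add_re, Complex.add_im, Complex.one_re,
    Complex.one_im, Complex.ofReal_re, Complex.ofReal_im, Complex.I_re, Complex.I_im,
    Complex.mul_im]
  ring

/-- Real part of `u * u_z` type products used below. -/
lemma contOn_re {φ : ℝ → ℝ} (hc : Continuous φ) {ε : ℝ} (hε : 0 < ε)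
    (hφ : ∀ z, ε ≤ φ z) {G : ℂ → ℂ} (hG : DifferentiableOn ℂ G uhp) :
    ContinuousOn (fun q : ℝ × ℝ => (G (curve φ q.2 q.1)).re) {q | 0 ≤ q.2} :=
  Complex.continuous_re.comp_continuousOn (continuousOn_curve hc hε hφ hG)

lemma contOn_im {φ : ℝ → ℝ} (hc : Continuous φ) {ε : ℝ} (hε : 0 < ε)
    (hφ : ∀ z, ε ≤ φ z) {G : ℂ → ℂ} (hG : DifferentiableOn ℂ G uhp) :
    ContinuousOn (fun q : ℝ × ℝ => (G (curve φ q.2 q.1)).im) {q | 0 ≤ q.2} :=
  Complex.continuous_im.comp_continuousOn (continuousOn_curve hc hε hφ hG)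

lemma cutoff_cont_q {C T : ℝ} (c : Cutoff C T) : Continuous c.q :=
  continuous_iff_continuousAt.2 fun y => (c.hq y).continuousAt

lemma cutoff_cont_q1 {C T : ℝ} (c : Cutoff C T) : Continuous c.q1 :=
  continuous_iff_continuousAt.2 fun y => (c.hq1 y).continuousAt

/-- The function `k_y` (derivative in `t` of `q u u_z`). -/
noncomputable def kyf (F : ℂ → ℂ) {C T : ℝ} (c : Cutoff C T) (φ : ℝ → ℝ) (z t : ℝ) : ℝ :=
  c.q1 (φ z + t) * (F (curve φ t z)).re * (deriv F (curve φ t z)).re +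
        c.q (φ z + t) * (-(deriv F (curve φ t z)).im * (deriv F (curve φ t z)).re +
          (F (curve φ t z)).re * (-(deriv (deriv F) (curve φ t z)).im))

/-- The function `k_z`. -/
noncomputable def kzf (F : ℂ → ℂ) {C T : ℝ} (c : Cutoff C T) (φ : ℝ → ℝ) (z t : ℝ) : ℝ :=
  c.q (φ z + t) * ((deriv F (curve φ t z)).re * (deriv F (curve φ t z)).re +
        (F (curve φ t z)).re * (deriv (deriv F) (curve φ t z)).re)

/-- The function `m_y = q v_yy - q'' v`. -/
noncomputable def myf (F : ℂ → ℂ) {C T : ℝ} (c : Cutoff C T) (φ : ℝ → ℝ) (z t : ℝ) : ℝ :=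
  c.q (φ z + t) * ((deriv F (curve φ t z)).im * (deriv F (curve φ t z)).im -
        (F (curve φ t z)).re * (deriv (deriv F) (curve φ t z)).re) -
    c.q2 (φ z + t) * ((F (curve φ t z)).re * (F (curve φ t z)).re / 2)

lemma contOn_kyf {F : ℂ → ℂ} (hF : DifferentiableOn ℂ F uhp) {φ : ℝ → ℝ} (hc : Continuous φ)
    {ε : ℝ} (hε : 0 < ε) (hφ : ∀ z, ε ≤ φ z) {C T : ℝ} (c : Cutoff C T) :
    ContinuousOn (fun q : ℝ × ℝ => kyf F c φ q.1 q.2) {q | 0 ≤ q.2} := by
  have hF1 : DifferentiableOn ℂ (deriv F) uhp := hF.deriv isOpen_uhp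
  have hF2 : DifferentiableOn ℂ (deriv (deriv F)) uhp := hF1.deriv isOpen_uhp
  have e0 : ContinuousOn (fun q : ℝ × ℝ => c.q (φ q.1 + q.2)) {q | 0 ≤ q.2} :=
    ((cutoff_cont_q c).comp ((hc.comp continuous_fst).add continuous_snd)).continuousOn
  have e1 : ContinuousOn (fun q : ℝ × ℝ => c.q1 (φ q.1 + q.2)) {q | 0 ≤ q.2} :=
    ((cutoff_cont_q1 c).comp ((hc.comp continuous_fst).add continuous_snd)).continuousOn
  have a0 := contOn_re hc hε hφ hF
  have a1 := contOn_re hc hε hφ hF1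
  have b1 := contOn_im hc hε hφ hF1
  have b2 := contOn_im hc hε hφ hF2
  exact ((e1.mul a0).mul a1).add (e0.mul ((b1.neg.mul a1).add (a0.mul b2.neg)))

lemma contOn_kzf {F : ℂ → ℂ} (hF : DifferentiableOn ℂ F uhp) {φ : ℝ → ℝ} (hc : Continuous φ)
    {ε : ℝ} (hε : 0 < ε) (hφ : ∀ z, ε ≤ φ z) {C T : ℝ} (c : Cutoff C T) :
    ContinuousOn (fun q : ℝ × ℝ => kzf F c φ q.1 q.2) {q | 0 ≤ q.2} := by
  have hF1 : DifferentiableOn ℂ (deriv F) uhp := hF.deriv isOpen_uhp
  have hF2 : DifferentiableOn ℂ (deriv (deriv F)) uhp := hF1.deriv isOpen_uhp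
  have e0 : ContinuousOn (fun q : ℝ × ℝ => c.q (φ q.1 + q.2)) {q | 0 ≤ q.2} :=
    ((cutoff_cont_q c).comp ((hc.comp continuous_fst).add continuous_snd)).continuousOn
  have a0 := contOn_re hc hε hφ hF
  have a1 := contOn_re hc hε hφ hF1
  have a2 := contOn_re hc hε hφ hF2
  exact e0.mul ((a1.mul a1).add (a0.mul a2))

lemma contOn_myf {F : ℂ → ℂ} (hF : DifferentiableOn ℂ F uhp) {φ : ℝ → ℝ} (hc : Continuous φ)
    {ε : ℝ} (hε : 0 < ε) (hφ : ∀ z, ε ≤ φ z) {C T : ℝ} (c : Cutoff C T) :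
    ContinuousOn (fun q : ℝ × ℝ => myf F c φ q.1 q.2) {q | 0 ≤ q.2} := by
  have hF1 : DifferentiableOn ℂ (deriv F) uhp := hF.deriv isOpen_uhp
  have hF2 : DifferentiableOn ℂ (deriv (deriv F)) uhp := hF1.deriv isOpen_uhp
  have e0 : ContinuousOn (fun q : ℝ × ℝ => c.q (φ q.1 + q.2)) {q | 0 ≤ q.2} :=
    ((cutoff_cont_q c).comp ((hc.comp continuous_fst).add continuous_snd)).continuousOn
  have e2 : ContinuousOn (fun q : ℝ × ℝ => c.q2 (φ q.1 + q.2)) {q | 0 ≤ q.2} :=
    (c.hq2.comp ((hc.comp continuous_fst).add continuous_snd)).continuousOn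
  have a0 := contOn_re hc hε hφ hF
  have b1 := contOn_im hc hε hφ hF1
  have a2 := contOn_re hc hε hφ hF2
  exact (e0.mul ((b1.mul b1).sub (a0.mul a2))).sub (e2.mul ((a0.mul a0).div_const 2))

/-- FTC in `t` for `k`. -/
lemma ftc_k {F : ℂ → ℂ} (hF : DifferentiableOn ℂ F uhp) {φ : ℝ → ℝ} (hcont : Continuous φ)
    {ε : ℝ} (hε : 0 < ε) (hφ : ∀ z, ε ≤ φ z) {C T : ℝ} (hT : 0 < T) (c : Cutoff C T) (z : ℝ) :
    ∫ t in (0:ℝ)..(2 * T), kyf F c φ z t =
      -(c.q (φ z) * ((F (curve φ 0 z)).re * (deriv F (curve φ 0 z)).re)) := by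
  have hF1 : DifferentiableOn ℂ (deriv F) uhp := hF.deriv isOpen_uhp
  have hder : ∀ t ∈ uIcc (0:ℝ) (2 * T), HasDerivAt (fun t => c.q (φ z + t) *
      ((F (curve φ t z)).re * (deriv F (curve φ t z)).re)) (kyf F c φ z t) t := by
    intro t ht
    rw [uIcc_of_le (by positivity)] at ht
    have hmem := curve_mem (z := z) hε hφ ht.1
    have d1 := re_comp_deriv (γ := fun t => curve φ t z) (diffAt_of_on hF hmem)
      (hasDerivAt_curve_t (φ := φ) (z := z) (t := t))
    have d2 := re_comp_deriv (γ := fun t => curve φ t z) (diffAt_of_on hF1 hmem)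
      (hasDerivAt_curve_t (φ := φ) (z := z) (t := t))
    have d3 : HasDerivAt (fun t => c.q (φ z + t)) (c.q1 (φ z + t) * 1) t :=
      (c.hq (φ z + t)).comp t ((hasDerivAt_id t).const_add (φ z))
    have d4 := d3.mul (d1.mul d2)
    convert! d4 using 1
    unfold kyf
    simp only [Pi.mul_apply, Complex.mul_re, Complex.I_re, Complex.I_im]
    ring
  have hint : IntervalIntegrable (fun t => kyf F c φ z t) volume 0 (2 * T) := by
    apply ContinuousOn.intervalIntegrable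
    have h1 := contOn_kyf hF hcont hε hφ c
    apply h1.comp (f := fun t : ℝ => (z, t)) (by fun_prop)
    intro t ht
    rw [uIcc_of_le (by positivity)] at ht
    exact ht.1
  rw [integral_eq_sub_of_hasDerivAt hder hint]
  have h0 : c.q (φ z + 2 * T) = 0 := c.zero _ (by linarith [hφ z])
  rw [h0]
  simp

/-- FTC in `t` for `m`. -/
lemma ftc_m {F : ℂ → ℂ} (hF : DifferentiableOn ℂ F uhp) {φ : ℝ → ℝ} (hcont : Continuous φ)
    {ε : ℝ} (hε : 0 < ε) (hφ : ∀ z, ε ≤ φ z) {C T : ℝ} (hT : 0 < T) (c : Cutoff C T) (z : ℝ) :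
    ∫ t in (0:ℝ)..(2 * T), myf F c φ z t =
      -(c.q (φ z) * ((F (curve φ 0 z)).re * (-(deriv F (curve φ 0 z)).im)) -
        c.q1 (φ z) * ((F (curve φ 0 z)).re * (F (curve φ 0 z)).re / 2)) := by
  have hF1 : DifferentiableOn ℂ (deriv F) uhp := hF.deriv isOpen_uhp
  have hder : ∀ t ∈ uIcc (0:ℝ) (2 * T), HasDerivAt (fun t => c.q (φ z + t) *
      ((F (curve φ t z)).re * (-(deriv F (curve φ t z)).im)) -
        c.q1 (φ z + t) * ((F (curve φ t z)).re * (F (curve φ t z)).re / 2)) (myf F c φ z t) t := by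
    intro t ht
    rw [uIcc_of_le (by positivity)] at ht
    have hmem := curve_mem (z := z) hε hφ ht.1
    have d1 := re_comp_deriv (γ := fun t => curve φ t z) (diffAt_of_on hF hmem)
      (hasDerivAt_curve_t (φ := φ) (z := z) (t := t))
    have d2 := im_comp_deriv (γ := fun t => curve φ t z) (diffAt_of_on hF1 hmem)
      (hasDerivAt_curve_t (φ := φ) (z := z) (t := t))
    have d3 : HasDerivAt (fun t => c.q (φ z + t)) (c.q1 (φ z + t) * 1) t :=
      (c.hq (φ z + t)).comp t ((hasDerivAt_id t).const_add (φ z))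
    have d3' : HasDerivAt (fun t => c.q1 (φ z + t)) (c.q2 (φ z + t) * 1) t :=
      (c.hq1 (φ z + t)).comp t ((hasDerivAt_id t).const_add (φ z))
    have d4 := (d3.mul (d1.mul d2.neg)).sub (d3'.mul ((d1.mul d1).div_const 2))
    convert! d4 using 1
    unfold myf
    simp only [Pi.mul_apply, Pi.neg_apply, Complex.mul_re, Complex.mul_im, Complex.I_re,
      Complex.I_im]
    ring
  have hint : IntervalIntegrable (fun t => myf F c φ z t) volume 0 (2 * T) := by
    apply ContinuousOn.intervalIntegrable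
    have h1 := contOn_myf hF hcont hε hφ c
    apply h1.comp (f := fun t : ℝ => (z, t)) (by fun_prop)
    intro t ht
    rw [uIcc_of_le (by positivity)] at ht
    exact ht.1
  rw [integral_eq_sub_of_hasDerivAt hder hint]
  have h0 : c.q (φ z + 2 * T) = 0 := c.zero _ (by linarith [hφ z])
  have h1 : c.q1 (φ z + 2 * T) = 0 := c.zero1 _ (by linarith [hφ z])
  rw [h0, h1]
  simp

end Pool.Agent.Work.MP_055a27_an
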