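import Pool.Agent.Work.MP_055a27_an.WeakStar

/-!
# The indicator of a half line
-/

open MeasureTheory Set Filter Topology
open scoped ENNReal NNReal

namespace Pool.Agent.Work.MP_055a27_an

/-- The weight `1` on `[0, ∞)` and `0` on `(-∞, 0)`. -/
noncomputable def halfW : ℝ → ℝ := (Ici (0 : ℝ)).indicator (fun _ => 1)

lemma halfW_nonneg (x : ℝ) : 0 ≤ halfW x := indicator_nonneg (fun _ _ => zero_le_one) x

lemma halfW_le_one (x : ℝ) : halfW x ≤ 1 := by
  unfold halfW
  by_cases h : x ∈ Ici (0 : ℝ)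
  · rw [indicator_of_mem h]
  · rw [indicator_of_notMem h]; exact zero_le_one

lemma halfW_measurable : Measurable halfW := measurable_const.indicator measurableSet_Ici

lemma halfW_weight : IsWeight halfW :=
  ⟨halfW_nonneg, (locallyIntegrable_const (1 : ℝ)).indicator measurableSet_Ici⟩

lemma halfW_tempered : Tempered halfW := by
  refine ⟨2, ?_⟩
  have h1 : Integrable (fun x : ℝ => (1 + ‖x‖) ^ (-(2 : ℝ))) volume :=
    integrable_one_add_norm (by simp)
  have h2 : Integrable (fun x : ℝ => (1 + |x|) ^ (-(2 : ℝ))) volume := h1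
  refine h2.mono' ?_ ?_
  · apply Measurable.aestronglyMeasurable
    apply halfW_measurable.mul
    fun_prop
  · filter_upwards with x
    have h3 : 0 ≤ (1 + |x|) ^ (-(2 : ℝ)) := by positivity
    rw [Real.norm_of_nonneg (mul_nonneg (halfW_nonneg x) h3)]
    calc halfW x * (1 + |x|) ^ (-(2 : ℝ)) ≤ 1 * (1 + |x|) ^ (-(2 : ℝ)) := by
          gcongr
          exact halfW_le_one x
      _ = _ := one_mul _

lemma setIntegral_halfW {E : Set ℝ} (_hE : MeasurableSet E) :
    ∫ x in E, halfW x = volume.real (E ∩ Ici 0) := by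
  unfold halfW
  rw [setIntegral_indicator measurableSet_Ici, setIntegral_const]
  simp

lemma halfW_weak : WeakAInfty halfW := by
  refine ⟨2, 1, by norm_num, by norm_num, ?_⟩
  intro x r hr E hE hEs
  rw [setIntegral_halfW hE, setIntegral_halfW measurableSet_Icc, Real.rpow_one]
  have hEfin : volume E ≠ ∞ := ((measure_mono hEs).trans_lt (by simp)).ne
  by_cases hx : 0 ≤ x + r
  · have h1 : r ≤ volume.real (Icc (x - 2 * r) (x + 2 * r) ∩ Ici 0) := by
      have hsub : Icc (x + r) (x + 2 * r) ⊆ Icc (x - 2 * r) (x + 2 * r) ∩ Ici 0 := by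
        intro t ht
        exact ⟨⟨by linarith [ht.1], ht.2⟩, hx.trans ht.1⟩
      have hfin : volume (Icc (x - 2 * r) (x + 2 * r) ∩ Ici 0) ≠ ∞ :=
        ((measure_mono inter_subset_left).trans_lt (by simp)).ne
      calc r = volume.real (Icc (x + r) (x + 2 * r)) := by
            rw [Real.volume_real_Icc_of_le (by linarith)]; ring
        _ ≤ _ := measureReal_mono hsub hfin
    calc volume.real (E ∩ Ici 0) ≤ volume.real E := measureReal_mono inter_subset_left hEfin
      _ = 2 * (volume.real E / (2 * r)) * r := by field_simp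
      _ ≤ 2 * (volume.real E / (2 * r)) * volume.real (Icc (x - 2 * r) (x + 2 * r) ∩ Ici 0) := by
          gcongr
  · push Not at hx
    have h0 : E ∩ Ici 0 = ∅ := by
      ext t
      simp only [mem_inter_iff, mem_Ici, mem_empty_iff_false, iff_false, not_and, not_le]
      intro ht
      linarith [(hEs ht).2]
    rw [h0, measureReal_empty]
    positivity

lemma halfW_not_AInfty : ¬ AInfty halfW := by
  rintro ⟨C, ε, hC, hε, h⟩
  -- intervals [-L, 1], set [0, 1]
  have key : ∀ L : ℝ, 0 < L → 1 ≤ C * (1 / (L + 1)) ^ ε := by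
    intro L hL
    have h1 := h (-L) 1 (by linarith) (Icc 0 1) measurableSet_Icc
      (Icc_subset_Icc (by linarith) le_rfl)
    rw [setIntegral_halfW measurableSet_Icc, setIntegral_halfW measurableSet_Icc] at h1
    have e1 : Icc (0 : ℝ) 1 ∩ Ici 0 = Icc 0 1 := by
      ext t; simp only [mem_inter_iff, mem_Icc, mem_Ici]; tauto
    have e2 : Icc (-L) 1 ∩ Ici 0 = Icc 0 1 := by
      ext t; simp only [mem_inter_iff, mem_Icc, mem_Ici]
      constructor
      · rintro ⟨⟨-, h2⟩, h3⟩; exact ⟨h3, h2⟩
      · rintro ⟨h2, h3⟩; exact ⟨⟨by linarith, h3⟩, h2⟩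
    rw [e1, e2, Real.volume_real_Icc_of_le (by norm_num)] at h1
    have e3 : (1 - 0 : ℝ) / (1 - -L) = 1 / (L + 1) := by ring_nf
    rw [e3] at h1
    simpa using h1
  have hlim : Tendsto (fun L : ℝ => C * (1 / (L + 1)) ^ ε) atTop (𝓝 (C * 0 ^ ε)) := by
    apply Tendsto.const_mul
    apply Tendsto.rpow_const _ (Or.inr hε.le)
    apply Tendsto.div_atTop tendsto_const_nhds
    exact tendsto_atTop_add_const_right _ _ tendsto_id
  rw [Real.zero_rpow hε.ne', mul_zero] at hlim
  have h2 := ge_of_tendsto hlim (by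
    filter_upwards [eventually_gt_atTop (0 : ℝ)] with L hL
    exact key L hL)
  linarith

end Pool.Agent.Work.MP_055a27_an
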