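import Mathlib

/-!
# Harmonic functions as real parts of analytic functions on the upper half plane
-/

open MeasureTheory Set Filter Topology Complex Metric
open scoped ENNReal NNReal

namespace Pool.Agent.Work.MP_055a27_an

/-- The open upper half plane as a set. -/
def uhp : Set ℂ := {w | 0 < w.im}

lemma isOpen_uhp : IsOpen uhp := isOpen_lt continuous_const Complex.continuous_im

lemma mem_uhp {z y : ℝ} (hy : 0 < y) : (z : ℂ) + y * I ∈ uhp := by
  show 0 < ((z : ℂ) + y * I).im
  simpa using hy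

/-- Gradient estimate. -/
lemma grad_bound {F : ℂ → ℂ} {w : ℂ} {ρ σ : ℝ} (hρ : 0 < ρ)
    (hF : DifferentiableOn ℂ F (ball w ρ)) (hσ : ∀ v ∈ ball w ρ, |(F v).re| ≤ σ) :
    ‖deriv F w‖ ≤ 4 * σ / ρ := by
  have hσ0 : 0 ≤ σ := le_trans (abs_nonneg _) (hσ w (mem_ball_self hρ))
  have hdw : HasDerivAt F (deriv F w) w :=
    (hF.differentiableAt (ball_mem_nhds w hρ)).hasDerivAt
  -- for every σ' > σ
  have key : ∀ σ' : ℝ, σ < σ' → ‖deriv F w‖ ≤ 4 * σ' / ρ := by
    intro σ' hσ'
    have hσ'0 : 0 < σ' := lt_of_le_of_lt hσ0 hσ'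
    set g : ℂ → ℂ := fun ζ => F (w + ζ) - F w with hg
    have hgd : DifferentiableOn ℂ g (ball 0 ρ) := by
      apply DifferentiableOn.sub_const
      apply hF.comp (by fun_prop)
      intro ζ hζ
      simp only [mem_ball, dist_eq_norm] at hζ ⊢
      simpa using hζ
    have hmaps : Set.MapsTo g (ball 0 ρ) {z | z.re ≤ 2 * σ'} := by
      intro ζ hζ
      show (F (w + ζ) - F w).re ≤ 2 * σ'
      have h1 : w + ζ ∈ ball w ρ := by
        simp only [mem_ball, dist_eq_norm] at hζ ⊢
        simpa using hζ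
      have h2 := (abs_le.1 (hσ _ h1)).2
      have h3 := (abs_le.1 (hσ w (mem_ball_self hρ))).1
      rw [Complex.sub_re]
      linarith
    have hg0 : g 0 = 0 := by simp [hg]
    have hbd : ∀ ζ ∈ ball (0 : ℂ) ρ, ‖g ζ‖ ≤ 2 * (2 * σ') * ‖ζ‖ / (ρ - ‖ζ‖) := fun ζ hζ =>
      Complex.borelCaratheodory_zero (by positivity) hgd hmaps hρ hζ hg0
    have hslope := hasDerivAt_iff_tendsto_slope_zero.1 hdw
    have hlim1 : Tendsto (fun t : ℂ => ‖t⁻¹ • (F (w + t) - F w)‖) (𝓝[≠] 0) (𝓝 ‖deriv F w‖) :=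
      hslope.norm
    have hlim2 : Tendsto (fun t : ℂ => 2 * (2 * σ') / (ρ - ‖t‖)) (𝓝[≠] 0)
        (𝓝 (2 * (2 * σ') / (ρ - ‖(0 : ℂ)‖))) := by
      apply Tendsto.mono_left _ nhdsWithin_le_nhds
      apply ContinuousAt.tendsto (f := fun t : ℂ => 2 * (2 * σ') / (ρ - ‖t‖))
      apply ContinuousAt.div
      · fun_prop
      · fun_prop
      · simp; exact hρ.ne'
    have h3 := le_of_tendsto_of_tendsto hlim1 hlim2 (by
      have hb : ball (0 : ℂ) ρ ∈ 𝓝[≠] (0 : ℂ) := mem_nhdsWithin_of_mem_nhds (ball_mem_nhds 0 hρ)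
      filter_upwards [hb, self_mem_nhdsWithin] with t ht htne
      have ht0 : 0 < ‖t‖ := norm_pos_iff.2 htne
      have hρt : 0 < ρ - ‖t‖ := by
        have : ‖t‖ < ρ := by simpa using ht
        linarith
      rw [norm_smul, norm_inv]
      have := hbd t ht
      calc ‖t‖⁻¹ * ‖F (w + t) - F w‖ ≤ ‖t‖⁻¹ * (2 * (2 * σ') * ‖t‖ / (ρ - ‖t‖)) := by
            gcongr
        _ = 2 * (2 * σ') / (ρ - ‖t‖) := by field_simp)
    rw [norm_zero, sub_zero] at h3
    calc ‖deriv F w‖ ≤ 2 * (2 * σ') / ρ := h3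
      _ = 4 * σ' / ρ := by ring
  -- limit
  have hlim : Tendsto (fun σ' : ℝ => 4 * σ' / ρ) (𝓝[>] σ) (𝓝 (4 * σ / ρ)) := by
    apply Tendsto.mono_left _ nhdsWithin_le_nhds
    apply Continuous.tendsto
    fun_prop
  apply ge_of_tendsto hlim
  filter_upwards [self_mem_nhdsWithin] with σ' hσ'
  exact key σ' hσ'

/-- Gradient estimate over a set of vertices: if the harmonic function is bounded by `σ` on the
union of the open cones of aperture `b` over `E`, then at points of smaller cones its gradient is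
at most a constant times `σ / y`. -/
lemma cone_grad_bound {F : ℂ → ℂ} (hF : DifferentiableOn ℂ F uhp) {b lam σ : ℝ} (hlam : 0 < lam)
    (hlb : lam < b) {E : Set ℝ}
    (hσ : ∀ z y : ℝ, 0 < y → infDist z E < b * y → |(F (z + y * I)).re| ≤ σ) {z y : ℝ}
    (hy : 0 < y) (hz : infDist z E ≤ lam * y) :
    ‖deriv F (z + y * I)‖ ≤ 4 * σ * ((1 + b) / (b - lam)) / y := by
  have hb : 0 < b := hlam.trans hlb
  set ρ : ℝ := (b - lam) / (1 + b) * y with hρ
  have hbl : 0 < b - lam := by linarith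
  have hρ0 : 0 < ρ := by positivity
  have hρy : ρ < y := by
    rw [hρ]
    have : (b - lam) / (1 + b) < 1 := by
      rw [div_lt_one (by positivity)]; linarith
    calc (b - lam) / (1 + b) * y < 1 * y := by gcongr
      _ = y := one_mul y
  have h1 : ∀ v ∈ ball ((z : ℂ) + y * I) ρ, |(F v).re| ≤ σ := by
    intro v hv
    have hve : (v.re : ℂ) + v.im * I = v := Complex.re_add_im v
    have hd : ‖v - (z + y * I)‖ < ρ := by simpa [dist_eq_norm] using hv
    have hre : |v.re - z| < ρ := by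
      have := Complex.abs_re_le_norm (v - (z + y * I))
      simp at this
      linarith
    have him : |v.im - y| < ρ := by
      have := Complex.abs_im_le_norm (v - (z + y * I))
      simp at this
      linarith
    rw [abs_lt] at hre him
    have hvy : 0 < v.im := by linarith [him.1]
    rw [← hve]
    apply hσ _ _ hvy
    have h2 : infDist v.re E ≤ infDist z E + dist v.re z := infDist_le_infDist_add_dist
    rw [Real.dist_eq] at h2
    have h3 : |v.re - z| < ρ := abs_lt.2 hre
    have h4 : ρ * (1 + b) = (b - lam) * y := by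
      rw [hρ]; field_simp
    nlinarith [him.1]
  have h2 : ball ((z : ℂ) + y * I) ρ ⊆ uhp := by
    intro v hv
    have hd : ‖v - (z + y * I)‖ < ρ := by simpa [dist_eq_norm] using hv
    have := Complex.abs_im_le_norm (v - (z + y * I))
    simp at this
    have h3 := (abs_lt.1 (lt_of_le_of_lt this hd)).1
    show 0 < v.im
    linarith
  have h3 := grad_bound hρ0 (hF.mono h2) h1
  refine h3.trans (le_of_eq ?_)
  rw [hρ]
  field_simp

end Pool.Agent.Work.MP_055a27_an
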