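import Pool.Agent.Work.MP_055a27_an.Bd.B03

/-!
# From small sets to the `A_∞` condition
-/

open MeasureTheory Set Filter Topology
open scoped ENNReal NNReal

namespace Pool.Agent.Work.MP_055a27_an

lemma wm_singleton {U : ℝ → ℝ} (x : ℝ) : wm U {x} = 0 :=
  wm_ac (measure_singleton x)

lemma wm_Icc_eq_Ico {U : ℝ → ℝ} (a c : ℝ) : wm U (Icc a c) = wm U (Ico a c) := by
  apply le_antisymm
  · calc wm U (Icc a c) ≤ wm U (Ico a c ∪ {c}) := by
          apply measure_mono
          intro x hx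
          rcases lt_or_eq_of_le hx.2 with h | h
          · left; exact ⟨hx.1, h⟩
          · right; exact h
      _ ≤ wm U (Ico a c) + wm U {c} := measure_union_le _ _
      _ = wm U (Ico a c) := by rw [wm_singleton, add_zero]
  · exact measure_mono Ico_subset_Icc_self

/-- Measurable sets of small measure have at most half the mass. -/
def HalfProp (U : ℝ → ℝ) (δ : ℝ) : Prop := ∀ a c : ℝ, a < c → ∀ E : Set ℝ, MeasurableSet E →
  E ⊆ Ico a c → volume.real E ≤ δ * (c - a) → 2 * wm U E ≤ wm U (Ico a c)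

lemma half_of_open {U : ℝ → ℝ} {δ : ℝ} (hδ : 0 < δ)
    (h : ∀ x0 r : ℝ, 0 < r → ∀ E : Set ℝ, IsOpen E →
      E ⊆ Ioo (x0 - 2 * r) (x0 + 2 * r) → volume.real E ≤ δ * r →
      2 * wm U E ≤ wm U (Icc (x0 - r) (x0 + r))) : HalfProp U (δ / 4) := by
  intro a c hac E _ hsub hvol
  have hEfin : volume E ≠ ∞ := ((measure_mono hsub).trans_lt measure_Ico_lt_top).ne
  have hr : 0 < (c - a) / 2 := by linarith
  have hε : ENNReal.ofReal (δ * ((c - a) / 2) / 2) ≠ 0 := by
    rw [Ne, ENNReal.ofReal_eq_zero]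
    push Not
    positivity
  obtain ⟨G, hEG, hGo, hG⟩ := Set.exists_isOpen_lt_add E hEfin hε
  set G' : Set ℝ := G ∩ Ioo ((a + c) / 2 - 2 * ((c - a) / 2)) ((a + c) / 2 + 2 * ((c - a) / 2))
    with hG'
  have hEG' : E ⊆ G' := by
    intro x hx
    have h1 := hsub hx
    exact ⟨hEG hx, by linarith [h1.1], by linarith [h1.2]⟩
  have hvolG : volume.real G' ≤ δ * ((c - a) / 2) := by
    apply ENNReal.toReal_le_of_le_ofReal (by positivity)
    calc volume G' ≤ volume G := measure_mono inter_subset_left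
      _ ≤ volume E + ENNReal.ofReal (δ * ((c - a) / 2) / 2) := hG.le
      _ ≤ ENNReal.ofReal (δ / 4 * (c - a)) + ENNReal.ofReal (δ * ((c - a) / 2) / 2) := by
          gcongr
          rw [← ENNReal.ofReal_toReal hEfin]
          exact ENNReal.ofReal_le_ofReal hvol
      _ = ENNReal.ofReal (δ * ((c - a) / 2)) := by
          have : 0 < c - a := by linarith
          rw [← ENNReal.ofReal_add (by positivity) (by positivity)]
          congr 1
          ring
  have h1 := h ((a + c) / 2) ((c - a) / 2) hr G' (hGo.inter isOpen_Ioo) inter_subset_right hvolG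
  have e1 : (a + c) / 2 - (c - a) / 2 = a := by ring
  have e2 : (a + c) / 2 + (c - a) / 2 = c := by ring
  rw [e1, e2, wm_Icc_eq_Ico] at h1
  calc 2 * wm U E ≤ 2 * wm U G' := by gcongr
    _ ≤ _ := h1

/-- Dyadic sets of depth `N` in `[a, c)`. -/
def IsDy : ℕ → ℝ → ℝ → Set ℝ → Prop
  | 0, a, c, E => E = ∅ ∨ E = Ico a c
  | (N + 1), a, c, E => ∃ E1 E2, IsDy N a ((a + c) / 2) E1 ∧ IsDy N ((a + c) / 2) c E2 ∧
      E = E1 ∪ E2

lemma IsDy.sub {N : ℕ} : ∀ {a c : ℝ} {E : Set ℝ}, a ≤ c → IsDy N a c E →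
    MeasurableSet E ∧ E ⊆ Ico a c := by
  induction N with
  | zero =>
    intro a c E _ h
    rcases h with h | h
    · subst h; exact ⟨MeasurableSet.empty, empty_subset _⟩
    · subst h; exact ⟨measurableSet_Ico, subset_rfl⟩
  | succ N ih =>
    intro a c E hac h
    obtain ⟨E1, E2, h1, h2, rfl⟩ := h
    have m1 : a ≤ (a + c) / 2 := by linarith
    have m2 : (a + c) / 2 ≤ c := by linarith
    obtain ⟨a1, a2⟩ := ih m1 h1
    obtain ⟨b1, b2⟩ := ih m2 h2
    refine ⟨a1.union b1, union_subset ?_ ?_⟩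
    · exact a2.trans (Ico_subset_Ico le_rfl m2)
    · exact b2.trans (Ico_subset_Ico m1 le_rfl)

lemma isDy_full (N : ℕ) : ∀ {a c : ℝ}, a ≤ c → IsDy N a c (Ico a c) := by
  induction N with
  | zero => intro a c _; exact Or.inr rfl
  | succ N ih =>
    intro a c hac
    have m1 : a ≤ (a + c) / 2 := by linarith
    have m2 : (a + c) / 2 ≤ c := by linarith
    exact ⟨_, _, ih m1, ih m2, (Ico_union_Ico_eq_Ico m1 m2).symm⟩

lemma stepA {U : ℝ → ℝ} {δ : ℝ} (hδ : 0 < δ) (hδ1 : δ < 1) (hH : HalfProp U δ) (N : ℕ) :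
    ∀ {a c : ℝ} {E : Set ℝ}, a < c → IsDy N a c E → volume.real E ≤ δ * (c - a) →
      ∃ E1, IsDy N a c E1 ∧ volume.real E1 ≤ 2 / δ * volume.real E ∧ 2 * wm U E ≤ wm U E1 := by
  induction N with
  | zero =>
    intro a c E hac hE hvol
    rcases hE with h | h
    · subst h
      exact ⟨∅, Or.inl rfl, by simp, by simp⟩
    · subst h
      exfalso
      rw [Real.volume_real_Ico_of_le hac.le] at hvol
      nlinarith
  | succ N ih =>
    intro a c E hac hE hvol
    have hmE := hE.sub hac.le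
    rcases lt_or_ge (δ / 2 * (c - a)) (volume.real E) with h | h
    · refine ⟨Ico a c, isDy_full _ hac.le, ?_, hH a c hac E hmE.1 hmE.2 hvol⟩
      rw [Real.volume_real_Ico_of_le hac.le, div_mul_eq_mul_div, le_div_iff₀ hδ]
      linarith
    · obtain ⟨E1, E2, h1, h2, rfl⟩ := hE
      have m1 : a < (a + c) / 2 := by linarith
      have m2 : (a + c) / 2 < c := by linarith
      have s1 := h1.sub m1.le
      have s2 := h2.sub m2.le
      have hEfin : volume (E1 ∪ E2) ≠ ∞ := ((measure_mono hmE.2).trans_lt measure_Ico_lt_top).ne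
      have v1 : volume.real E1 ≤ volume.real (E1 ∪ E2) :=
        measureReal_mono subset_union_left hEfin
      have v2 : volume.real E2 ≤ volume.real (E1 ∪ E2) :=
        measureReal_mono subset_union_right hEfin
      obtain ⟨F1, f1, f2, f3⟩ := ih m1 h1 (by
        have : δ * ((a + c) / 2 - a) = δ / 2 * (c - a) := by ring
        rw [this]; linarith)
      obtain ⟨F2, g1, g2, g3⟩ := ih m2 h2 (by
        have : δ * (c - (a + c) / 2) = δ / 2 * (c - a) := by ring
        rw [this]; linarith)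
      have t1 := f1.sub m1.le
      have t2 := g1.sub m2.le
      have hdisjI : Disjoint (Ico a ((a + c) / 2)) (Ico ((a + c) / 2) c) := by
        rw [Set.disjoint_left]
        intro x hx hx'
        linarith [hx.2, hx'.1]
      have hdE : Disjoint E1 E2 := hdisjI.mono s1.2 s2.2
      have hdF : Disjoint F1 F2 := hdisjI.mono t1.2 t2.2
      refine ⟨F1 ∪ F2, ⟨F1, F2, f1, g1, rfl⟩, ?_, ?_⟩
      · have e1 : volume.real (E1 ∪ E2) = volume.real E1 + volume.real E2 :=
          measureReal_union hdE s2.1 ((measure_mono s1.2).trans_lt measure_Ico_lt_top).ne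
            ((measure_mono s2.2).trans_lt measure_Ico_lt_top).ne
        rw [e1, mul_add]
        exact (measureReal_union_le _ _).trans (add_le_add f2 g2)
      · rw [measure_union hdE s2.1, measure_union hdF t2.1, mul_add]
        exact add_le_add f3 g3

lemma stepB {U : ℝ → ℝ} {δ : ℝ} (hδ : 0 < δ) (hδ1 : δ < 1) (hH : HalfProp U δ) (n : ℕ) :
    ∀ {N : ℕ} {a c : ℝ} {E : Set ℝ}, a < c → IsDy N a c E →
      volume.real E ≤ (δ / 2) ^ n * (c - a) → 2 ^ n * wm U E ≤ wm U (Ico a c) := by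
  induction n with
  | zero =>
    intro N a c E hac hE _
    rw [pow_zero, one_mul]
    exact measure_mono (hE.sub hac.le).2
  | succ n ih =>
    intro N a c E hac hE hvol
    have hca : 0 < c - a := by linarith
    have h1 : volume.real E ≤ δ * (c - a) := by
      refine hvol.trans ?_
      gcongr
      rw [pow_succ]
      calc (δ / 2) ^ n * (δ / 2) ≤ 1 * (δ / 2) := by
            gcongr
            apply pow_le_one₀ (by positivity) (by linarith)
        _ ≤ δ := by linarith
    obtain ⟨E1, e1, e2, e3⟩ := stepA hδ hδ1 hH N hac hE h1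
    have h2 : volume.real E1 ≤ (δ / 2) ^ n * (c - a) := by
      refine e2.trans ?_
      calc 2 / δ * volume.real E ≤ 2 / δ * ((δ / 2) ^ (n + 1) * (c - a)) := by gcongr
        _ = (δ / 2) ^ n * (c - a) := by
          rw [pow_succ]
          field_simp
    calc 2 ^ (n + 1) * wm U E = 2 ^ n * (2 * wm U E) := by ring
      _ ≤ 2 ^ n * wm U E1 := by gcongr
      _ ≤ _ := ih hac e1 h2

/-- Dyadic inner approximation of a set. -/
noncomputable def dyIn (G : Set ℝ) : ℕ → ℝ → ℝ → Set ℝ
  | 0, a, c => {x | Ico a c ⊆ G ∧ x ∈ Ico a c}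
  | (N + 1), a, c => dyIn G N a ((a + c) / 2) ∪ dyIn G N ((a + c) / 2) c

lemma isDy_dyIn (G : Set ℝ) (N : ℕ) : ∀ (a c : ℝ), IsDy N a c (dyIn G N a c) := by
  induction N with
  | zero =>
    intro a c
    by_cases h : Ico a c ⊆ G
    · right
      ext x
      simp [dyIn, h]
    · left
      ext x
      simp [dyIn, h]
  | succ N ih =>
    intro a c
    exact ⟨_, _, ih _ _, ih _ _, rfl⟩

lemma dyIn_subset (G : Set ℝ) (N : ℕ) : ∀ (a c : ℝ), dyIn G N a c ⊆ G := by
  induction N with
  | zero =>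
    intro a c x hx
    exact hx.1 hx.2
  | succ N ih =>
    intro a c
    exact union_subset (ih _ _) (ih _ _)

lemma dyIn_mono (G : Set ℝ) (N : ℕ) : ∀ {a c : ℝ}, a ≤ c →
    dyIn G N a c ⊆ dyIn G (N + 1) a c := by
  induction N with
  | zero =>
    intro a c hac x hx
    obtain ⟨h1, h2⟩ := hx
    have m1 : a ≤ (a + c) / 2 := by linarith
    have m2 : (a + c) / 2 ≤ c := by linarith
    rcases lt_or_ge x ((a + c) / 2) with h | h
    · left
      exact ⟨(Ico_subset_Ico le_rfl m2).trans h1, h2.1, h⟩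
    · right
      exact ⟨(Ico_subset_Ico m1 le_rfl).trans h1, h, h2.2⟩
  | succ N ih =>
    intro a c hac
    have m1 : a ≤ (a + c) / 2 := by linarith
    have m2 : (a + c) / 2 ≤ c := by linarith
    exact union_subset_union (ih m1) (ih m2)

lemma mem_dyIn (G : Set ℝ) (N : ℕ) : ∀ {a c x : ℝ}, x ∈ Ico a c →
    Ioo (x - (c - a) / 2 ^ N) (x + (c - a) / 2 ^ N) ⊆ G → x ∈ dyIn G N a c := by
  induction N with
  | zero =>
    intro a c x hx hG
    refine ⟨?_, hx⟩
    intro t ht
    apply hG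
    simp only [pow_zero, div_one, mem_Ioo]
    constructor <;> linarith [hx.1, hx.2, ht.1, ht.2]
  | succ N ih =>
    intro a c x hx hG
    rcases lt_or_ge x ((a + c) / 2) with h | h
    · left
      apply ih ⟨hx.1, h⟩
      have : ((a + c) / 2 - a) / 2 ^ N = (c - a) / 2 ^ (N + 1) := by
        rw [pow_succ]; field_simp; ring
      rw [this]
      exact hG
    · right
      apply ih ⟨h, hx.2⟩
      have : (c - (a + c) / 2) / 2 ^ N = (c - a) / 2 ^ (N + 1) := by
        rw [pow_succ]; field_simp; ring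
      rw [this]
      exact hG

lemma stepC {U : ℝ → ℝ} {δ : ℝ} (hδ : 0 < δ) (hδ1 : δ < 1) (hH : HalfProp U δ) (n : ℕ)
    {a c : ℝ} (hac : a < c) {G : Set ℝ} (hG : IsOpen G)
    (hvol : volume.real (G ∩ Ico a c) ≤ (δ / 2) ^ n * (c - a)) :
    2 ^ n * wm U (G ∩ Ico a c) ≤ wm U (Ico a c) := by
  have hmono : Monotone (fun N => dyIn G N a c) :=
    monotone_nat_of_le_succ fun N => dyIn_mono G N hac.le
  have hsub : ∀ N, dyIn G N a c ⊆ G ∩ Ico a c := fun N =>
    subset_inter (dyIn_subset G N a c) ((isDy_dyIn G N a c).sub hac.le).2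
  have hunion : G ∩ Ico a c ⊆ ⋃ N, dyIn G N a c := by
    rintro x ⟨hxG, hx⟩
    obtain ⟨ε, hε, hb⟩ := Metric.isOpen_iff.1 hG x hxG
    obtain ⟨N, hN⟩ := pow_unbounded_of_one_lt ((c - a) / ε) (one_lt_two (α := ℝ))
    refine mem_iUnion.2 ⟨N, mem_dyIn G N hx ?_⟩
    refine subset_trans ?_ hb
    rw [Real.ball_eq_Ioo]
    have h1 : (c - a) / 2 ^ N ≤ ε := by
      rw [div_lt_iff₀ hε] at hN
      rw [div_le_iff₀ (by positivity)]
      linarith
    apply Ioo_subset_Ioo <;> linarith
  have hfin : volume (G ∩ Ico a c) ≠ ∞ :=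
    ((measure_mono inter_subset_right).trans_lt measure_Ico_lt_top).ne
  calc 2 ^ n * wm U (G ∩ Ico a c) ≤ 2 ^ n * ⨆ N, wm U (dyIn G N a c) := by
        gcongr
        rw [← hmono.measure_iUnion]
        exact measure_mono hunion
    _ = ⨆ N, 2 ^ n * wm U (dyIn G N a c) := ENNReal.mul_iSup _ _
    _ ≤ _ := by
        apply iSup_le
        intro N
        apply stepB hδ hδ1 hH n hac (isDy_dyIn G N a c)
        exact (measureReal_mono (hsub N) hfin).trans hvol

lemma stepD {U : ℝ → ℝ} {δ : ℝ} (hδ : 0 < δ) (hδ1 : δ < 1) (hH : HalfProp U δ) (n : ℕ)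
    {a c : ℝ} (hac : a < c) {E : Set ℝ} (hsub : E ⊆ Icc a c)
    (hvol : volume.real E < (δ / 2) ^ n * (c - a)) :
    2 ^ n * wm U E ≤ wm U (Icc a c) := by
  have hEfin : volume E ≠ ∞ := ((measure_mono hsub).trans_lt measure_Icc_lt_top).ne
  obtain ⟨G, hEG, hGo, hG⟩ := Set.exists_isOpen_lt_of_lt E
    (ENNReal.ofReal ((δ / 2) ^ n * (c - a))) (by
      rw [← ENNReal.ofReal_toReal hEfin]
      exact (ENNReal.ofReal_lt_ofReal_iff (lt_of_le_of_lt measureReal_nonneg hvol)).2 hvol)
  have h1 : volume.real (G ∩ Ico a c) ≤ (δ / 2) ^ n * (c - a) := by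
    have : 0 < c - a := by linarith
    apply ENNReal.toReal_le_of_le_ofReal (by positivity)
    exact (measure_mono inter_subset_left).trans hG.le
  have h2 := stepC hδ hδ1 hH n hac hGo h1
  have h3 : wm U E ≤ wm U (G ∩ Ico a c) := by
    calc wm U E ≤ wm U ((G ∩ Ico a c) ∪ {c}) := by
          apply measure_mono
          intro x hx
          rcases lt_or_eq_of_le (hsub hx).2 with h | h
          · left; exact ⟨hEG hx, (hsub hx).1, h⟩
          · right; exact h
      _ ≤ wm U (G ∩ Ico a c) + wm U {c} := measure_union_le _ _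
      _ = wm U (G ∩ Ico a c) := by rw [wm_singleton, add_zero]
  rw [wm_Icc_eq_Ico]
  calc 2 ^ n * wm U E ≤ 2 ^ n * wm U (G ∩ Ico a c) := by gcongr
    _ ≤ _ := h2

theorem ainfty_of_half {U : ℝ → ℝ} (hU : IsWeight U) {δ : ℝ} (hδ : 0 < δ) (hδ1 : δ < 1)
    (hH : HalfProp U δ) : AInfty U := by
  set q : ℝ := δ / 2 with hq
  have hq0 : 0 < q := by positivity
  have hq1 : q < 1 := by rw [hq]; linarith
  have hlogq : Real.log q < 0 := Real.log_neg hq0 hq1
  set e : ℝ := -(Real.log 2) / Real.log q with he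
  have he0 : 0 < e := by
    rw [he]
    apply div_pos_of_neg_of_neg _ hlogq
    have := Real.log_pos one_lt_two
    linarith
  have hqe : q ^ e = 1 / 2 := by
    rw [Real.rpow_def_of_pos hq0, he]
    have : Real.log q * (-(Real.log 2) / Real.log q) = -(Real.log 2) :=
      mul_div_cancel₀ _ hlogq.ne
    rw [this, Real.exp_neg, Real.exp_log (by norm_num)]
    norm_num
  refine ⟨4, e, by norm_num, he0, fun a c hac E hE hsub => ?_⟩
  have hca : 0 < c - a := by linarith
  rw [setIntegral_eq_wm hU hE, setIntegral_eq_wm hU measurableSet_Icc]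
  set θ : ℝ := volume.real E / (c - a) with hθ
  have hfinI := (wm_Icc_lt_top hU a c).ne
  have hEfin : volume E ≠ ∞ := ((measure_mono hsub).trans_lt measure_Icc_lt_top).ne
  have hθ1 : θ ≤ 1 := by
    rw [hθ, div_le_one hca, ← Real.volume_real_Icc_of_le hac.le]
    exact measureReal_mono hsub measure_Icc_lt_top.ne
  rcases eq_or_lt_of_le (show 0 ≤ θ from div_nonneg measureReal_nonneg hca.le) with h0 | h0
  · have h1 : volume.real E = 0 := by
      rw [hθ, eq_comm, div_eq_zero_iff] at h0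
      rcases h0 with h | h
      · exact h
      · linarith
    have h2 : volume E = 0 := by
      rw [measureReal_eq_zero_iff hEfin] at h1
      exact h1
    have h3 : wm U E = 0 := wm_ac h2
    rw [h3, ENNReal.toReal_zero]
    positivity
  · obtain ⟨n, hn1, hn2⟩ := exists_nat_pow_near_of_lt_one h0 hθ1 hq0 hq1
    have hpow : (1 / 2 : ℝ) ^ (n + 1) ≤ θ ^ e := by
      rw [← hqe, ← Real.rpow_natCast, ← Real.rpow_mul hq0.le, mul_comm e, Real.rpow_mul hq0.le,
        Real.rpow_natCast]
      apply Real.rpow_le_rpow (by positivity) hn1.le he0.le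
    rcases Nat.eq_zero_or_pos n with h | h
    · subst h
      have h1 : (wm U E).toReal ≤ (wm U (Icc a c)).toReal :=
        ENNReal.toReal_mono hfinI (measure_mono hsub)
      have h2 : 1 ≤ 4 * θ ^ e := by
        have : (1 / 2 : ℝ) ^ (0 + 1) = 1 / 2 := by norm_num
        rw [this] at hpow
        linarith
      calc (wm U E).toReal ≤ 1 * (wm U (Icc a c)).toReal := by rw [one_mul]; exact h1
        _ ≤ 4 * θ ^ e * (wm U (Icc a c)).toReal := by gcongr
    · obtain ⟨k, rfl⟩ : ∃ k, n = k + 1 := ⟨n - 1, by omega⟩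
      have hvol : volume.real E < q ^ k * (c - a) := by
        have h1 : θ < q ^ k := by
          refine lt_of_le_of_lt hn2 ?_
          exact pow_lt_pow_right_of_lt_one₀ hq0 hq1 (Nat.lt_succ_self k)
        rw [hθ, div_lt_iff₀ hca] at h1
        exact h1
      have h2 := stepD hδ hδ1 hH k hac hsub hvol
      have hEw : wm U E ≠ ∞ := ((measure_mono hsub).trans_lt (wm_Icc_lt_top hU a c)).ne
      have h3 : 2 ^ k * (wm U E).toReal ≤ (wm U (Icc a c)).toReal := by
        have := ENNReal.toReal_mono hfinI h2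
        rw [ENNReal.toReal_mul, ENNReal.toReal_pow] at this
        simpa using this
      have h4 : (1 / 2 : ℝ) ^ k * 2 ^ k = 1 := by
        rw [← mul_pow]; norm_num
      calc (wm U E).toReal = (1 / 2 : ℝ) ^ k * (2 ^ k * (wm U E).toReal) := by
            rw [← mul_assoc, h4, one_mul]
        _ ≤ (1 / 2 : ℝ) ^ k * (wm U (Icc a c)).toReal := by gcongr
        _ = 4 * (1 / 2 : ℝ) ^ (k + 1 + 1) * (wm U (Icc a c)).toReal := by ring
        _ ≤ 4 * θ ^ e * (wm U (Icc a c)).toReal := by gcongr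

/-- Doubling weights with `(⋆)` are in `A_∞`. -/
theorem ainfty_of_doublingM {lam b p : ℝ} (hlam : 0 < lam) (hb : 0 < b) (hp : 0 < p) {U : ℝ → ℝ}
    (hU : IsWeight U) {D : ℝ≥0} (hD : DoublingM U D) (hS : Star lam b p U) : AInfty U := by
  obtain ⟨δ, hδ, h⟩ := half_open hlam hb hp hU hD hS
  have hH := half_of_open hδ h
  set δ' : ℝ := min (δ / 4) (1 / 2) with hδ'
  have hδ'0 : 0 < δ' := lt_min (by positivity) (by norm_num)
  have hδ'1 : δ' < 1 := lt_of_le_of_lt (min_le_right _ _) (by norm_num)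
  have hH' : HalfProp U δ' := by
    intro a c hac E hE hsub hvol
    apply hH a c hac E hE hsub
    refine hvol.trans ?_
    have : 0 < c - a := by linarith
    gcongr
    exact min_le_left _ _
  exact ainfty_of_half hU hδ'0 hδ'1 hH'

end Pool.Agent.Work.MP_055a27_an
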