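import Pool.Agent.Work.MP_055a27_an.ExpW

/-!
# A weight outside `A_∞` that satisfies `(⋆)` for all parameters
-/

open Pool.Agent.Work.MP_055a27_an

namespace Pool.Agent.Results.MP_055a27_an.NotNecessary

/-- There is a weight that is not in `A_∞` and satisfies `(⋆)` for all apertures and exponents. -/
theorem result : ∃ U : ℝ → ℝ, IsWeight U ∧ ¬ AInfty U ∧
    ∀ lam b p : ℝ, 0 < lam → 0 < b → 0 < p → Star lam b p U :=
  ⟨expW, expW_weight, expW_not_AInfty, fun _ _ _ _ hb hp => expW_star hb hp⟩

end Pool.Agent.Results.MP_055a27_an.NotNecessary
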