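import Pool.Agent.Work.MP_055a27_an.Green

/-!
# The sawtooth estimate
-/

open MeasureTheory Set Filter Topology Complex Metric intervalIntegral
open scoped ENNReal NNReal

namespace Pool.Agent.Work.MP_055a27_an

/-- Products of compact intervals: integrability of continuous functions. -/
lemma integrable_rect {g : ℝ × ℝ → ℝ} (hg : ContinuousOn g {q | 0 ≤ q.2}) (A B Y : ℝ) :
    Integrable g ((volume.restrict (Ioc A B)).prod (volume.restrict (Ioc 0 Y))) := by
  rw [Measure.prod_restrict]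
  have h1 : IntegrableOn g (Icc A B ×ˢ Icc 0 Y) (volume.prod volume) := by
    apply ContinuousOn.integrableOn_compact
    · exact isCompact_Icc.prod isCompact_Icc
    · apply hg.mono
      intro q hq
      exact hq.2.1
  exact h1.mono_set (prod_mono Ioc_subset_Icc_self Ioc_subset_Icc_self)

/-- The squared gradient times the cut-off, along the graph coordinates. -/
noncomputable def hf (F : ℂ → ℂ) {C T : ℝ} (c : Cutoff C T) (φ : ℝ → ℝ) (z t : ℝ) : ℝ :=
  c.q (φ z + t) * ‖deriv F (curve φ t z)‖ ^ 2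

lemma hf_eq {F : ℂ → ℂ} {C T : ℝ} (c : Cutoff C T) (φ : ℝ → ℝ) (z t : ℝ) :
    hf F c φ z t = kzf F c φ z t + myf F c φ z t +
      c.q2 (φ z + t) * ((F (curve φ t z)).re * (F (curve φ t z)).re / 2) := by
  unfold hf kzf myf
  rw [← Complex.normSq_eq_norm_sq, Complex.normSq_apply]
  ring

/-- The main inequality above a Lipschitz graph. -/
lemma green_bound {F : ℂ → ℂ} (hF : DifferentiableOn ℂ F uhp) {φ : ℝ → ℝ} {L : ℝ≥0}
    (hL : LipschitzWith L φ) {ε : ℝ} (hε : 0 < ε) (hφ : ∀ z, ε ≤ φ z) {C T : ℝ} (hC : 0 < C)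
    (hT : 0 < T) (c : Cutoff C T)
    {A B : ℝ} (hAB : A ≤ B) (hA : 2 * T < φ A) (hB : 2 * T < φ B) {σ K : ℝ} (hσ0 : 0 ≤ σ)

    (hu : ∀ z t, 0 ≤ t → |(F (curve φ t z)).re| ≤ σ)
    (hg : ∀ z, φ z * ‖deriv F (curve φ 0 z)‖ ≤ K * σ) :
    ∫ z in A..B, ∫ t in (0:ℝ)..(2 * T), hf F c φ z t ≤
      ((L + 1) * K + C / 2 + C) * σ ^ 2 * (B - A) := by
  have hcont : Continuous φ := hL.continuous
  have hF1 : DifferentiableOn ℂ (deriv F) uhp := hF.deriv isOpen_uhp
  have h2T : (0:ℝ) ≤ 2 * T := by positivity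
  set g : ℝ → ℝ → ℝ := fun z t => kzf F c φ z t + deriv φ z * kyf F c φ z t with hgdef
  have hφ'b : ∀ z, ‖deriv φ z‖ ≤ L := fun z => norm_deriv_le_of_lipschitz hL
  -- integrability
  have hi1 := integrable_rect (contOn_kzf hF hcont hε hφ c) A B (2 * T)
  have hi2 : Integrable (fun q : ℝ × ℝ => deriv φ q.1 * kyf F c φ q.1 q.2)
      ((volume.restrict (Ioc A B)).prod (volume.restrict (Ioc 0 (2 * T)))) := by
    refine (integrable_rect (contOn_kyf hF hcont hε hφ c) A B (2 * T)).bdd_mul (c := L) ?_ ?_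
    · exact ((measurable_deriv φ).comp measurable_fst).aestronglyMeasurable
    · exact Eventually.of_forall fun q => hφ'b q.1
  have hig : Integrable (Function.uncurry g)
      ((volume.restrict (Ioc A B)).prod (volume.restrict (Ioc 0 (2 * T)))) := hi1.add hi2
  -- the integral of g vanishes
  have hg0 : ∫ z in A..B, ∫ t in (0:ℝ)..(2 * T), g z t = 0 := by
    have e1 : ∫ z in A..B, ∫ t in (0:ℝ)..(2 * T), g z t =
        ∫ z, ∫ t, g z t ∂(volume.restrict (Ioc 0 (2 * T))) ∂(volume.restrict (Ioc A B)) := by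
      rw [integral_of_le hAB]
      apply MeasureTheory.integral_congr_ae
      refine Eventually.of_forall fun z => ?_
      simp only
      rw [integral_of_le h2T]
    rw [e1, integral_integral_swap hig]
    have e2 : ∀ t ∈ Ioc (0:ℝ) (2 * T), ∫ z, g z t ∂(volume.restrict (Ioc A B)) = 0 := by
      intro t ht
      have := green_step1 hF hL hε hφ c hAB hA hB ht.1.le
      rw [integral_of_le hAB] at this
      exact this
    rw [setIntegral_congr_fun measurableSet_Ioc e2]
    simp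
  have hGi : IntervalIntegrable (fun z => ∫ t in (0:ℝ)..(2 * T), g z t) volume A B := by
    rw [intervalIntegrable_iff_integrableOn_Ioc_of_le hAB]
    have := hig.integral_prod_left
    refine this.congr (Eventually.of_forall fun z => ?_)
    simp only [Function.uncurry]
    rw [integral_of_le h2T]
  have hHi : IntervalIntegrable (fun z => ∫ t in (0:ℝ)..(2 * T), hf F c φ z t) volume A B := by
    rw [intervalIntegrable_iff_integrableOn_Ioc_of_le hAB]
    have h1 : ContinuousOn (fun q : ℝ × ℝ => hf F c φ q.1 q.2) {q | 0 ≤ q.2} := by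
      unfold hf
      have e0 : ContinuousOn (fun q : ℝ × ℝ => c.q (φ q.1 + q.2)) {q | 0 ≤ q.2} :=
        ((cutoff_cont_q c).comp ((hcont.comp continuous_fst).add continuous_snd)).continuousOn
      exact e0.mul ((continuousOn_curve hcont hε hφ hF1).norm.pow 2)
    have := (integrable_rect h1 A B (2 * T)).integral_prod_left
    refine this.congr (Eventually.of_forall fun z => ?_)
    simp only
    rw [integral_of_le h2T]
  have hsplit : ∫ z in A..B, ∫ t in (0:ℝ)..(2 * T), hf F c φ z t =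
      ∫ z in A..B, ((∫ t in (0:ℝ)..(2 * T), hf F c φ z t) - ∫ t in (0:ℝ)..(2 * T), g z t) := by
    rw [intervalIntegral.integral_sub hHi hGi, hg0, sub_zero]
  rw [hsplit]
  -- pointwise bound
  have hpt : ∀ z, ‖(∫ t in (0:ℝ)..(2 * T), hf F c φ z t) - ∫ t in (0:ℝ)..(2 * T), g z t‖ ≤
      ((L + 1) * K + C / 2 + C) * σ ^ 2 := by
    intro z
    have hq2c : ContinuousOn (fun q : ℝ × ℝ => c.q2 (φ q.1 + q.2) *
        ((F (curve φ q.2 q.1)).re * (F (curve φ q.2 q.1)).re / 2)) {q | 0 ≤ q.2} := by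
      have e2 : ContinuousOn (fun q : ℝ × ℝ => c.q2 (φ q.1 + q.2)) {q | 0 ≤ q.2} :=
        (c.hq2.comp ((hcont.comp continuous_fst).add continuous_snd)).continuousOn
      have a0 := contOn_re hcont hε hφ hF
      exact e2.mul ((a0.mul a0).div_const 2)
    have slice : ∀ {G : ℝ × ℝ → ℝ}, ContinuousOn G {q | 0 ≤ q.2} →
        IntervalIntegrable (fun t => G (z, t)) volume 0 (2 * T) := by
      intro G hG
      apply ContinuousOn.intervalIntegrable
      apply hG.comp (f := fun t : ℝ => (z, t)) (by fun_prop)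
      intro t ht
      rw [uIcc_of_le h2T] at ht
      exact ht.1
    have ik := slice (contOn_kzf hF hcont hε hφ c)
    have iy := slice (contOn_kyf hF hcont hε hφ c)
    have im := slice (contOn_myf hF hcont hε hφ c)
    have iq := slice hq2c
    have e1 : ∫ t in (0:ℝ)..(2 * T), hf F c φ z t = (∫ t in (0:ℝ)..(2 * T), kzf F c φ z t) +
        (∫ t in (0:ℝ)..(2 * T), myf F c φ z t) + ∫ t in (0:ℝ)..(2 * T), c.q2 (φ z + t) *
        ((F (curve φ t z)).re * (F (curve φ t z)).re / 2) := by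
      simp_rw [hf_eq]
      rw [intervalIntegral.integral_add (ik.add im) iq, intervalIntegral.integral_add ik im]
    have e2 : ∫ t in (0:ℝ)..(2 * T), g z t = (∫ t in (0:ℝ)..(2 * T), kzf F c φ z t) +
        deriv φ z * ∫ t in (0:ℝ)..(2 * T), kyf F c φ z t := by
      simp only [hgdef]
      rw [intervalIntegral.integral_add ik (iy.const_mul _), intervalIntegral.integral_const_mul]
    rw [e1, e2, ftc_k hF hcont hε hφ hT c z, ftc_m hF hcont hε hφ hT c z]
    set u : ℝ := (F (curve φ 0 z)).re with hudef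
    set d : ℂ := deriv F (curve φ 0 z) with hd
    have hu0 : |u| ≤ σ := hu z 0 le_rfl
    have hφz : 0 < φ z := lt_of_lt_of_le hε (hφ z)
    have hq0 : 0 ≤ c.q (φ z) := c.nonneg _ hφz.le
    have hqle : c.q (φ z) ≤ φ z := c.le_self _ hφz.le
    have hgz : φ z * ‖d‖ ≤ K * σ := hg z
    have hqd : c.q (φ z) * ‖d‖ ≤ K * σ := by
      refine le_trans ?_ hgz
      gcongr
    have hre : |d.re| ≤ ‖d‖ := Complex.abs_re_le_norm d
    have him : |d.im| ≤ ‖d‖ := Complex.abs_im_le_norm d
    have hL0 : (0 : ℝ) ≤ L := L.2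
    have t1 : |deriv φ z * (-(c.q (φ z) * (u * d.re)))| ≤ L * K * σ ^ 2 := by
      rw [abs_mul, abs_neg, abs_mul, abs_mul, abs_of_nonneg hq0]
      have h1 : |deriv φ z| ≤ L := hφ'b z
      calc |deriv φ z| * (c.q (φ z) * (|u| * |d.re|)) ≤ L * (c.q (φ z) * (σ * ‖d‖)) := by gcongr
        _ = L * σ * (c.q (φ z) * ‖d‖) := by ring
        _ ≤ L * σ * (K * σ) := by gcongr
        _ = L * K * σ ^ 2 := by ring
    have t2 : |c.q (φ z) * (u * (-d.im))| ≤ K * σ ^ 2 := by
      rw [abs_mul, abs_mul, abs_neg, abs_of_nonneg hq0]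
      calc c.q (φ z) * (|u| * |d.im|) ≤ c.q (φ z) * (σ * ‖d‖) := by gcongr
        _ = σ * (c.q (φ z) * ‖d‖) := by ring
        _ ≤ σ * (K * σ) := by gcongr
        _ = K * σ ^ 2 := by ring
    have hu2 : |u * u / 2| ≤ σ ^ 2 / 2 := by
      rw [abs_div, abs_mul, abs_of_pos (by norm_num : (0:ℝ) < 2)]
      have : |u| * |u| ≤ σ * σ := by gcongr
      rw [sq]
      linarith
    have t3 : |c.q1 (φ z) * (u * u / 2)| ≤ C / 2 * σ ^ 2 := by
      rw [abs_mul]
      have h1 := c.b1 (φ z) hφz.le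
      calc |c.q1 (φ z)| * |u * u / 2| ≤ C * (σ ^ 2 / 2) := by gcongr
        _ = C / 2 * σ ^ 2 := by ring
    have t4 : |∫ t in (0:ℝ)..(2 * T), c.q2 (φ z + t) *
        ((F (curve φ t z)).re * (F (curve φ t z)).re / 2)| ≤ C * σ ^ 2 := by
      rw [← Real.norm_eq_abs]
      have h1 : ‖∫ t in (0:ℝ)..(2 * T), c.q2 (φ z + t) *
        ((F (curve φ t z)).re * (F (curve φ t z)).re / 2)‖ ≤ (C / T * (σ ^ 2 / 2)) * |2 * T - 0| := by
        apply intervalIntegral.norm_integral_le_of_norm_le_const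
        intro t ht
        rw [uIoc_of_le h2T] at ht
        rw [Real.norm_eq_abs, abs_mul]
        have h2 := c.b2 (φ z + t) (by linarith [ht.1])
        have h3 := hu z t ht.1.le
        have h4 : |(F (curve φ t z)).re * (F (curve φ t z)).re / 2| ≤ σ ^ 2 / 2 := by
          rw [abs_div, abs_mul, abs_of_pos (by norm_num : (0:ℝ) < 2)]
          have : |(F (curve φ t z)).re| * |(F (curve φ t z)).re| ≤ σ * σ := by gcongr
          rw [sq]
          linarith
        gcongr
      refine h1.trans (le_of_eq ?_)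
      rw [sub_zero, abs_of_pos (by positivity)]
      field_simp
    rw [Real.norm_eq_abs]
    have e3 : (∫ t in (0:ℝ)..(2 * T), kzf F c φ z t) +
        (-(c.q (φ z) * (u * (-d.im)) - c.q1 (φ z) * (u * u / 2))) +
        (∫ t in (0:ℝ)..(2 * T), c.q2 (φ z + t) *
        ((F (curve φ t z)).re * (F (curve φ t z)).re / 2)) -
        ((∫ t in (0:ℝ)..(2 * T), kzf F c φ z t) + deriv φ z * (-(c.q (φ z) * (u * d.re)))) =
        -(deriv φ z * (-(c.q (φ z) * (u * d.re)))) - c.q (φ z) * (u * (-d.im)) +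
        c.q1 (φ z) * (u * u / 2) + (∫ t in (0:ℝ)..(2 * T), c.q2 (φ z + t) *
        ((F (curve φ t z)).re * (F (curve φ t z)).re / 2)) := by ring
    rw [e3]
    generalize deriv φ z * (-(c.q (φ z) * (u * d.re))) = x1 at t1 ⊢
    generalize c.q (φ z) * (u * (-d.im)) = x2 at t2 ⊢
    generalize c.q1 (φ z) * (u * u / 2) = x3 at t3 ⊢
    generalize (∫ t in (0:ℝ)..(2 * T), c.q2 (φ z + t) *
        ((F (curve φ t z)).re * (F (curve φ t z)).re / 2)) = x4 at t4 ⊢
    have h5 : |-x1 - x2 + x3 + x4| ≤ |x1| + |x2| + |x3| + |x4| := by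
      have a1 := abs_add_le (-x1 - x2 + x3) x4
      have a2 := abs_add_le (-x1 - x2) x3
      have a3 := abs_sub (-x1) x2
      rw [abs_neg] at a3
      linarith
    calc |-x1 - x2 + x3 + x4| ≤ |x1| + |x2| + |x3| + |x4| := h5
      _ ≤ L * K * σ ^ 2 + K * σ ^ 2 + C / 2 * σ ^ 2 + C * σ ^ 2 := by linarith
      _ = ((L + 1) * K + C / 2 + C) * σ ^ 2 := by ring
  have hfin := intervalIntegral.norm_integral_le_of_norm_le_const (a := A) (b := B)
    (f := fun z => (∫ t in (0:ℝ)..(2 * T), hf F c φ z t) - ∫ t in (0:ℝ)..(2 * T), g z t)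
    (C := ((L + 1) * K + C / 2 + C) * σ ^ 2) (fun z _ => hpt z)
  rw [abs_of_nonneg (by linarith : 0 ≤ B - A)] at hfin
  exact (le_abs_self _).trans (by rw [← Real.norm_eq_abs]; exact hfin)

end Pool.Agent.Work.MP_055a27_an
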