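import Pool.Agent.Work.MP_055a27_an.Harm

/-!
# Superexponential decay of a harmonic function forces it to be constant
-/

open MeasureTheory Set Filter Topology Complex Metric Asymptotics
open scoped ENNReal NNReal

namespace Pool.Agent.Work.MP_055a27_an

lemma tendsto_superexp {C c : ℝ} (hc : 0 < c) (n : ℕ) :
    Tendsto (fun x : ℝ => Real.exp x ^ n * (C * Real.exp (-(c * x ^ 2)))) atTop (𝓝 0) := by
  have h1 : Tendsto (fun x : ℝ => x * (n - c * x)) atTop atBot := by
    apply Tendsto.atTop_mul_atBot₀ tendsto_id
    apply tendsto_atBot_add_const_left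
    simp only [tendsto_neg_atBot_iff]
    exact tendsto_id.const_mul_atTop hc
  have h2 : Tendsto (fun x : ℝ => C * Real.exp (x * (n - c * x))) atTop (𝓝 (C * 0)) :=
    (Real.tendsto_exp_atBot.comp h1).const_mul C
  rw [mul_zero] at h2
  refine h2.congr fun x => ?_
  rw [← Real.exp_nat_mul]
  have : Real.exp (x * (n - c * x)) = Real.exp (n * x) * Real.exp (-(c * x ^ 2)) := by
    rw [← Real.exp_add]; congr 1; ring
  rw [this]; ring

theorem superexp_zero {F : ℂ → ℂ} (hF : DifferentiableOn ℂ F uhp)
    (h : ∀ η : ℝ, 0 < η → ∃ C c : ℝ, 0 < C ∧ 0 < c ∧ ∀ w : ℂ, η ≤ w.im →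
      |(F w).re| ≤ C * Real.exp (-(c * w.im ^ 2))) :
    ∀ w : ℂ, 0 < w.im → deriv F w = 0 := by
  have hF1 : DifferentiableOn ℂ (deriv F) uhp := hF.deriv isOpen_uhp
  have key : ∀ η : ℝ, 0 < η → ∀ w : ℂ, 2 * η ≤ w.im → deriv F w = 0 := by
    intro η hη
    obtain ⟨C, c, hC, hc, hbd⟩ := h η hη
    have hgrad : ∀ w : ℂ, 2 * η ≤ w.im → ‖deriv F w‖ ≤
        4 * C / η * Real.exp (-(c * (w.im - η) ^ 2)) := by
      intro w hw
      have hball : ∀ v ∈ ball w η, w.im - η ≤ v.im := by
        intro v hv
        have hd : ‖v - w‖ < η := by simpa [dist_eq_norm] using hv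
        have := Complex.abs_im_le_norm (v - w)
        rw [Complex.sub_im] at this
        have h3 := (abs_lt.1 (lt_of_le_of_lt this hd)).1
        linarith
      have h1 := grad_bound (F := F) (w := w) (ρ := η)
        (σ := C * Real.exp (-(c * (w.im - η) ^ 2))) hη ?_ ?_
      · refine h1.trans (le_of_eq ?_)
        ring
      · apply hF.mono
        intro v hv
        show 0 < v.im
        have := hball v hv
        linarith
      · intro v hv
        have h2 := hball v hv
        refine (hbd v (by linarith)).trans ?_
        have h3 : 0 ≤ w.im - η := by linarith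
        gcongr
    set G : ℂ → ℂ := fun v => deriv F (I * (v + 2 * η)) with hG
    have him : ∀ v : ℂ, (I * (v + 2 * η)).im = v.re + 2 * η := by
      intro v
      simp
    have hGd : DifferentiableOn ℂ G {v : ℂ | -η < v.re} := by
      apply hF1.comp (t := uhp) (by fun_prop)
      intro v hv
      show 0 < (I * (v + 2 * η)).im
      rw [him]
      have : -η < v.re := hv
      linarith
    have hGc : DiffContOnCl ℂ G {v : ℂ | 0 < v.re} := by
      apply DifferentiableOn.diffContOnCl
      apply hGd.mono
      rw [Complex.closure_setOfPred_lt_re]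
      intro v hv
      show -η < v.re
      have : 0 ≤ v.re := hv
      linarith
    have hGb : ∀ v : ℂ, 0 ≤ v.re → ‖G v‖ ≤ 4 * C / η * Real.exp (-(c * v.re ^ 2)) := by
      intro v hv
      have h1 := hgrad (I * (v + 2 * η)) (by rw [him]; linarith)
      rw [him] at h1
      refine h1.trans ?_
      gcongr
      linarith
    have hGb1 : ∀ v : ℂ, 0 ≤ v.re → ‖G v‖ ≤ 4 * C / η := by
      intro v hv
      refine (hGb v hv).trans ?_
      have : Real.exp (-(c * v.re ^ 2)) ≤ 1 := by
        rw [Real.exp_le_one_iff]; nlinarith [sq_nonneg v.re]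
      calc 4 * C / η * Real.exp (-(c * v.re ^ 2)) ≤ 4 * C / η * 1 := by gcongr
        _ = _ := mul_one _
    have hzero := PhragmenLindelof.eq_zero_on_right_half_plane_of_superexponential_decay hGc
      ⟨0, by norm_num, 0, by
        apply IsBigO.of_bound (4 * C / η)
        have : ∀ᶠ v in Bornology.cobounded ℂ ⊓ 𝓟 {z : ℂ | 0 < z.re}, v ∈ {z : ℂ | 0 < z.re} :=
          (mem_inf_of_right (mem_principal_self _))
        filter_upwards [this] with v hv
        have := hGb1 v (le_of_lt hv)
        simpa using this⟩
      (by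
        intro n
        apply squeeze_zero' _ _ (tendsto_superexp (C := 4 * C / η) hc n)
        · filter_upwards with x
          positivity
        · filter_upwards [eventually_ge_atTop (0 : ℝ)] with x hx
          have := hGb (x : ℂ) (by simpa using hx)
          rw [Complex.ofReal_re] at this
          gcongr)
      ⟨4 * C / η, fun x => hGb1 _ (by simp)⟩
    intro w hw
    have h1 := hzero (x := -I * w - 2 * η) (by
      show 0 ≤ (-I * w - 2 * η).re
      have : (-I * w - 2 * η).re = w.im - 2 * η := by simp
      rw [this]; linarith)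
    simp only [hG, Pi.zero_apply] at h1
    have h2 : I * (-I * w - 2 * η + 2 * η) = w := by
      linear_combination -w * Complex.I_sq
    rw [h2] at h1
    exact h1
  intro w hw
  exact key (w.im / 2) (by positivity) w (by linarith)

end Pool.Agent.Work.MP_055a27_an
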