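import Pool.Agent.Work.MP_055a27_an.TestLower
import Pool.Agent.Work.MP_055a27_an.WMeas

/-!
# `(⋆)` with `lam ≥ b` and a tempered weight implies doubling
-/

open MeasureTheory Set Filter Topology
open scoped ENNReal NNReal

namespace Pool.Agent.Work.MP_055a27_an

lemma tempered_lintegral {U : ℝ → ℝ} (hU : IsWeight U) {K : ℝ}
    (hK : Integrable (fun x : ℝ => U x * (1 + |x|) ^ (-K)) volume)
    {g : ℝ → ℝ} (hg0 : ∀ x, 0 ≤ g x) {M : ℝ} (hg : ∀ x, g x ≤ M * (1 + |x|) ^ (-K)) :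
    ∫⁻ x, ENNReal.ofReal (g x) ∂(wm U) ≠ ∞ := by
  rw [← lintegral_mul_weight_univ hU]
  have h1 : ∫⁻ x, ENNReal.ofReal (g x) * ENNReal.ofReal (U x) ≤
      ∫⁻ x, ENNReal.ofReal (M * (U x * (1 + |x|) ^ (-K))) := by
    apply lintegral_mono
    intro x
    simp only
    rw [← ENNReal.ofReal_mul (hg0 x)]
    apply ENNReal.ofReal_le_ofReal
    calc g x * U x ≤ (M * (1 + |x|) ^ (-K)) * U x := by
          apply mul_le_mul_of_nonneg_right (hg x) (hU.1 x)
      _ = _ := by ring
  have h2 := (hK.const_mul M).lintegral_lt_top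
  exact (lt_of_le_of_lt h1 h2).ne

lemma ratio_le {b β x x0 s : ℝ} (hb : 0 < b) (hβ : 0 < β) (hs : 0 < s) :
    β / ((|x - x0| + b * β) / s) ≤
      (s * β * max 1 ((1 + |x0|) / (b * β))) / (1 + |x|) := by
  have h1 : 1 + |x| ≤ max 1 ((1 + |x0|) / (b * β)) * (|x - x0| + b * β) := by
    have h2 : |x| ≤ |x0| + |x - x0| := by
      calc |x| = |x0 + (x - x0)| := by ring_nf
        _ ≤ _ := abs_add_le _ _
    have h3 : 1 + |x0| ≤ max 1 ((1 + |x0|) / (b * β)) * (b * β) := by
      calc 1 + |x0| = ((1 + |x0|) / (b * β)) * (b * β) := by field_simp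
        _ ≤ _ := by gcongr; exact le_max_right _ _
    have h4 : |x - x0| ≤ max 1 ((1 + |x0|) / (b * β)) * |x - x0| := by
      apply le_mul_of_one_le_left (abs_nonneg _) (le_max_left _ _)
    nlinarith
  have hpos : 0 < 1 + |x| := by positivity
  have hpos2 : 0 < |x - x0| + b * β := by positivity
  rw [div_div_eq_mul_div, div_le_div_iff₀ hpos2 hpos]
  calc β * s * (1 + |x|) ≤ β * s * (max 1 ((1 + |x0|) / (b * β)) * (|x - x0| + b * β)) := by
        gcongr
    _ = _ := by ring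

theorem doubling_of_star {lam b p : ℝ} (hb : 0 < b) (hlam : b ≤ lam) (hp : 0 < p)
    {U : ℝ → ℝ} (hU : IsWeight U) (ht : Tempered U) (hS : Star lam b p U) :
    ∃ D : ℝ≥0, ∀ x r : ℝ, 0 < r →
      wm U (Icc (x - 2 * r) (x + 2 * r)) ≤ D * wm U (Icc (x - r) (x + r)) := by
  obtain ⟨K, hK⟩ := ht
  obtain ⟨C0, hC0⟩ := (star_iff hU).1 hS
  set C1 : ℝ≥0 := max C0 1 with hC1
  have hC1pos : (1 : ℝ≥0) ≤ C1 := le_max_right _ _
  set s : ℝ := Real.sqrt (1 + b ^ 2) with hs
  have hspos : 0 < s := by rw [hs]; positivity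
  set c1 : ℝ := 2 * Real.exp (-12) / s with hc1
  have hc1pos : 0 < c1 := by positivity
  -- choice of `n`
  have hev : ∀ᶠ n : ℕ in atTop, 8 / b ≤ (n : ℝ) ∧ 4 * b ≤ (n : ℝ) ∧ 1 ≤ n ∧
      2 * (C1 : ℝ) ≤ (c1 * n) ^ (p / 2) ∧ K ≤ (n : ℝ) := by
    have t1 : Tendsto (fun n : ℕ => (n : ℝ)) atTop atTop := tendsto_natCast_atTop_atTop
    have t2 : Tendsto (fun n : ℕ => (c1 * (n : ℝ)) ^ (p / 2)) atTop atTop :=
      (tendsto_rpow_atTop (by positivity)).comp (t1.const_mul_atTop hc1pos)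
    filter_upwards [t1.eventually_ge_atTop (8 / b), t1.eventually_ge_atTop (4 * b),
      eventually_ge_atTop 1, t2.eventually_ge_atTop (2 * (C1 : ℝ)), t1.eventually_ge_atTop K]
      with n h1 h2 h3 h4 h5
    exact ⟨h1, h2, h3, h4, h5⟩
  have hev2 : ∀ᶠ n : ℕ in atTop, K ≤ ((n : ℝ) ^ 2) * p := by
    have t1 : Tendsto (fun n : ℕ => (n : ℝ)) atTop atTop := tendsto_natCast_atTop_atTop
    have t2 : Tendsto (fun n : ℕ => ((n : ℝ) ^ 2) * p) atTop atTop :=
      ((tendsto_pow_atTop two_ne_zero).comp t1).atTop_mul_const hp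
    exact t2.eventually_ge_atTop K
  obtain ⟨n, ⟨hn1, hn2, hn3, hn4, -⟩, hn6⟩ := (hev.and hev2).exists
  set k : ℕ := n ^ 2 with hk
  have hkp : K ≤ (k : ℝ) * p := by rw [hk]; push_cast; exact hn6
  -- the decay function
  set c2 : ℝ := (b * s / (4 + b ^ 2)) ^ ((k : ℝ) * p) with hc2
  have hc2pos : 0 < c2 := by
    rw [hc2]
    apply Real.rpow_pos_of_pos
    positivity
  refine ⟨1 + (c2⁻¹).toNNReal, fun x0 r hr => ?_⟩
  set β : ℝ := r * b / 2 with hβ
  have hβpos : 0 < β := by positivity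
  have hTβ : 2 / b * β = r := by rw [hβ]; field_simp
  set q : ℝ → ℝ := fun x => β / ((|x - x0| + b * β) / s) with hq
  have hqpos : ∀ x, 0 < q x := fun x => by
    simp only [hq]
    positivity
  set g : ℝ → ℝ := fun x => (q x) ^ ((k : ℝ) * p) with hg
  have hgpos : ∀ x, 0 < g x := fun x => Real.rpow_pos_of_pos (hqpos x) _
  set f : ℝ → ℝ := fun t : ℝ => (tF x0 β k t).re with hf
  have hfa : Admissible f := admissible_tF hβpos k
  have hstar := hC0 f hfa
  -- the two sets
  set Far : Set ℝ := {x | r ≤ |x - x0|} with hFar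
  have hFarm : MeasurableSet Far := by
    apply measurableSet_le measurable_const
    fun_prop
  set A : ℝ≥0∞ := ∫⁻ x in Far, ENNReal.ofReal (g x) ∂(wm U) with hA
  set B : ℝ≥0∞ := wm U Farᶜ with hB
  have hAfin : A ≠ ∞ := by
    have hle : A ≤ ∫⁻ x, ENNReal.ofReal (g x) ∂(wm U) := setLIntegral_le_lintegral _ _
    set M0 : ℝ := s * β * max 1 ((1 + |x0|) / (b * β)) with hM0
    have hM0pos : 0 < M0 := by
      rw [hM0]
      have : 0 < max 1 ((1 + |x0|) / (b * β)) := lt_of_lt_of_le one_pos (le_max_left _ _)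
      positivity
    have hfin : ∫⁻ x, ENNReal.ofReal (g x) ∂(wm U) ≠ ∞ := by
      apply tempered_lintegral hU hK (fun x => (hgpos x).le) (M := M0 ^ ((k : ℝ) * p))
      intro x
      simp only [hg]
      have h1 : q x ≤ M0 / (1 + |x|) := ratio_le hb hβpos hspos
      have hx1 : (1 : ℝ) ≤ 1 + |x| := by linarith [abs_nonneg x]
      calc (q x) ^ ((k : ℝ) * p) ≤ (M0 / (1 + |x|)) ^ ((k : ℝ) * p) := by
            apply Real.rpow_le_rpow (hqpos x).le h1 (by positivity)
        _ = M0 ^ ((k : ℝ) * p) * (1 + |x|) ^ (-((k : ℝ) * p)) := by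
            rw [Real.div_rpow hM0pos.le (by positivity), Real.rpow_neg (by positivity)]
            rfl
        _ ≤ M0 ^ ((k : ℝ) * p) * (1 + |x|) ^ (-K) := by
            apply mul_le_mul_of_nonneg_left _ (by positivity)
            apply Real.rpow_le_rpow_of_exponent_le hx1
            linarith
    exact (lt_of_le_of_lt hle (lt_top_iff_ne_top.2 hfin)).ne
  -- upper bound for the right-hand side
  have hRHS : ∫⁻ x, (ntMax b f x) ^ p ∂(wm U) ≤ B + A := by
    rw [← lintegral_add_compl _ hFarm, add_comm]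
    apply add_le_add
    · calc ∫⁻ x in Farᶜ, (ntMax b f x) ^ p ∂(wm U) ≤ ∫⁻ _ in Farᶜ, 1 ∂(wm U) := by
            apply lintegral_mono
            intro x
            calc (ntMax b f x) ^ p ≤ 1 ^ p :=
                  ENNReal.rpow_le_rpow (ntMax_tF_le_one hβpos k) hp.le
              _ = 1 := ENNReal.one_rpow _
        _ = B := by rw [setLIntegral_one]
    · apply lintegral_mono
      intro x
      simp only
      calc (ntMax b f x) ^ p ≤ (ENNReal.ofReal ((q x) ^ k)) ^ p :=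
            ENNReal.rpow_le_rpow (ntMax_tF_le hb hβpos k) hp.le
        _ = ENNReal.ofReal (g x) := by
            rw [ENNReal.ofReal_rpow_of_nonneg (by have := hqpos x; positivity) hp.le]
            congr 1
            simp only [hg]
            rw [← Real.rpow_natCast, ← Real.rpow_mul (hqpos x).le]
  -- lower bound for the left-hand side
  have hLHS : 2 * (C1 : ℝ≥0∞) * A ≤ ∫⁻ x, (areaFn lam f x) ^ p ∂(wm U) := by
    calc 2 * (C1 : ℝ≥0∞) * A ≤ ENNReal.ofReal ((c1 * n) ^ (p / 2)) * A := by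
          gcongr
          have : (2 : ℝ≥0∞) * (C1 : ℝ≥0∞) = ENNReal.ofReal (2 * (C1 : ℝ)) := by
            rw [ENNReal.ofReal_mul (by norm_num), ENNReal.ofReal_coe_nnreal]
            norm_num
          rw [this]
          exact ENNReal.ofReal_le_ofReal hn4
      _ = ∫⁻ x in Far, ENNReal.ofReal ((c1 * n) ^ (p / 2)) * ENNReal.ofReal (g x) ∂(wm U) := by
          rw [hA, lintegral_const_mul' _ _ ENNReal.ofReal_ne_top]
      _ ≤ ∫⁻ x in Far, (areaFn lam f x) ^ p ∂(wm U) := by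
          apply setLIntegral_mono' hFarm
          intro x hx
          rw [areaFn_rpow]
          have h1 := area_tF_lower (x := x) (x0 := x0) (β := β) (n := n) hb hβpos
            (by rw [hTβ]; exact hx) hn1 hn2 hn3
          rw [← hs, ← hc1] at h1
          have h2 : ∫⁻ q in cone b x, ENNReal.ofReal (gradSq f q.1 q.2) ≤
              ∫⁻ q in cone lam x, ENNReal.ofReal (gradSq f q.1 q.2) :=
            lintegral_mono_set (cone_mono hlam)
          have h3 : ENNReal.ofReal (c1 * n * (q x) ^ (2 * k)) ≤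
              ∫⁻ q in cone lam x, ENNReal.ofReal (gradSq f q.1 q.2) := h1.trans h2
          calc ENNReal.ofReal ((c1 * n) ^ (p / 2)) * ENNReal.ofReal (g x)
              = (ENNReal.ofReal (c1 * n * (q x) ^ (2 * k))) ^ (p / 2) := by
                rw [ENNReal.ofReal_rpow_of_nonneg (by have := hqpos x; positivity) (by positivity),
                  ← ENNReal.ofReal_mul (by positivity)]
                congr 1
                have hcn : 0 ≤ c1 * (n : ℝ) := by positivity
                have hqk : 0 ≤ (q x) ^ (2 * k) := by have := hqpos x; positivity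
                rw [Real.mul_rpow hcn hqk]
                congr 1
                simp only [hg]
                rw [← Real.rpow_natCast, ← Real.rpow_mul (hqpos x).le]
                congr 1
                push_cast
                ring
            _ ≤ _ := ENNReal.rpow_le_rpow h3 (by positivity)
      _ ≤ _ := setLIntegral_le_lintegral _ _
  -- absorb
  have hAB : A ≤ B := by
    have h1 : 2 * (C1 : ℝ≥0∞) * A ≤ (C1 : ℝ≥0∞) * (B + A) := by
      calc 2 * (C1 : ℝ≥0∞) * A ≤ ∫⁻ x, (areaFn lam f x) ^ p ∂(wm U) := hLHS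
        _ ≤ (C0 : ℝ≥0∞) * ∫⁻ x, (ntMax b f x) ^ p ∂(wm U) := hstar
        _ ≤ (C1 : ℝ≥0∞) * (B + A) := by
            gcongr
            exact le_max_left _ _
    have h2 : (C1 : ℝ≥0∞) * A + (C1 : ℝ≥0∞) * A ≤ (C1 : ℝ≥0∞) * B + (C1 : ℝ≥0∞) * A := by
      calc (C1 : ℝ≥0∞) * A + (C1 : ℝ≥0∞) * A = 2 * (C1 : ℝ≥0∞) * A := by ring
        _ ≤ (C1 : ℝ≥0∞) * (B + A) := h1
        _ = _ := by ring
    have h3 : (C1 : ℝ≥0∞) * A ≤ (C1 : ℝ≥0∞) * B :=
      (ENNReal.add_le_add_iff_right (ENNReal.mul_ne_top ENNReal.coe_ne_top hAfin)).1 h2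
    have h4 : (C1 : ℝ≥0∞) ≠ 0 := by
      have : C1 ≠ 0 := (lt_of_lt_of_le one_pos hC1pos).ne'
      exact_mod_cast this
    exact (ENNReal.mul_le_mul_iff_right h4 ENNReal.coe_ne_top).1 h3
  -- conclusion
  have hBle : B ≤ wm U (Icc (x0 - r) (x0 + r)) := by
    apply measure_mono
    intro x hx
    have : ¬ (r ≤ |x - x0|) := hx
    push Not at this
    rw [abs_lt] at this
    exact ⟨by linarith [this.1], by linarith [this.2]⟩
  have hAlow : ENNReal.ofReal c2 * wm U (Far ∩ Icc (x0 - 2 * r) (x0 + 2 * r)) ≤ A := by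
    calc ENNReal.ofReal c2 * wm U (Far ∩ Icc (x0 - 2 * r) (x0 + 2 * r))
        = ∫⁻ _ in Far ∩ Icc (x0 - 2 * r) (x0 + 2 * r), ENNReal.ofReal c2 ∂(wm U) :=
          (setLIntegral_const _ _).symm
      _ ≤ ∫⁻ x in Far ∩ Icc (x0 - 2 * r) (x0 + 2 * r), ENNReal.ofReal (g x) ∂(wm U) := by
          apply setLIntegral_mono' (hFarm.inter measurableSet_Icc)
          intro x hx
          apply ENNReal.ofReal_le_ofReal
          rw [hc2]
          apply Real.rpow_le_rpow (by positivity) _ (by positivity)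
          have hx2 : |x - x0| ≤ 2 * r := by
            rw [abs_le]
            exact ⟨by linarith [hx.2.1], by linarith [hx.2.2]⟩
          simp only [hq]
          have e : b * s / (4 + b ^ 2) = β / ((2 * r + b * β) / s) := by
            rw [hβ]
            field_simp
            ring
          rw [e]
          gcongr
      _ ≤ A := lintegral_mono_set inter_subset_left
  have hsub : Icc (x0 - 2 * r) (x0 + 2 * r) ⊆
      Icc (x0 - r) (x0 + r) ∪ (Far ∩ Icc (x0 - 2 * r) (x0 + 2 * r)) := by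
    intro x hx
    by_cases h : r ≤ |x - x0|
    · right
      exact ⟨h, hx⟩
    · left
      push Not at h
      rw [abs_lt] at h
      exact ⟨by linarith [h.1], by linarith [h.2]⟩
  have hfar2 : wm U (Far ∩ Icc (x0 - 2 * r) (x0 + 2 * r)) ≤
      ENNReal.ofReal c2⁻¹ * wm U (Icc (x0 - r) (x0 + r)) := by
    have h1 : ENNReal.ofReal c2 * wm U (Far ∩ Icc (x0 - 2 * r) (x0 + 2 * r)) ≤
        wm U (Icc (x0 - r) (x0 + r)) := hAlow.trans (hAB.trans hBle)
    have hc2' : ENNReal.ofReal c2 ≠ 0 := by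
      rw [Ne, ENNReal.ofReal_eq_zero]
      push Not
      exact hc2pos
    rw [ENNReal.ofReal_inv_of_pos hc2pos]
    rw [mul_comm] at h1
    rw [mul_comm (ENNReal.ofReal c2)⁻¹, ← div_eq_mul_inv]
    rw [ENNReal.le_div_iff_mul_le (Or.inl hc2') (Or.inl ENNReal.ofReal_ne_top)]
    exact h1
  calc wm U (Icc (x0 - 2 * r) (x0 + 2 * r))
      ≤ wm U (Icc (x0 - r) (x0 + r) ∪ (Far ∩ Icc (x0 - 2 * r) (x0 + 2 * r))) := measure_mono hsub
    _ ≤ wm U (Icc (x0 - r) (x0 + r)) + wm U (Far ∩ Icc (x0 - 2 * r) (x0 + 2 * r)) :=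
        measure_union_le _ _
    _ ≤ wm U (Icc (x0 - r) (x0 + r)) + ENNReal.ofReal c2⁻¹ * wm U (Icc (x0 - r) (x0 + r)) := by
        gcongr
    _ = ((1 + (c2⁻¹).toNNReal : ℝ≥0) : ℝ≥0∞) * wm U (Icc (x0 - r) (x0 + r)) := by
        rw [ENNReal.coe_add, add_mul, ENNReal.coe_one, one_mul]
        rfl

end Pool.Agent.Work.MP_055a27_an
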