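import Pool.Agent.Work.MP_055a27_an.TestF

/-!
# Lower bound for the area function of the power test functions
-/

open MeasureTheory Set Filter Topology Complex
open scoped ENNReal NNReal

namespace Pool.Agent.Work.MP_055a27_an

/-- Elementary: `(1 + 6/k)^(k+1) ≤ exp 12`. -/
lemma pow_bound {k : ℕ} (hk : 1 ≤ k) : (1 + 6 / (k : ℝ)) ^ (k + 1) ≤ Real.exp 12 := by
  have hk' : (1 : ℝ) ≤ k := by exact_mod_cast hk
  have h1 : (1 + 6 / (k : ℝ)) ≤ Real.exp (6 / (k : ℝ)) := by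
    have := Real.add_one_le_exp (6 / (k : ℝ))
    linarith
  calc (1 + 6 / (k : ℝ)) ^ (k + 1) ≤ (Real.exp (6 / (k : ℝ))) ^ (k + 1) := by
        gcongr
    _ = Real.exp ((k + 1 : ℕ) * (6 / (k : ℝ))) := by rw [← Real.exp_nat_mul]
    _ ≤ Real.exp 12 := by
        apply Real.exp_le_exp.2
        push_cast
        rw [mul_div_assoc', div_le_iff₀ (by linarith)]
        linarith

/-- The region estimate. -/
lemma region_bound {b h β y t D s : ℝ} {n : ℕ} (hn : 1 ≤ n) (hb : 0 < b) (hβ : 0 < β)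
    (hh : 0 ≤ h) (hs : s = Real.sqrt (1 + b ^ 2)) (hD : D = (h + b * β) / s)
    (hy : |y - (b * h - β) / (1 + b ^ 2)| ≤ D / (s * n)) (ht0 : 0 ≤ t) (ht : t ≤ D / (n : ℝ) ^ 2) :
    (h - b * y + t) ^ 2 + (y + β) ^ 2 ≤ D ^ 2 * (1 + 6 / (n : ℝ) ^ 2) := by
  have hspos : 0 < s := by rw [hs]; positivity
  have hs2 : s ^ 2 = 1 + b ^ 2 := by rw [hs]; exact Real.sq_sqrt (by positivity)
  have hDpos : 0 < D := by rw [hD]; positivity
  have hn' : (1 : ℝ) ≤ n := by exact_mod_cast hn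
  set yP : ℝ := (b * h - β) / (1 + b ^ 2) with hyP
  have hpos : (1 + b ^ 2) ≠ 0 := by positivity
  have hs1 : 1 ≤ s := by
    rw [hs]
    apply Real.le_sqrt_of_sq_le
    nlinarith [sq_nonneg b]
  have hbs : b ≤ s := by
    rw [hs]
    apply Real.le_sqrt_of_sq_le
    linarith
  have hid : (h - b * y) ^ 2 + (y + β) ^ 2 = D ^ 2 + (1 + b ^ 2) * (y - yP) ^ 2 := by
    have : D ^ 2 = (h + b * β) ^ 2 / (1 + b ^ 2) := by
      rw [hD, div_pow, hs2]
    rw [this, hyP]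
    field_simp
    ring
  have hv : (1 + b ^ 2) * (y - yP) ^ 2 ≤ D ^ 2 / (n : ℝ) ^ 2 := by
    have h1 : (y - yP) ^ 2 ≤ (D / (s * n)) ^ 2 := by
      rw [← sq_abs (y - yP)]
      exact pow_le_pow_left₀ (abs_nonneg _) hy 2
    calc (1 + b ^ 2) * (y - yP) ^ 2 ≤ (1 + b ^ 2) * (D / (s * n)) ^ 2 := by gcongr
      _ = D ^ 2 / (n : ℝ) ^ 2 := by
        rw [← hs2]
        field_simp
  have hx : |h - b * y| ≤ 2 * D := by
    have h1 : h - b * y = D / s - b * (y - yP) := by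
      rw [hD, hyP, div_div, ← sq, hs2]
      field_simp
      ring
    rw [h1]
    calc |D / s - b * (y - yP)| ≤ |D / s| + |b * (y - yP)| := abs_sub _ _
      _ ≤ D + D := by
        gcongr
        · rw [abs_of_pos (by positivity)]
          exact div_le_self hDpos.le hs1
        · rw [abs_mul, abs_of_pos hb]
          calc b * |y - yP| ≤ s * (D / (s * n)) := by gcongr
            _ = D / n := by field_simp
            _ ≤ D := div_le_self hDpos.le hn'
      _ = 2 * D := by ring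
  have hn2 : (1 : ℝ) ≤ (n : ℝ) ^ 2 := by nlinarith
  have h3 : 2 * t * (h - b * y) ≤ 4 * (D ^ 2 / (n : ℝ) ^ 2) := by
    have h4 : h - b * y ≤ 2 * D := le_trans (le_abs_self _) hx
    calc 2 * t * (h - b * y) ≤ 2 * t * (2 * D) := by gcongr
      _ ≤ 2 * (D / (n : ℝ) ^ 2) * (2 * D) := by gcongr
      _ = 4 * (D ^ 2 / (n : ℝ) ^ 2) := by ring
  have h5 : t ^ 2 ≤ D ^ 2 / (n : ℝ) ^ 2 := by
    calc t ^ 2 ≤ (D / (n : ℝ) ^ 2) ^ 2 := pow_le_pow_left₀ ht0 ht 2
      _ = (D ^ 2 / (n : ℝ) ^ 2) / (n : ℝ) ^ 2 := by field_simp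
      _ ≤ D ^ 2 / (n : ℝ) ^ 2 := div_le_self (by positivity) hn2
  calc (h - b * y + t) ^ 2 + (y + β) ^ 2
      = ((h - b * y) ^ 2 + (y + β) ^ 2) + 2 * t * (h - b * y) + t ^ 2 := by ring
    _ = (D ^ 2 + (1 + b ^ 2) * (y - yP) ^ 2) + 2 * t * (h - b * y) + t ^ 2 := by rw [hid]
    _ ≤ (D ^ 2 + D ^ 2 / (n : ℝ) ^ 2) + 4 * (D ^ 2 / (n : ℝ) ^ 2) + D ^ 2 / (n : ℝ) ^ 2 := by
        gcongr
    _ = D ^ 2 * (1 + 6 / (n : ℝ) ^ 2) := by ring

/-- Positivity of the height and the width constraint in the region. -/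
lemma region_height {b h β y D s : ℝ} {n : ℕ} (hb : 0 < b) (hβ : 0 < β)
    (hh : 2 / b * β ≤ h) (hs : s = Real.sqrt (1 + b ^ 2)) (hD : D = (h + b * β) / s)
    (hn1 : 8 / b ≤ n) (hn2 : 4 * b ≤ n) (hn3 : 1 ≤ (n : ℝ))
    (hy : |y - (b * h - β) / (1 + b ^ 2)| ≤ D / (s * n)) :
    0 < y ∧ D / (n : ℝ) ^ 2 ≤ 2 * b * y := by
  have hspos : 0 < s := by rw [hs]; positivity
  have hs2 : s ^ 2 = 1 + b ^ 2 := by rw [hs]; exact Real.sq_sqrt (by positivity)
  have hh0 : 0 < h := lt_of_lt_of_le (by positivity) hh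
  have hbh : 2 * β ≤ b * h := by
    rw [div_mul_eq_mul_div, div_le_iff₀ hb] at hh
    linarith
  have hnpos : (0 : ℝ) < n := by linarith
  have hs1 : 1 ≤ s := by
    rw [hs]
    apply Real.le_sqrt_of_sq_le
    nlinarith [sq_nonneg b]
  have hDn : D / (s * n) = (h + b * β) / ((1 + b ^ 2) * n) := by
    rw [hD, ← hs2]
    field_simp
  -- (h + bβ)/n ≤ b h / 4
  have h1 : (h + b * β) / n ≤ b * h / 4 := by
    rw [div_le_iff₀ hnpos]
    have e1 : 8 ≤ b * n := by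
      rw [div_le_iff₀ hb] at hn1
      linarith
    have e2 : h ≤ b * h / 8 * n := by nlinarith
    have e3 : b * β ≤ b * h / 8 * n := by
      have : β ≤ b * h / 2 := by linarith
      calc b * β ≤ b * (b * h / 2) := by gcongr
        _ = (b * h / 8) * (4 * b) := by ring
        _ ≤ (b * h / 8) * n := by gcongr
    linarith
  have h2 : (b * h - β) / (1 + b ^ 2) ≥ (b * h / 2) / (1 + b ^ 2) := by
    gcongr
    linarith
  have h3 : D / (s * n) ≤ (b * h / 4) / (1 + b ^ 2) := by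
    rw [hDn, mul_comm (1 + b ^ 2), ← div_div]
    gcongr
  have h4 : (b * h / 4) / (1 + b ^ 2) ≤ y := by
    have := (abs_le.1 hy).1
    have e : (b * h / 2) / (1 + b ^ 2) = (b * h / 4) / (1 + b ^ 2) + (b * h / 4) / (1 + b ^ 2) := by
      ring
    linarith
  have h5 : 0 < (b * h / 4) / (1 + b ^ 2) := by positivity
  refine ⟨by linarith, ?_⟩
  -- D / n^2 ≤ D/(s n) * (s/n) and bounds
  have h6 : D / (n : ℝ) ^ 2 ≤ D / (s * n) * (s / n) := by
    apply le_of_eq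
    field_simp
  have h7 : s / n ≤ 2 * b := by
    rw [div_le_iff₀ hnpos]
    have e1 : s ≤ 1 + b := by
      rw [hs]
      rw [Real.sqrt_le_left (by positivity)]
      nlinarith
    have e2 : 8 ≤ b * n := by
      rw [div_le_iff₀ hb] at hn1
      linarith
    have e3 : b ≤ b * n := le_mul_of_one_le_right hb.le hn3
    nlinarith
  calc D / (n : ℝ) ^ 2 ≤ D / (s * n) * (s / n) := h6
    _ ≤ y * (2 * b) :=
        mul_le_mul (h3.trans h4) h7 (by positivity) (by linarith)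
    _ = 2 * b * y := by ring

/-- Lower bound for the area integral of the test function. -/
lemma area_tF_lower {b x x0 β : ℝ} {n : ℕ} (hb : 0 < b) (hβ : 0 < β)
    (hx : 2 / b * β ≤ |x - x0|) (hn1 : 8 / b ≤ n) (hn2 : 4 * b ≤ n) (hn3 : 1 ≤ n) :
    ENNReal.ofReal (2 * Real.exp (-12) / Real.sqrt (1 + b ^ 2) * n *
      (β / ((|x - x0| + b * β) / Real.sqrt (1 + b ^ 2))) ^ (2 * n ^ 2)) ≤
    ∫⁻ q in cone b x, ENNReal.ofReal
      (gradSq (fun t : ℝ => (tF x0 β (n ^ 2) t).re) q.1 q.2) := by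
  set s : ℝ := Real.sqrt (1 + b ^ 2) with hs
  set h : ℝ := |x - x0| with hh
  set D : ℝ := (h + b * β) / s with hD
  have hn3' : (1 : ℝ) ≤ n := by exact_mod_cast hn3
  have hspos : 0 < s := by rw [hs]; positivity
  have hh0 : 0 < h := lt_of_lt_of_le (by positivity) hx
  have hDpos : 0 < D := by rw [hD]; positivity
  set yP : ℝ := (b * h - β) / (1 + b ^ 2) with hyP
  set v0 : ℝ := D / (s * n) with hv0
  set δ : ℝ := D / (n : ℝ) ^ 2 with hδ
  have hδpos : 0 < δ := by positivity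
  have hv0pos : 0 < v0 := by positivity
  -- the lower edge function
  set φ : ℝ → ℝ := if x0 ≤ x then (fun y => x - b * y) else (fun y => x + b * y - δ) with hφ
  have hφm : Measurable φ := by
    rw [hφ]
    split_ifs
    · fun_prop
    · fun_prop
  set P : Set (ℝ × ℝ) := {q : ℝ × ℝ | q.2 ∈ Icc (yP - v0) (yP + v0) ∧
    q.1 ∈ Icc (φ q.2) (φ q.2 + δ)} with hP
  have hPm : MeasurableSet P := measurableSet_strip hφm
  have hvol : volume P = ENNReal.ofReal δ * ENNReal.ofReal (yP + v0 - (yP - v0)) :=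
    volume_strip hφm
  -- facts about points of P
  have hpt : ∀ q ∈ P, 0 < q.2 ∧ |x - q.1| ≤ b * q.2 ∧
      (q.1 - x0) ^ 2 + (q.2 + β) ^ 2 ≤ D ^ 2 * (1 + 6 / (n : ℝ) ^ 2) := by
    rintro ⟨z, y⟩ ⟨hy, hz⟩
    simp only at hy hz ⊢
    have hyabs : |y - yP| ≤ v0 := by
      rw [abs_le]
      constructor <;> linarith [hy.1, hy.2]
    obtain ⟨hy0, hδy⟩ := region_height hb hβ hx hs hD hn1 hn2 hn3' hyabs
    refine ⟨hy0, ?_⟩
    by_cases hc : x0 ≤ x
    · have hφ' : φ y = x - b * y := by simp [hφ, hc]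
      rw [hφ'] at hz
      have hhx : h = x - x0 := by rw [hh, abs_of_nonneg (by linarith)]
      obtain ⟨t, ht⟩ : ∃ t, t = z - (x - b * y) := ⟨_, rfl⟩
      have ht0 : 0 ≤ t := by rw [ht]; linarith [hz.1]
      have ht1 : t ≤ δ := by rw [ht]; linarith [hz.2]
      have hzt : z = x - b * y + t := by rw [ht]; ring
      constructor
      · rw [hzt, abs_le]
        constructor <;> nlinarith
      · have := region_bound hn3 hb hβ hh0.le hs hD hyabs ht0 ht1
        have e : z - x0 = h - b * y + t := by rw [hzt, hhx]; ring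
        rw [e]
        exact this
    · have hφ' : φ y = x + b * y - δ := by simp [hφ, hc]
      rw [hφ'] at hz
      have hhx : h = x0 - x := by rw [hh, abs_of_neg (by linarith)]; ring
      obtain ⟨t, ht⟩ : ∃ t, t = (x + b * y) - z := ⟨_, rfl⟩
      have ht0 : 0 ≤ t := by rw [ht]; linarith [hz.2]
      have ht1 : t ≤ δ := by rw [ht]; linarith [hz.1]
      have hzt : z = x + b * y - t := by rw [ht]; ring
      constructor
      · rw [hzt, abs_le]
        constructor <;> nlinarith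
      · have := region_bound hn3 hb hβ hh0.le hs hD hyabs ht0 ht1
        have e : z - x0 = -(h - b * y + t) := by rw [hzt, hhx]; ring
        rw [e, neg_sq]
        exact this
  have hPcone : P ⊆ cone b x := fun q hq => ⟨(hpt q hq).2.1, (hpt q hq).1⟩
  set c : ℝ := (n : ℝ) ^ 4 * β ^ (2 * n ^ 2) * Real.exp (-12) / D ^ (2 * n ^ 2 + 2) with hc
  have hcle : ∀ q ∈ P, c ≤ gradSq (fun t : ℝ => (tF x0 β (n ^ 2) t).re) q.1 q.2 := by
    intro q hq
    obtain ⟨hq0, -, hq2⟩ := hpt q hq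
    rw [gradSq_tF hβ _ hq0]
    have hpos : 0 < (q.1 - x0) ^ 2 + (q.2 + β) ^ 2 := by positivity
    have h1 : ((q.1 - x0) ^ 2 + (q.2 + β) ^ 2) ^ (n ^ 2 + 1) ≤
        D ^ (2 * n ^ 2 + 2) * Real.exp 12 := by
      calc ((q.1 - x0) ^ 2 + (q.2 + β) ^ 2) ^ (n ^ 2 + 1)
          ≤ (D ^ 2 * (1 + 6 / (n : ℝ) ^ 2)) ^ (n ^ 2 + 1) := by gcongr
        _ = D ^ (2 * n ^ 2 + 2) * (1 + 6 / (n : ℝ) ^ 2) ^ (n ^ 2 + 1) := by
            rw [mul_pow, ← pow_mul]
            congr 2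
        _ ≤ D ^ (2 * n ^ 2 + 2) * Real.exp 12 := by
            gcongr
            have := pow_bound (k := n ^ 2) (Nat.one_le_pow _ _ hn3)
            push_cast at this
            exact this
    rw [hc, Real.exp_neg]
    rw [div_le_div_iff₀ (by positivity) (by positivity)]
    push_cast
    calc (n : ℝ) ^ 4 * β ^ (2 * n ^ 2) * (Real.exp 12)⁻¹ *
          ((q.1 - x0) ^ 2 + (q.2 + β) ^ 2) ^ (n ^ 2 + 1)
        ≤ (n : ℝ) ^ 4 * β ^ (2 * n ^ 2) * (Real.exp 12)⁻¹ *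
          (D ^ (2 * n ^ 2 + 2) * Real.exp 12) := by gcongr
      _ = ((n : ℝ) ^ 2) ^ 2 * β ^ (2 * n ^ 2) * D ^ (2 * n ^ 2 + 2) := by
          have := Real.exp_pos 12
          field_simp
  refine le_trans ?_ (area_lower hPm hPcone hcle)
  rw [hvol, ← ENNReal.ofReal_mul hδpos.le, ← ENNReal.ofReal_mul (by positivity)]
  apply ENNReal.ofReal_le_ofReal
  apply le_of_eq
  have e1 : yP + v0 - (yP - v0) = 2 * v0 := by ring
  rw [e1, hc, hv0, hδ, div_pow]
  have hn0 : (n : ℝ) ≠ 0 := by positivity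
  rw [pow_add]
  field_simp

end Pool.Agent.Work.MP_055a27_an
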